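import Pool.Agent.MP_2023ef_al.h5.Ind

/-! Basic facts on the data of the construction. -/

namespace Pool.Agent.MP_2023ef_al.H5

open Sum Set MvPolynomial

variable {k K J : Type*} [Field k] [Field K] [Algebra k K] (s : k) {e : Bool ⊕ J → K}
  {a b : J → MvPolynomial (Bool ⊕ J) k}

theorem inl_mem (U : Set J) (c : Bool) : inl c ∈ sU U := fun _ h => by cases h

theorem inr_mem {U : Set J} {j : J} : inr j ∈ sU U ↔ j ∈ U :=
  ⟨fun h => h j rfl, fun h _ e => by cases e; exact h⟩

theorem sU_mono {U V : Set J} (h : U ⊆ V) : sU U ⊆ sU V := fun _ hi j e => h (hi j e)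

theorem sU_finite {U : Set J} (h : U.Finite) : (sU U).Finite :=
  ((finite_range inl).union (h.image inr)).subset (by
    rintro (c | j) hi
    · exact Or.inl ⟨c, rfl⟩
    · exact Or.inr ⟨j, inr_mem.1 hi, rfl⟩)

theorem forall_sU {U : Set J} {p : Bool ⊕ J → Prop} (h0 : p (inl false)) (h1 : p (inl true))
    (h : ∀ j ∈ U, p (inr j)) : ∀ i ∈ sU U, p i := by
  rintro ((_ | _) | j) hi
  exacts [h0, h1, h j (inr_mem.1 hi)]

omit [Field K] in
@[simp] theorem fam_false (p q : K) (γ : J → K) : fam p q γ (inl false) = p := rfl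

omit [Field K] in
@[simp] theorem fam_true (p q : K) (γ : J → K) : fam p q γ (inl true) = q := rfl

omit [Field K] in
@[simp] theorem fam_inr (p q : K) (γ : J → K) (j : J) : fam p q γ (inr j) = γ j := rfl

@[simp] theorem chi_false : chi s e (X (inl false)) = (1 + e (inl false)) * x0 s e := by simp [chi]

@[simp] theorem chi_true : chi s e (X (inl true)) = (1 + e (inl false)) * y0 s e := by simp [chi]

@[simp] theorem chi_inr (j : J) : chi s e (X (inr j)) = e (inr j) := by simp [chi]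

theorem add_ne {t : K} (h : Transcendental k t) (c : k) : algebraMap k K c + t ≠ 0 := fun e =>
  h (eq_neg_of_add_eq_zero_right e ▸ (isAlgebraic_algebraMap c).neg)

theorem rho_ne (h : Transcendental k (e (inl false))) : 1 + e (inl false) ≠ 0 := by
  simpa using add_ne h 1

theorem two_ne (h : Transcendental k (e (inl true))) : 2 + e (inl true) ≠ 0 := by
  simpa [map_ofNat] using add_ne h 2

theorem qq_ne (h : Transcendental k (e (inl true))) : qq s e ≠ 0 := fun e0 =>
  h ⟨1 + Polynomial.X + Polynomial.C s * Polynomial.X ^ 2,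
    fun h => by simpa using congrArg (Polynomial.coeff · 0) h, by simpa [qq] using e0⟩

theorem Nf_unit (h : qq s e ≠ 0) : Nf (algebraMap k K s) (x0 s e) (y0 s e) = 1 := by
  rw [Nf, x0, y0]
  field_simp
  rw [qq]
  ring

theorem chi_mem (W : Subring K) (hk : ∀ c, algebraMap k K c ∈ W) {U : Set J}
    (hx : (1 + e (inl false)) * x0 s e ∈ W) (hy : (1 + e (inl false)) * y0 s e ∈ W)
    (hg : ∀ j ∈ U, e (inr j) ∈ W) {p : MvPolynomial (Bool ⊕ J) k} (hp : p ∈ supported k (sU U)) :
    chi s e p ∈ W := by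
  rw [supported_eq_adjoin_X] at hp
  induction hp using Algebra.adjoin_induction with
  | mem x h =>
    obtain ⟨i, hi, rfl⟩ := h
    revert i
    exact forall_sU (by simpa using hx) (by simpa using hy) (by simpa using hg)
  | algebraMap c => rw [AlgHom.commutes]; exact hk c
  | add x y _ _ h1 h2 => rw [map_add]; exact W.add_mem h1 h2
  | mul x y _ _ h1 h2 => rw [map_mul]; exact W.mul_mem h1 h2

theorem x0_mem (C : IntermediateField k K) (h : e (inl true) ∈ C) : x0 s e ∈ C ∧ y0 s e ∈ C := by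
  have hs := C.algebraMap_mem s
  have hq : qq s e ∈ C := add_mem (add_mem C.one_mem h) (mul_mem hs (pow_mem h 2))
  exact ⟨div_mem (sub_mem C.one_mem (mul_mem hs (pow_mem h 2))) hq,
    div_mem (mul_mem h (add_mem (ofNat_mem C 2) h)) hq⟩

theorem chi_mem' (C : IntermediateField k K) {U : Set J} (h : ∀ i ∈ sU U, e i ∈ C)
    {p : MvPolynomial (Bool ⊕ J) k} (hp : p ∈ supported k (sU U)) : chi s e p ∈ C :=
  have h0 := add_mem C.one_mem (h _ (inl_mem U false))
  have h1 := x0_mem s C (h _ (inl_mem U true))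
  chi_mem s C.toSubfield.toSubring C.algebraMap_mem (mul_mem h0 h1.1) (mul_mem h0 h1.2)
    (fun _ hj => h _ (inr_mem.2 hj)) hp

theorem tau_mem (C : IntermediateField k K) {j : J} (h : e (inr j) ∈ C) (ha : chi s e (a j) ∈ C)
    (hb : chi s e (b j) ∈ C) : tau s e a b j ∈ C :=
  div_mem (mul_mem h (add_mem h ha))
    (add_mem (add_mem (pow_mem ha 2) (mul_mem ha hb)) (mul_mem (C.algebraMap_mem s) (pow_mem hb 2)))

theorem chi_ind {U : Set J} (hU : U.Finite) (he : AlgebraicIndepOn k e (sU U)) :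
    AlgebraicIndepOn k (fam ((1 + e (inl false)) * x0 s e) ((1 + e (inl false)) * y0 s e)
      fun j => e (inr j)) (sU U) := by
  have h0 := rho_ne (he.transcendental ⟨_, inl_mem U false⟩)
  have h1 := two_ne (he.transcendental ⟨_, inl_mem U true⟩)
  have h2 := qq_ne s (he.transcendental ⟨_, inl_mem U true⟩)
  refine count_on (sU_finite hU) he ?_
  set C := cl k (fam ((1 + e (inl false)) * x0 s e) ((1 + e (inl false)) * y0 s e)
    (fun j => e (inr j)) '' sU U)
  have hx : (1 + e (inl false)) * x0 s e ∈ C := subset_cl ⟨_, inl_mem U false, rfl⟩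
  have hy : (1 + e (inl false)) * y0 s e ∈ C := subset_cl ⟨_, inl_mem U true, rfl⟩
  have hr : 1 + e (inl false) ∈ C := by
    refine cl_quad C.zero_mem (neg_mem (add_mem (add_mem (pow_mem hx 2) (mul_mem hx hy))
      (mul_mem (C.algebraMap_mem s) (pow_mem hy 2)))) ?_
    have := Nf_unit s h2
    rw [Nf] at this
    linear_combination (-(1 + e (inl false)) ^ 2) * this
  refine forall_sU (by simpa using sub_mem hr C.one_mem) ?_ fun j hj =>
    subset_cl ⟨_, inr_mem.2 hj, rfl⟩
  suffices h : e (inl true) = (1 + e (inl false)) * y0 s e /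
      (1 + e (inl false) + (1 + e (inl false)) * x0 s e) from h ▸ div_mem hy (add_mem hr hx)
  have : 1 + x0 s e = (2 + e (inl true)) / qq s e := by
    rw [x0]; field_simp; rw [qq]; ring
  rw [← mul_one_add, this, y0]
  field_simp

theorem chi_ne {U : Set J} (hU : U.Finite) (he : AlgebraicIndepOn k e (sU U))
    {p : MvPolynomial (Bool ⊕ J) k} (hp : p ∈ supported k (sU U)) (h : p ≠ 0) : chi s e p ≠ 0 :=
  fun h0 => h (algebraicIndependent_comp_subtype.1 (chi_ind s hU he) p hp h0)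

theorem Nf_ne [Infinite k] (hs : ∀ c : k, c ^ 2 + c + s ≠ 0) {σ : Type*} {p : MvPolynomial σ k}
    (hp : p ≠ 0) (q : MvPolynomial σ k) : Nf (C s) p q ≠ 0 := fun h => hp <|
  MvPolynomial.funext fun x => by
    have := congrArg (eval x) h
    simp only [Nf, map_add, map_mul, map_pow, eval_C, map_zero] at this ⊢
    by_cases hq : eval x q = 0
    · simpa [hq] using this
    · exact absurd (by field_simp; linear_combination this) (hs (eval x p / eval x q))

theorem chi_Nf (p q : MvPolynomial (Bool ⊕ J) k) :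
    chi s e (Nf (C s) p q) = Nf (algebraMap k K s) (chi s e p) (chi s e q) := by
  simp [Nf, chi]

theorem Nf_chi_ne [Infinite k] (hs : ∀ c : k, c ^ 2 + c + s ≠ 0) {U : Set J} (hU : U.Finite)
    (he : AlgebraicIndepOn k e (sU U)) {p q : MvPolynomial (Bool ⊕ J) k}
    (hp : p ∈ supported k (sU U)) (hq : q ∈ supported k (sU U)) (h : p ≠ 0) :
    Nf (algebraMap k K s) (chi s e p) (chi s e q) ≠ 0 := by
  rw [← chi_Nf]
  exact chi_ne s hU he (add_mem (add_mem (pow_mem hp 2) (mul_mem hp hq))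
    (mul_mem (Subalgebra.algebraMap_mem _ s) (pow_mem hq 2))) (Nf_ne s hs h q)

/-- Induction on the rank. -/
theorem rank_ind {rk : J → ℕ} (hp : Pairs a b rk) {U : Set J} (hU : Closed a b U) {P : J → Prop}
    (h : ∀ j ∈ U, ∀ V ⊆ U, (∀ l ∈ V, P l ∧ rk l < rk j) → a j ∈ supported k (sU V) →
      b j ∈ supported k (sU V) → P j) (j : J) (hj : j ∈ U) : P j := by
  induction hn : rk j using Nat.strong_induction_on generalizing j with
  | _ n ih =>
  have key : ∀ p ∈ supported k (sU U), p ∈ supported k (sU {l | rk l < rk j}) →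
      p ∈ supported k (sU (U ∩ {l | rk l < rk j})) := fun p h1 h2 =>
    mem_supported.2 fun i hi l e => ⟨mem_supported.1 h1 hi l e, mem_supported.1 h2 hi l e⟩
  exact h j hj _ inter_subset_left (fun l hl => ⟨ih _ (hn ▸ hl.2) l hl.1 rfl, hl.2⟩)
    (key _ (hU j hj).1 (hp.ha j)) (key _ (hU j hj).2 (hp.hb j))

/-- The element `g` with `g (g + α) = τ N (α, β)` generates the ideal `(α, β)` of a nonsplit
valuation ring. -/
theorem gamma {W : Subring K} {X : IntermediateField k K} (hs : s ≠ 0)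
    (hk : ∀ c, algebraMap k K c ∈ W) (hv : ∀ x ∈ X, x ∈ W ∨ x⁻¹ ∈ W)
    (hn : ∀ x ∈ X, x ∈ W → x ^ 2 + x + algebraMap k K s ≠ 0 ∧
      (x ^ 2 + x + algebraMap k K s)⁻¹ ∈ W) {α β : K} (ha : α ∈ X) (hb : β ∈ X)
    (h0 : α ≠ 0 ∨ β ≠ 0) : ∃ m, (m = α ∨ m = β) ∧ m ≠ 0 ∧ α / m ∈ W ∧ β / m ∈ W ∧
      Nf (algebraMap k K s) α β ≠ 0 ∧ m ^ 2 / Nf (algebraMap k K s) α β ∈ W ∧
      ∀ g ∈ X, ∀ τ ∈ W, τ ≠ 0 → τ⁻¹ ∈ W → g * (g + α) = τ * Nf (algebraMap k K s) α β →
        g ≠ 0 ∧ g / m ∈ W ∧ m / g ∈ W := by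
  have s0 : algebraMap k K s ≠ 0 := (map_ne_zero _).2 hs
  obtain ⟨m, h1, h2, h3, h4, h5, h6⟩ : ∃ m, (m = α ∨ m = β) ∧ m ≠ 0 ∧ α / m ∈ W ∧ β / m ∈ W ∧
      Nf (algebraMap k K s) α β ≠ 0 ∧ m ^ 2 / Nf (algebraMap k K s) α β ∈ W := by
    by_cases c : β ≠ 0 ∧ α / β ∈ W
    · obtain ⟨n1, n2⟩ := hn _ (div_mem ha hb) c.2
      have e : Nf (algebraMap k K s) α β = β ^ 2 * ((α / β) ^ 2 + α / β + algebraMap k K s) := by
        have := c.1
        rw [Nf]; field_simp
      refine ⟨β, Or.inr rfl, c.1, c.2, by rw [div_self c.1]; exact W.one_mem,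
        e ▸ mul_ne_zero (pow_ne_zero 2 c.1) n1, ?_⟩
      rwa [e, div_mul_cancel_left₀ (pow_ne_zero 2 c.1)]
    · have a0 : α ≠ 0 := fun a0 => c ⟨h0.resolve_left (not_not.2 a0), by simp [a0]⟩
      have c1 : β / α ∈ W := by
        by_cases b0 : β = 0
        · simp [b0]
        · simpa using (hv _ (div_mem ha hb)).resolve_left fun h => c ⟨b0, h⟩
      obtain ⟨n1, n2⟩ := hn _ (mul_mem (X.algebraMap_mem s) (div_mem hb ha)) (mul_mem (hk s) c1)
      have e : Nf (algebraMap k K s) α β = α ^ 2 * (((algebraMap k K s * (β / α)) ^ 2 +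
          algebraMap k K s * (β / α) + algebraMap k K s) / algebraMap k K s) := by
        rw [Nf]; field_simp; ring
      refine ⟨α, Or.inl rfl, a0, by rw [div_self a0]; exact W.one_mem, c1,
        e ▸ mul_ne_zero (pow_ne_zero 2 a0) (div_ne_zero n1 s0), ?_⟩
      rw [e, div_mul_cancel_left₀ (pow_ne_zero 2 a0), inv_div, div_eq_mul_inv]
      exact mul_mem (hk s) n2
  refine ⟨m, h1, h2, h3, h4, h5, h6, fun g hg τ t1 t0 t2 e => ?_⟩
  have g0 : g ≠ 0 := by rintro rfl; exact mul_ne_zero t0 h5 (by rw [← e, zero_mul])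
  have hN : Nf (algebraMap k K s) α β / m ^ 2 ∈ W := by
    have : Nf (algebraMap k K s) α β / m ^ 2 =
        (α / m) ^ 2 + α / m * (β / m) + algebraMap k K s * (β / m) ^ 2 := by rw [Nf]; field_simp
    exact this ▸ add_mem (add_mem (pow_mem h3 2) (mul_mem h3 h4)) (mul_mem (hk s) (pow_mem h4 2))
  have g1 : g / m ∈ W := by
    refine (hv _ (div_mem hg (h1.elim (· ▸ ha) (· ▸ hb)))).elim id fun h => ?_
    have : g / m = τ * (Nf (algebraMap k K s) α β / m ^ 2) * (g / m)⁻¹ - α / m := by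
      field_simp
      linear_combination e
    exact this ▸ sub_mem (mul_mem (mul_mem t1 hN) h) h3
  refine ⟨g0, g1, ?_⟩
  have : m / g = (g / m + α / m) * τ⁻¹ * (m ^ 2 / Nf (algebraMap k K s) α β) := by
    field_simp
    linear_combination -e
  exact this ▸ mul_mem (mul_mem (add_mem g1 h3) t2) h6

end Pool.Agent.MP_2023ef_al.H5
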