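import Pool.Agent.MP_2023ef_al.h5.Two

/-! Sums over the embeddings of a finite separable extension. -/

namespace Pool.Agent.MP_2023ef_al.H5

open IntermediateField

theorem orbit_sum {P Φ : Type*} [Group P] [MulAction P Φ] [Finite Φ] (F : Φ → ℚ)
    (B : AddSubgroup ℚ) (h1 : ∀ (σ : P) φ, F (σ • φ) = F φ)
    (h2 : ∀ φ, (MulAction.stabilizer P φ).index * F φ ∈ B) : ∑ᶠ φ, F φ ∈ B := by
  classical
  have := Fintype.ofFinite Φ
  have := Fintype.ofFinite (MulAction.orbitRel.Quotient P Φ)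
  rw [finsum_eq_sum_of_fintype, ← Finset.sum_fiberwise Finset.univ
    (Quotient.mk (MulAction.orbitRel P Φ))]
  refine B.sum_mem fun q _ => ?_
  induction q using Quotient.inductionOn with
  | h φ =>
  have e : (Finset.univ.filter fun ψ => Quotient.mk (MulAction.orbitRel P Φ) ψ =
      Quotient.mk (MulAction.orbitRel P Φ) φ) = (MulAction.orbit P φ).toFinset := by
    ext ψ
    simp [Quotient.eq, MulAction.orbitRel_apply]
  rw [e, Finset.sum_congr rfl (g := fun _ => F φ), Finset.sum_const, nsmul_eq_mul,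
    ← Set.ncard_eq_toFinset_card', ← MulAction.index_stabilizer]
  · exact h2 φ
  · intro ψ hψ
    obtain ⟨σ, rfl⟩ := Set.mem_toFinset.1 hψ
    exact h1 σ φ

variable {k Ω : Type*} [Field k] [Field Ω] [Algebra k Ω]

/-- The embeddings of `X` that fix `E`. -/
def Emb (E X : IntermediateField k Ω) : Type _ :=
  {φ : X →ₐ[k] Ω // ∀ x : X, (x : Ω) ∈ E → φ x = x}

/-- Restriction of an embedding. -/
noncomputable def Emb.res {E X Y : IntermediateField k Ω} (h : Y ≤ X) (φ : Emb E X) : Emb E Y :=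
  ⟨φ.1.comp (inclusion h), fun _ hx => φ.2 _ hx⟩

/-- An embedding as a homomorphism over `E`. -/
noncomputable def Emb.hom {E X : IntermediateField k Ω} (h : E ≤ X) (φ : Emb E X) :
    extendScalars h →ₐ[E] Ω :=
  ⟨φ.1.toRingHom, fun c => φ.2 ⟨c.1, h c.2⟩ c.2⟩

variable [IsAlgClosed Ω]

theorem sum_step {E X Y : IntermediateField k Ω} (h : Y ≤ X) (hE : E ≤ Y) (c : X →ₐ[k] X)
    (hc : ∀ x : X, (x : Ω) ∈ Y → c x = x) {g α β : X} (ha : (α : Ω) ∈ Y) (hb : (β : Ω) ∈ Y)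
    (hg : g * (g + α) = β) (cg : c g = -g - α) (ne : c g ≠ g)
    (gen : ∀ x : X, ∃ p q : X, (p : Ω) ∈ Y ∧ (q : Ω) ∈ Y ∧ x = p + q * g) [Finite (Emb E Y)]
    (F : Emb E Y → Ω → ℚ) (hF : ∀ ψ x y, x ≠ 0 → y ≠ 0 → F ψ (x * y) = F ψ x + F ψ y) {z : X}
    (z0 : z ≠ 0) (hz : ((z * c z : X) : Ω) ∈ Y) :
    ∑ᶠ φ : Emb E X, F (φ.res h) (φ.1 z) = ∑ᶠ ψ : Emb E Y, F ψ (ψ.1 ⟨_, hz⟩) := by
  have ex : ∀ ψ : Emb E Y, ∃ φ : Emb E X, φ.res h = ψ := fun ψ => by
    let _ : Algebra Y X := (inclusion h).toRingHom.toAlgebra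
    let _ : Algebra Y Ω := ψ.1.toRingHom.toAlgebra
    have : Module.Finite Y X := Module.Finite.of_surjective
      (LinearMap.coprod (LinearMap.toSpanSingleton Y X 1) (LinearMap.toSpanSingleton Y X g))
      fun x => by
        obtain ⟨p, q, hp, hq, rfl⟩ := gen x
        exact ⟨(⟨p, hp⟩, ⟨q, hq⟩), congrArg (· + q * g) (mul_one p)⟩
    let φ : X →ₐ[Y] Ω := IsAlgClosed.lift
    have e : ∀ y : Y, φ (inclusion h y) = ψ.1 y := φ.commutes
    exact ⟨⟨⟨φ.toRingHom, fun a => (e (algebraMap k Y a)).trans (ψ.1.commutes a)⟩,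
      fun x hx => (e ⟨x, hE hx⟩).trans (ψ.2 _ hx)⟩, Subtype.ext (AlgHom.ext e)⟩
  choose l hl using ex
  let t : Emb E X → Emb E X := fun φ => ⟨φ.1.comp c, fun x hx => by
    rw [AlgHom.comp_apply, hc x (hE hx), φ.2 x hx]⟩
  have ht : ∀ φ, (t φ).res h = φ.res h := fun φ =>
    Subtype.ext (AlgHom.ext fun y => congrArg φ.1 (hc _ y.2))
  have rs : ∀ {φ φ' : Emb E X}, φ.res h = φ'.res h → ∀ x : X, (x : Ω) ∈ Y → φ.1 x = φ'.1 x :=
    fun e x hx => DFunLike.congr_fun (congrArg Subtype.val e) ⟨x, hx⟩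
  have ext : ∀ {φ φ' : Emb E X}, φ.res h = φ'.res h → φ.1 g = φ'.1 g → φ = φ' := fun e e' =>
    Subtype.ext (AlgHom.ext fun x => by
      obtain ⟨p, q, hp, hq, rfl⟩ := gen x
      simp only [map_add, map_mul, rs e p hp, rs e q hq, e'])
  let f : Emb E Y ⊕ Emb E Y → Emb E X := Sum.elim l (t ∘ l)
  have fr : ∀ x, (f x).res h = Sum.elim id id x := by
    rintro (ψ | ψ)
    exacts [hl ψ, (ht _).trans (hl ψ)]
  have n : ∀ ψ ψ', l ψ ≠ t (l ψ') := fun ψ ψ' e => by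
    obtain rfl : ψ = ψ' := (hl ψ).symm.trans ((congrArg _ e).trans (fr (.inr ψ')))
    exact ne ((l ψ).1.injective (DFunLike.congr_fun (congrArg Subtype.val e) g).symm)
  have bj : Function.Bijective f := by
    refine ⟨?_, fun φ => ?_⟩
    · rintro (ψ | ψ) (ψ' | ψ') e
      · exact congrArg _ ((fr (.inl ψ)).symm.trans ((congrArg _ e).trans (fr (.inl ψ'))))
      · exact absurd e (n _ _)
      · exact absurd e.symm (n _ _)
      · exact congrArg _ ((fr (.inr ψ)).symm.trans ((congrArg _ e).trans (fr (.inr ψ'))))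
    · have e := hl (φ.res h)
      have h1 := congrArg φ.1 hg
      have h2 := congrArg (l (φ.res h)).1 hg
      rw [map_mul, map_add] at h1 h2
      rw [rs e α ha, rs e β hb] at h2
      have : ((l (φ.res h)).1 g - φ.1 g) * (-(l (φ.res h)).1 g - φ.1 α - φ.1 g) = 0 := by
        linear_combination h1 - h2
      rcases mul_eq_zero.1 this with a | a
      · exact ⟨.inl _, ext e (sub_eq_zero.1 a)⟩
      · refine ⟨.inr _, ext ((ht _).trans e) ?_⟩
        show (l (φ.res h)).1 (c g) = _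
        rw [cg, map_sub, map_neg, rs e α ha, sub_eq_zero.1 a]
  have := Fintype.ofFinite (Emb E Y)
  rw [← finsum_comp f bj, finsum_eq_sum_of_fintype, finsum_eq_sum_of_fintype, Fintype.sum_sum_type,
    ← Finset.sum_add_distrib]
  refine Finset.sum_congr rfl fun ψ _ => ?_
  simp only [fr, Sum.elim_inl, Sum.elim_inr, id]
  rw [← hF _ _ _ ((map_ne_zero _).2 z0) ((map_ne_zero _).2 z0)]
  congr 1
  conv_rhs => rw [← hl ψ]
  exact (map_mul (l ψ).1 z (c z)).symm

theorem integrality {Γ ι : Type*} [LinearOrderedCommGroupWithZero Γ] [DecidableEq ι] [Fintype ι]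
    (v : Valuation Ω Γ) (lg : Ω → ι → ℚ) (hm : ∀ x y, x ≠ 0 → y ≠ 0 → lg (x * y) = lg x + lg y)
    (hl : ∀ x y, v x = v y → lg x = lg y) {E X : IntermediateField k Ω} (h : E ≤ X)
    [Algebra.IsAlgebraic E Ω] {t : Set Ω} (ht : t.Finite) (hs : ∀ x ∈ t, IsSeparable E x)
    (hX : ∀ x ∈ X, x ∈ adjoin E t) {s : Ω} (sE : s ∈ E) (vs : v s = 1) (vd : v (1 - 4 * s) = 1)
    (h1 : ∀ c ∈ E, c ≠ 0 → ∀ i, lg c i ∈ Z2) (h2 : ∀ c ∈ E, v c ≤ 1 → v (c ^ 2 + c + s) = 1) :
    Finite (Emb E X) ∧ ∃ m : Emb E X → ℕ,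
      (∀ φ (u : ι → X), (∀ i, u i ≠ 0) → m φ * dt (fun i => lg (φ.1 (u i))) ∈ Z2 ∧
        ∀ a : X, v (φ.1 a ^ 2 + φ.1 a + s) < 1 → m φ * dt (fun i => lg (φ.1 (u i))) ∈ E2) ∧
      ∀ F : Emb E X → ℚ, (∀ φ ψ : Emb E X, (∀ x, v (φ.1 x) = v (ψ.1 x)) → F φ = F ψ) →
        (∀ φ, m φ * F φ ∈ E2) → ∑ᶠ φ, F φ ∈ E2 := by
  open Polynomial in
  obtain ⟨θ, hθ, θs⟩ : ∃ θ : Ω, θ ^ 2 + θ + s = 0 ∧ IsSeparable E θ := by
    let p : E[X] := Polynomial.X ^ 2 + Polynomial.X + C ⟨s, sE⟩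
    have pm : p.Monic := by unfold p; monicity!
    have pd : p.degree = 2 := by unfold p; compute_degree!
    obtain ⟨θ, e⟩ := IsAlgClosed.exists_aeval_eq_zero Ω p (by rw [pd]; decide)
    have d0 : (1 - 4 * ⟨s, sE⟩ : E) ≠ 0 := fun e => by
      have : (1 - 4 * s : Ω) = 0 := congrArg Subtype.val e
      simp [this] at vd
    refine ⟨θ, by simpa [p] using e, Separable.of_dvd ?_ (minpoly.dvd E θ e)⟩
    refine ⟨C (-4 * (1 - 4 * ⟨s, sE⟩)⁻¹), C (1 - 4 * ⟨s, sE⟩)⁻¹ * (2 * Polynomial.X + 1), ?_⟩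
    have := congrArg (C : E → E[X]) (inv_mul_cancel₀ d0)
    simp only [p, map_mul, map_sub, map_one, map_neg, map_ofNat, derivative_add, derivative_X_pow,
      derivative_X, derivative_C, Nat.cast_ofNat] at this ⊢
    linear_combination this
  have : IsAlgClosure E Ω := ⟨inferInstance, inferInstance⟩
  have := (ht.insert θ).to_subtype
  have hs' : ∀ x ∈ insert θ t, IsSeparable E x := Set.forall_mem_insert.2 ⟨θs, hs⟩
  have : FiniteDimensional E (adjoin E (insert θ t)) :=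
    finiteDimensional_adjoin fun x hx => (hs' x hx).isIntegral
  have := (isSeparable_adjoin_iff_isSeparable E Ω).2 hs'
  have hN : extendScalars h ≤ adjoin E (insert θ t) := fun x hx =>
    adjoin.mono _ _ _ (Set.subset_insert θ t) (hX x hx)
  let M := normalClosure E (adjoin E (insert θ t)) Ω
  have : Algebra.IsSeparable E M := (le_separableClosure_iff E Ω M).1
    (normalClosure_le_iff.2 fun f => by
      rintro _ ⟨x, rfl⟩
      exact (map_mem_separableClosure_iff f).2 (Algebra.IsSeparable.isSeparable E x))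
  have : IsGalois E M := ⟨⟩
  have : FiniteDimensional E (extendScalars h) :=
    Module.Finite.of_injective (inclusion hN).toLinearMap (inclusion_injective hN)
  have fin : Finite (Emb E X) := Finite.of_injective (Emb.hom h) fun φ ψ e =>
    Subtype.ext (AlgHom.ext fun x => DFunLike.congr_fun e x)
  have hM : ∀ (φ : Emb E X) x, φ.1 x ∈ M := fun φ x =>
    normalClosure_mono _ _ hN ((φ.hom h).fieldRange_le_normalClosure ⟨x, rfl⟩)
  let ev : Emb E X → X →+* M := fun φ => φ.1.toRingHom.codRestrict M (hM φ)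
  have hev : ∀ (σ : M ≃ₐ[E] M) φ (x : X), (x : Ω) ∈ E → (σ (ev φ x) : Ω) = x := fun σ φ x hx => by
    have : ev φ x = algebraMap E M ⟨x, hx⟩ := Subtype.ext (φ.2 x hx)
    rw [this, σ.commutes]
    rfl
  let _ : MulAction (M ≃ₐ[E] M) (Emb E X) :=
    { smul σ φ := ⟨⟨(algebraMap M Ω).comp ((σ : M →+* M).comp (ev φ)),
        fun a => hev σ φ _ (E.algebraMap_mem a)⟩, hev σ φ⟩
      one_smul φ := rfl
      mul_smul σ τ φ := rfl }
  let w := v.comap (algebraMap M Ω)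
  let S : Sylow 2 (dec w (M ≃ₐ[E] M)) := default
  have fx : ∀ c : M, (∀ σ : M ≃ₐ[E] M, σ • c = c) → (c : Ω) ∈ E := fun c hc => by
    obtain ⟨d, rfl⟩ := (IsGalois.mem_bot_iff_fixed c).2 hc
    exact d.2
  refine ⟨fin, fun φ => (MulAction.stabilizer S φ).index, fun φ u u0 => ?_, fun F F1 F2 =>
    orbit_sum (P := S) F E2 (fun σ φ => F1 _ _ fun x => σ.1.2 (ev φ x)) F2⟩
  have st : ∀ x, ∀ τ ∈ MulAction.stabilizer S φ, τ • ev φ x = ev φ x := fun x τ hτ =>
    Subtype.ext (DFunLike.congr_fun (congrArg Subtype.val hτ) x)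
  have := sylow_int w (fun x => lg x) (fun x y x0 y0 => hm x y (by simpa using x0) (by simpa using y0))
    (fun x y => hl x y) (θ := ⟨θ, le_normalClosure _ (subset_adjoin _ _ (Set.mem_insert _ _))⟩)
    (s := algebraMap E M ⟨s, sE⟩) (Subtype.ext hθ) (fun σ => σ.commutes _) vs vd
    (fun c c0 hc => h1 c (fx c hc) (by simpa using c0)) (fun c hc => h2 c (fx c hc)) S
    (MulAction.stabilizer S φ) (fun i => ev φ (u i)) (fun i => (_root_.map_ne_zero _).2 (u0 i))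
    fun i => st _
  exact ⟨this.1, fun a => this.2 (ev φ a) (st a)⟩

end Pool.Agent.MP_2023ef_al.H5
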