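import Pool.Agent.MP_2023ef_al.h5.Tow
import Pool.Agent.MP_2023ef_al.h5.Emb

/-! The bottom of the tower: the embeddings of `F(T)` over `F(T + 1 / r(T))`. -/

namespace Pool.Agent.MP_2023ef_al.H5

open Sum Set Polynomial IntermediateField

variable {k Ω J : Type*} [Field k] [Field Ω] [Algebra k Ω]

theorem aev_mem {F C : IntermediateField k Ω} (h : F ≤ C) {x : Ω} (hx : x ∈ C) (p : F[X]) :
    aeval x p ∈ C := by
  have := (extendScalars h).aeval_coe ⟨x, hx⟩ p
  exact this ▸ (aeval (⟨x, hx⟩ : extendScalars h) p).2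

theorem Emb.aev {F E C : IntermediateField k Ω} (h : F ≤ E) (h' : E ≤ C) (φ : Emb E C) {x : Ω}
    (hx : x ∈ C) (p : F[X]) : φ.1 ⟨_, aev_mem (h.trans h') hx p⟩ = aeval (φ.1 ⟨x, hx⟩) p := by
  let ψ : Emb F C := ⟨φ.1, fun y hy => φ.2 y (h hy)⟩
  refine Eq.trans ?_ (aeval_algHom_apply (ψ.hom (h.trans h')) ⟨x, hx⟩ p).symm
  exact congrArg φ.1 (Subtype.ext ((extendScalars (h.trans h')).aeval_coe ⟨x, hx⟩ p))

theorem sep_of {S : Type*} [Field S] [Algebra S Ω] {p : Polynomial Ω} (hp : p ∈ lifts (algebraMap S Ω))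
    {x : Ω} (h0 : p.eval x = 0) (h1 : p.derivative.eval x ≠ 0) : IsSeparable S x := by
  obtain ⟨q, rfl⟩ := (mem_lifts p).1 hp
  rw [derivative_map, eval_map_algebraMap] at h1
  rw [eval_map_algebraMap] at h0
  have hi : IsIntegral S x := IsAlgebraic.isIntegral ⟨q, by rintro rfl; simp at h1, h0⟩
  refine (separable_iff_derivative_ne_zero (minpoly.irreducible hi)).2 fun e => h1 ?_
  obtain ⟨c, rfl⟩ := minpoly.dvd S x h0
  simp [e]

variable (s : k) (e : Bool ⊕ J → Ω) (a b : J → MvPolynomial (Bool ⊕ J) k) (U : Finset J)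

/-- The field of constants `F = k(ε, τ)`. -/
noncomputable def FF : IntermediateField k Ω :=
  adjoin k (fam (e (inl false))⁻¹ (e (inl true)) (tau s e a b) '' (sU U \ {inl true}))

variable {s e a b U}

/-- The function `w = T + 1 / r(T)`. -/
noncomputable def wr (r : (FF s e a b U)[X]) : Ω := e (inl true) + (aeval (e (inl true)) r)⁻¹

/-- The field `F(w)`. -/
noncomputable def EE (r : (FF s e a b U)[X]) : IntermediateField k Ω :=
  adjoin k (fam (e (inl false))⁻¹ (wr r) (tau s e a b) '' sU U)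

/-- The polynomial `(X - w) r + 1`. -/
noncomputable def pr (r : (FF s e a b U)[X]) : Polynomial Ω := (X - C (wr r)) * r.map (algebraMap _ Ω) + 1

omit [Field Ω] in
theorem img_eq (p q q' : Ω) (γ : J → Ω) :
    fam p q γ '' (sU (U : Set J) \ {inl true}) = fam p q' γ '' (sU U \ {inl true}) :=
  image_congr fun i hi => by
    rcases i with (_ | _) | j
    exacts [rfl, absurd rfl hi.2, rfl]

theorem FF_le {C : IntermediateField k Ω} (h0 : e (inl false) ∈ C)
    (h : ∀ j ∈ U, tau s e a b j ∈ C) : FF s e a b U ≤ C := adjoin_le_iff.2 (by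
  rintro _ ⟨(_ | _) | j, hi, rfl⟩
  exacts [inv_mem h0, absurd rfl hi.2, h j (inr_mem.1 hi.1)])

theorem eps_mem : e (inl false) ∈ FF s e a b U :=
  inv_mem_iff.1 (subset_adjoin _ _ ⟨inl false, ⟨inl_mem _ _, by simp⟩, rfl⟩)

theorem tau_mem_FF {j : J} (hj : j ∈ U) : tau s e a b j ∈ FF s e a b U :=
  subset_adjoin _ _ ⟨inr j, ⟨inr_mem.2 hj, by simp⟩, rfl⟩

theorem FF_le_EE (r : (FF s e a b U)[X]) : FF s e a b U ≤ EE r :=
  adjoin.mono _ _ _ ((img_eq _ _ _ _).trans_subset (image_mono sdiff_subset))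

theorem wr_mem (r : (FF s e a b U)[X]) : wr r ∈ EE r := subset_adjoin _ _ ⟨_, inl_mem _ true, rfl⟩

theorem EE_le {C : IntermediateField k Ω} (h : FF s e a b U ≤ C) {r : (FF s e a b U)[X]}
    (hw : wr r ∈ C) : EE r ≤ C := adjoin_le_iff.2 (by
  rintro _ ⟨i, hi, rfl⟩
  exact forall_sU (p := fun i => fam _ _ _ i ∈ C) (inv_mem (h eps_mem)) hw
    (fun j hj => h (tau_mem_FF hj)) i hi)

theorem EE_le_XS {S : Finset J} (hS : S ⊆ U) (hc : Closed a b (S : Set J))
    (r : (FF s e a b U)[X]) : EE r ≤ XS s e a b U S :=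
  have h := FF_le (e_mem hS _ (inl_mem _ false)) fun _ hj => tau_mem_XS hS hc hj
  have t := e_mem hS _ (inl_mem _ true)
  EE_le h (add_mem t (inv_mem (aev_mem h t r)))

theorem closed_empty : Closed a b ((∅ : Finset J) : Set J) := fun _ h => by simp at h

theorem trans_of {p q : Ω} {γ : J → Ω} (h : AlgebraicIndepOn k (fam p q γ) (sU U)) :
    Transcendental (adjoin k (fam p q γ '' (sU (U : Set J) \ {inl true}))) q := by
  rw [← insert_sdiff_self_of_mem (inl_mem (U : Set J) true)] at h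
  exact transcendental_adjoin_iff.2 ((AlgebraicIndepOn.insert_iff (by simp)).1 h).2

theorem pr_eval (r : (FF s e a b U)[X]) (t : Ω) :
    (pr r).eval t = (t - wr r) * aeval t r + 1 := by simp [pr]

theorem pr_lifts (r : (FF s e a b U)[X]) : pr r ∈ lifts (algebraMap (EE r) Ω) := by
  refine add_mem (mul_mem ?_ ?_) (one_mem _)
  · rw [sub_eq_add_neg, ← C_neg]
    exact add_mem (X_mem_lifts _) (C'_mem_lifts ⟨⟨_, neg_mem (wr_mem r)⟩, rfl⟩)
  · exact (mem_lifts _).2 ⟨r.map (IntermediateField.inclusion (FF_le_EE r)).toRingHom, by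
      rw [Polynomial.map_map]; rfl⟩

theorem pr_monic {r : (FF s e a b U)[X]} (hr : r.Monic) : (pr r).Monic := by
  refine ((monic_X_sub_C _).mul (hr.map _)).add_of_left ?_
  rw [degree_mul, degree_X_sub_C, degree_one, degree_eq_natDegree (hr.map _).ne_zero]
  exact_mod_cast Nat.add_pos_left one_pos _

variable {rk : J → ℕ} (H : Ctx s e a b rk U) {r : (FF s e a b U)[X]} (hr : r.Monic)
include H

theorem Ctx.trT : Transcendental (FF s e a b U) (e (inl true)) :=
  trans_of (H.fam_ind (inv_mem_iff.1 (subset_cl ⟨_, inl_mem _ false, rfl⟩))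
    (subset_cl ⟨_, inl_mem _ true, rfl⟩) fun _ _ => Or.inr (Or.inl rfl)).1

include hr

theorem Ctx.rootT : (pr r).eval (e (inl true)) = 0 := by
  have : aeval (e (inl true)) r ≠ 0 := fun h => H.trT ⟨r, hr.ne_zero, h⟩
  rw [pr_eval, wr]
  field_simp
  ring

theorem Ctx.indE : AlgebraicIndepOn k (fam (e (inl false))⁻¹ (wr r) (tau s e a b)) (sU U) ∧
    ∀ x, x ∈ cl k (fam (e (inl false))⁻¹ (wr r) (tau s e a b) '' sU U) := by
  refine H.fam_ind (inv_mem_iff.1 (subset_cl ⟨_, inl_mem _ false, rfl⟩)) (mem_cl.2 ?_)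
    fun _ _ => Or.inr (Or.inl rfl)
  refine alg_of_coeff (EE r) _ (pr_monic hr).ne_zero (fun n => ?_) (H.rootT hr)
  obtain ⟨c, hc⟩ := (lifts_iff_coeff_lifts _).1 (pr_lifts r) n
  exact hc ▸ c.2

theorem Ctx.root {t : Ω} (ht : (pr r).eval t = 0) : wr r = t + (aeval t r)⁻¹ ∧
    Transcendental (FF s e a b U) t ∧ (pr r).derivative.eval t ≠ 0 := by
  rw [pr_eval] at ht
  have r0 : aeval t r ≠ 0 := fun h => by simp [h] at ht
  have h1 : wr r = t + (aeval t r)⁻¹ := by field_simp; linear_combination -ht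
  have h2 : Transcendental (FF s e a b U) t := fun h => by
    have := trans_of (H.indE hr).1
    rw [← img_eq _ (e (inl true))] at this
    have h := mem_algebraicClosure_iff.2 h
    have m := (algebraicClosure (FF s e a b U) Ω).aeval_coe ⟨t, h⟩ r
    exact this (mem_algebraicClosure_iff.1 (h1 ▸ add_mem h (inv_mem (m ▸ Subtype.prop _))))
  refine ⟨h1, h2, fun h => h2 ⟨r ^ 2 - derivative r, fun h0 => ?_, ?_⟩⟩
  · have h3 := natDegree_derivative_le r
    rw [← sub_eq_zero.1 h0, hr.natDegree_pow] at h3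
    rw [hr.natDegree_eq_zero.1 (by omega : r.natDegree = 0)] at h0
    simp at h0
  · simp only [pr, derivative_add, derivative_mul, derivative_sub, derivative_X, derivative_C,
      derivative_one, derivative_map, eval_add, eval_mul, eval_sub, eval_map_algebraMap, eval_one,
      eval_zero, eval_X, eval_C] at h
    rw [map_sub, map_pow]
    linear_combination aeval t r * h - aeval t (derivative r) * ht

theorem Ctx.sepE : ∀ i ∈ sU (U : Set J), IsSeparable (EE r) (e i) := by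
  let C := (separableClosure (EE r) Ω).restrictScalars k
  have hE : EE r ≤ C := fun x hx => (separableClosure (EE r) Ω).algebraMap_mem ⟨x, hx⟩
  have h0 : e (inl false) ∈ C := hE (FF_le_EE r eps_mem)
  have h1 : e (inl true) ∈ C :=
    sep_of (pr_lifts r) (H.rootT hr) (H.root hr (H.rootT hr)).2.2
  refine forall_sU h0 h1 (rank_ind H.pa H.clo fun j hj V hV h ha hb => ?_)
  have hV' := forall_sU (p := fun i => e i ∈ C) h0 h1 fun l hl => (h l hl).1
  have ma := chi_mem' s C hV' ha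
  have mb := neg_mem (mul_mem (hE (FF_le_EE r (tau_mem_FF hj))) (Nf_mem (s := s) C ma
    (chi_mem' s C hV' hb)))
  refine IsSeparable.of_algebra_isSeparable_of_isSeparable (E := separableClosure (EE r) Ω) _
    (sep_of (add_mem (add_mem (pow_mem (X_mem_lifts _) 2) (mul_mem (C'_mem_lifts ⟨⟨_, ma⟩, rfl⟩)
      (X_mem_lifts _))) (C'_mem_lifts ⟨⟨_, mb⟩, rfl⟩)) ?_ ?_)
  · simp only [eval_add, eval_mul, eval_pow, eval_X, eval_C, IntermediateField.algebraMap_apply]
    linear_combination H.tau_mul hj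
  · simpa [one_add_one_eq_two] using H.two_g hj

theorem Ctx.base [IsAlgClosed Ω] [Finite (Emb (EE r) (XS s e a b U ∅))] (G : Ω → ℚ)
    (hG : ∀ x y, x ≠ 0 → y ≠ 0 → G (x * y) = G x + G y) {c : Ω} (hc : (pr r).eval c ≠ 0) :
    ∑ᶠ ψ : Emb (EE r) (XS s e a b U ∅), G (c - ψ.1 ⟨_, gen_mem ∅ (inl_mem _ true)⟩) =
      G ((pr r).eval c) := by
  classical
  have le := EE_le_XS U.empty_subset closed_empty r
  have mT : e (inl true) ∈ XS s e a b U ∅ := gen_mem ∅ (inl_mem _ true)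
  have hw : ∀ φ : XS s e a b U ∅ →ₐ[k] Ω, (∀ x : XS s e a b U ∅, x.1 ∈ FF s e a b U → φ x = x) →
      φ ⟨_, le (wr_mem r)⟩ = φ ⟨_, mT⟩ + (aeval (φ ⟨_, mT⟩) r)⁻¹ := fun φ h => by
    rw [← Emb.aev le_rfl ((FF_le_EE r).trans le) ⟨φ, h⟩ mT r, ← map_inv₀, ← map_add]
    rfl
  have p0 := (pr_monic hr).ne_zero
  have := Fintype.ofFinite (Emb (EE r) (XS s e a b U ∅))
  have key : (pr r).roots = Finset.univ.val.map
      fun ψ : Emb (EE r) (XS s e a b U ∅) => ψ.1 ⟨_, mT⟩ := by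
    refine (Multiset.Nodup.ext ?_ (Finset.univ.nodup.map fun φ ψ h => ?_)).2 fun t => ?_
    · refine Multiset.nodup_iff_count_le_one.2 fun t => ?_
      rw [count_roots, ← not_lt, one_lt_rootMultiplicity_iff_isRoot p0]
      exact fun h => (H.root hr h.1).2.2 h.2
    · refine Subtype.ext (adjoin_algHom_ext k ?_)
      rintro _ ⟨i, hi, rfl⟩
      refine forall_sU (p := fun i => ∀ h, φ.1 ⟨fam (e (inl false)) (e (inl true))
        (gam s e a b ∅) i, h⟩ = ψ.1 ⟨_, h⟩) (fun _ => ?_) (fun _ => h) (fun j hj _ => ?_) i hi _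
      · exact (φ.2 _ (FF_le_EE r eps_mem)).trans (ψ.2 _ (FF_le_EE r eps_mem)).symm
      · have : gam s e a b ∅ j ∈ EE r := by simpa [gam] using FF_le_EE r (tau_mem_FF hj)
        exact (φ.2 _ this).trans (ψ.2 _ this).symm
    rw [mem_roots p0, Multiset.mem_map]
    refine ⟨fun ht => ?_, ?_⟩
    · obtain ⟨h1, -⟩ := H.root hr ht
      have g0 : ∀ j, gam s e a b ∅ j = tau s e a b j := fun j => by simp [gam]
      have m : ∀ i ∈ sU (U : Set J), fam (e (inl false)) t (gam s e a b ∅) i ∈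
          cl k (fam (e (inl false)) t (gam s e a b ∅) '' sU U) := fun i hi => subset_cl ⟨i, hi, rfl⟩
      have hF := FF_le (s := s) (e := e) (a := a) (b := b) (U := U) (m _ (inl_mem _ false)) fun j hj => by
        rw [← g0]; exact m _ (inr_mem.2 hj)
      obtain ⟨φ, hφ⟩ : ∃ φ : XS s e a b U ∅ →ₐ[k] Ω, ∀ i ∈ sU (U : Set J), ∀ h,
          φ ⟨fam (e (inl false)) (e (inl true)) (gam s e a b ∅) i, h⟩ =
            fam (e (inl false)) t (gam s e a b ∅) i :=
        exists_hom (H.fam_ind (subset_cl ⟨_, inl_mem _ false, rfl⟩)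
          (subset_cl ⟨_, inl_mem _ true, rfl⟩) fun j _ => Or.inr (Or.inl (g0 j))).1
          (count_on (sU_finite U.finite_toSet) (H.indE hr).1 fun i hi => EE_le hF
            (h1 ▸ add_mem (m _ (inl_mem _ true)) (inv_mem (aev_mem hF (m _ (inl_mem _ true)) r)))
            (subset_adjoin _ _ ⟨i, hi, rfl⟩))
      have f1 : FF s e a b U ≤ fixF φ := FF_le
        (mem_fixF.2 ⟨_, hφ _ (inl_mem _ false) (gen_mem ∅ (inl_mem _ false))⟩)
        fun j hj => g0 j ▸ mem_fixF.2 ⟨_, hφ _ (inr_mem.2 hj) (gen_mem ∅ (inr_mem.2 hj))⟩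
      have φT : φ ⟨_, mT⟩ = t := hφ _ (inl_mem _ true) mT
      have f2 : EE r ≤ fixF φ := EE_le f1 (mem_fixF.2 ⟨le (wr_mem r), by
        rw [hw φ fun x hx => (mem_fixF.1 (f1 hx)).2, φT, h1]⟩)
      exact ⟨⟨φ, fun x hx => (mem_fixF.1 (f2 hx)).2⟩, Finset.mem_univ _, φT⟩
    · rintro ⟨ψ, -, rfl⟩
      have h1 := hw ψ.1 fun x hx => ψ.2 x (FF_le_EE r hx)
      have h2 : aeval (ψ.1 ⟨_, mT⟩) r ≠ 0 := by
        rw [← Emb.aev (FF_le_EE r) le ψ mT r, _root_.map_ne_zero]
        exact fun h => H.trT ⟨r, hr.ne_zero, congrArg Subtype.val h⟩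
      rw [ψ.2 _ (wr_mem r)] at h1
      rw [IsRoot, pr_eval, show wr r = _ from h1]
      field_simp
      ring
  have h3 := (IsAlgClosed.splits (pr r)).eval_eq_prod_roots_of_monic (pr_monic hr) c
  rw [key, Multiset.map_map] at h3
  rw [h3] at hc ⊢
  rw [finsum_eq_sum_of_fintype]
  have := lg_prod (ι := Unit) (fun x _ => G x) (fun x y x0 y0 => funext fun _ => hG x y x0 y0)
    Finset.univ _ (Finset.prod_ne_zero_iff.1 hc)
  simpa using (congrFun this ()).symm

end Pool.Agent.MP_2023ef_al.H5
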