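import Mathlib

/-! Determinants of vectors of values: multilinear reductions and the ring of rationals with odd
denominator. -/

namespace Pool.Agent.MP_2023ef_al.H5

open Function

/-- The rationals with odd denominator. -/
def Z2 : Subring ℚ where
  carrier := {q | ∃ m n : ℤ, Odd m ∧ (m : ℚ) * q = n}
  zero_mem' := ⟨1, 0, odd_one, by simp⟩
  one_mem' := ⟨1, 1, odd_one, by simp⟩
  add_mem' := by
    rintro a b ⟨m, n, h, e⟩ ⟨m', n', h', e'⟩
    exact ⟨m * m', n * m' + n' * m, h.mul h', by push_cast; rw [← e, ← e']; ring⟩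
  mul_mem' := by
    rintro a b ⟨m, n, h, e⟩ ⟨m', n', h', e'⟩
    exact ⟨m * m', n * n', h.mul h', by push_cast; rw [← e, ← e']; ring⟩
  neg_mem' := by
    rintro a ⟨m, n, h, e⟩
    exact ⟨m, -n, h, by push_cast; rw [← e]; ring⟩

/-- Twice the rationals with odd denominator. -/
def E2 : AddSubgroup ℚ where
  carrier := {q | ∃ r ∈ Z2, q = 2 * r}
  zero_mem' := ⟨0, Z2.zero_mem, by simp⟩
  add_mem' := by
    rintro a b ⟨r, h, rfl⟩ ⟨r', h', rfl⟩
    exact ⟨r + r', Z2.add_mem h h', by ring⟩
  neg_mem' := by
    rintro a ⟨r, h, rfl⟩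
    exact ⟨-r, Z2.neg_mem h, by ring⟩

theorem one_notMem_E2 : (1 : ℚ) ∉ E2 := by
  rintro ⟨r, ⟨m, n, h, e⟩, h1⟩
  have : (m : ℚ) = 2 * n := by rw [← e]; linear_combination (m : ℚ) * h1
  have h2 : m = 2 * n := by exact_mod_cast this
  rcases h with ⟨l, hl⟩
  omega

section
variable {ι M A : Type*} [DecidableEq ι] [Fintype ι] [AddCommGroup A]

theorem multi_ind [CommGroup M] (Λ : (ι → M) → A) (B : AddSubgroup A)
    (hm : ∀ u j x y, Λ (update u j (x * y)) = Λ (update u j x) + Λ (update u j y)) (S : Set M)
    (h : ∀ u, (∀ j, u j ∈ S) → Λ u ∈ B) (u : ι → M) (hu : ∀ j, u j ∈ Subgroup.closure S) :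
    Λ u ∈ B := by
  have h1 : ∀ u j, Λ (update u j 1) = 0 := fun u j => by
    have := hm u j 1 1
    rw [mul_one] at this
    exact left_eq_add.1 this
  have key : ∀ s : Finset ι, ∀ u : ι → M, (∀ j ∈ s, u j ∈ Subgroup.closure S) →
      (∀ j ∉ s, u j ∈ S) → Λ u ∈ B := by
    intro s
    induction s using Finset.induction_on with
    | empty => exact fun u _ h2 => h u fun j => h2 j (by simp)
    | insert i s hi ih =>
      intro u hs hn
      have : ∀ x ∈ Subgroup.closure S, Λ (update u i x) ∈ B := by
        intro x hx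
        induction hx using Subgroup.closure_induction with
        | mem x hx =>
          refine ih _ (fun j hj => ?_) fun j hj => ?_
          · rw [update_of_ne (by rintro rfl; exact hi hj)]
            exact hs j (by simp [hj])
          · by_cases e : j = i
            · subst e; simpa using hx
            · rw [update_of_ne e]; exact hn j (by simp [e, hj])
        | one => rw [h1]; exact B.zero_mem
        | mul x y _ _ hx hy => rw [hm]; exact B.add_mem hx hy
        | inv x _ hx =>
          have := hm u i x x⁻¹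
          rw [mul_inv_cancel, h1] at this
          rw [eq_neg_of_add_eq_zero_right this.symm]
          exact B.neg_mem hx
      simpa using this (u i) (hs i (by simp))
  exact key Finset.univ u (fun j _ => hu j) fun j hj => absurd (Finset.mem_univ j) hj

theorem bt (Λ : (ι → M) → A) (B : AddSubgroup A) (C L : Set M)
    (h1 : ∀ u, (∀ i, u i ∈ C) → Λ u ∈ B)
    (h2 : ∀ u j, u j ∈ L → (∀ i, i ≠ j → u i ∈ C) → Λ u ∈ B)
    (h3 : ∀ u i j, i ≠ j → u i ∈ L → u j ∈ L →
      Λ u ∈ B ∨ ∃ c ∈ C, Λ u = Λ (update u i c) + Λ (update u j c))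
    (u : ι → M) (hu : ∀ i, u i ∈ C ∪ L) : Λ u ∈ B := by
  classical
  induction hn : (Finset.univ.filter fun i => u i ∉ C).card using Nat.strong_induction_on
    generalizing u with
  | _ n ih =>
  by_cases a1 : ∀ i, u i ∈ C
  · exact h1 u a1
  obtain ⟨j, hj⟩ := not_forall.1 a1
  by_cases a2 : ∀ i, i ≠ j → u i ∈ C
  · exact h2 u j ((hu j).resolve_left hj) a2
  obtain ⟨i, hi⟩ := not_forall.1 a2
  obtain ⟨hij, hi⟩ := Classical.not_imp.1 hi
  rcases h3 u i j hij ((hu i).resolve_left hi) ((hu j).resolve_left hj) with h | ⟨c, hc, h⟩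
  · exact h
  have key : ∀ l, u l ∉ C → Λ (update u l c) ∈ B := by
    intro l hl
    refine ih _ ?_ _ (fun i => ?_) rfl
    · rw [← hn]
      refine Finset.card_lt_card ⟨fun i => ?_, fun h => ?_⟩
      · by_cases e : i = l
        · subst e; simp [hl]
        · simp [update_of_ne e]
      · simpa [hc] using h (by simpa using hl : l ∈ _)
    · by_cases e : i = l
      · subst e; simp [hc]
      · rw [update_of_ne e]; exact hu i
  rw [h]
  exact B.add_mem (key i hi) (key j hj)

/-- The determinant of a family of vectors. -/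
noncomputable abbrev dt (a : ι → ι → ℚ) : ℚ := Matrix.detRowAlternating a

theorem dt_add (a : ι → ι → ℚ) (j : ι) (x y : ι → ℚ) :
    dt (update a j (x + y)) = dt (update a j x) + dt (update a j y) :=
  AlternatingMap.map_update_add _ a j x y

theorem dt_smul (a : ι → ι → ℚ) (j : ι) (c : ℚ) (x : ι → ℚ) :
    dt (update a j (c • x)) = c * dt (update a j x) :=
  AlternatingMap.map_update_smul _ a j c x

theorem dt_alt (a : ι → ι → ℚ) {i j : ι} (h : i ≠ j) (e : a i = a j) : dt a = 0 :=
  AlternatingMap.map_eq_zero_of_eq _ a e h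

theorem dt_tri (a : ι → ι → ℚ) {i j : ι} (h : i ≠ j) (c : ι → ℚ)
    (e : a i = a j ∨ a i = c ∨ a j = c) : dt a = dt (update a i c) + dt (update a j c) := by
  rcases e with e | e | e
  · have h0 : ∀ x, dt (update (update a i x) j x) = 0 := fun x =>
      dt_alt _ h (by simp [update_of_ne h])
    have h1 : ∀ x y z, dt (update (update a i (x + y)) j z) =
        dt (update (update a i x) j z) + dt (update (update a i y) j z) := fun x y z => by
      simp only [update_comm h, dt_add]
    have h2 := h0 (a i + c)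
    have h3 : update (update a i c) j (a i) = update a i c := by
      rw [update_comm h, e, update_eq_self]
    rw [dt_add, h1, h1, h0, h0, h3, update_eq_self] at h2
    have := dt_alt a h e
    linarith
  · rw [← e, update_eq_self, dt_alt (update a j (a i)) h (by simp [update_of_ne h]), add_zero]
  · rw [← e, update_eq_self, dt_alt (update a i (a j)) h (by simp [update_of_ne h.symm]), zero_add]

theorem dt_col (a : ι → ι → ℚ) (i : ι) (h : ∀ j, a j i = 0) : dt a = 0 :=
  Matrix.det_eq_zero_of_column_eq_zero (A := Matrix.of a) i h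

theorem dt_mem (a : ι → ι → ℚ) (h : ∀ i j, a i j ∈ Z2) : dt a ∈ Z2 := by
  show (Matrix.of a).det ∈ Z2
  rw [Matrix.det_apply']
  exact Z2.sum_mem fun σ _ => Z2.mul_mem (intCast_mem _ _) (Z2.prod_mem fun i _ => h _ _)

/-- Two families with the same rows outside `i`, whose column `i` vanishes outside `i` and which
agree at `(i, i)`, have the same determinant. -/
theorem dt_same (a : ι → ι → ℚ) (i : ι) (x y : ι → ℚ) (h : ∀ j, j ≠ i → a j i = 0)
    (e : x i = y i) : dt (update a i x) = dt (update a i y) := by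
  have : x = y + (x - y) := by ring
  rw [this, dt_add, dt_col (update a i (x - y)) i, add_zero]
  intro j
  by_cases hj : j = i
  · subst hj; simp [e]
  · rw [update_of_ne hj, h j hj]

end

end Pool.Agent.MP_2023ef_al.H5
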