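import Pool.Agent.MP_2023ef_al.h5.RSpec

/-! Diagonalisable matrices, the case of dimension one, and the bound for the dimension. -/

namespace Pool.Agent.MP_2023ef_al.H5

universe u

namespace DimA

variable {A : Type*} [CommRing A]

theorem not_le {a b c d : A} (h : Ideal.span {a, b, c, d} = ⊤) {P : Ideal A} (hP : P ≠ ⊤)
    (ha : a ∈ P) (hb : b ∈ P) (hc : c ∈ P) (hd : d ∈ P) : False := by
  refine hP (top_le_iff.1 (h ▸ Ideal.span_le.2 ?_))
  rintro _ (rfl | rfl | rfl | rfl) <;> assumption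

theorem reg [IsDomain A] (h : ringKrullDim A ≤ 1) {d : A} (hd : d ≠ 0) (b : A) :
    ∃ (n : ℕ) (r : A), b ^ n * (1 - r * b) ∈ Ideal.span {d} := by
  let S : Submonoid A :=
    { carrier := {z | ∃ (n : ℕ) (r : A), b ^ n * (1 - r * b) = z}
      one_mem' := ⟨0, 0, by simp⟩
      mul_mem' := by
        rintro _ _ ⟨n, r, rfl⟩ ⟨m, s, rfl⟩
        exact ⟨n + m, r + s - r * s * b, by ring⟩ }
  by_contra hn
  obtain ⟨P, h1, h2, h3⟩ := (Ideal.span {d}).exists_le_prime_disjoint S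
    (Set.disjoint_left.2 fun z hz ⟨n, r, e⟩ => hn ⟨n, r, e ▸ hz⟩)
  have h4 := Ring.krullDimLE_one_iff_of_noZeroDivisors.1 (Ring.krullDimLE_iff.2 (by simpa using h))
    P (fun e => hd (by simpa [e] using h2 (Ideal.mem_span_singleton_self d))) h1
  obtain ⟨r, i, hi, e⟩ := h4.exists_inv (x := b) fun hb =>
    Set.disjoint_left.1 h3 hb ⟨1, 0, by simp⟩
  exact Set.disjoint_left.1 h3 hi ⟨0, r, by rw [← e]; ring⟩

end DimA

theorem diag_stmt : DIAG.{u} := by
  rintro A _ M _ _ h ⟨C, rfl⟩ ⟨D, rfl⟩ hd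
  generalize hE : (C : Matrix (Fin 2) (Fin 2) A) * M * (D : Matrix (Fin 2) (Fin 2) A) = E at hd
  have e1 : E 0 1 = 0 := hd (by decide)
  have e2 : E 1 0 = 0 := hd (by decide)
  have hM : M = (C⁻¹ : (Matrix (Fin 2) (Fin 2) A)ˣ) * E * (D⁻¹ : (Matrix (Fin 2) (Fin 2) A)ˣ) := by
    rw [← hE, ← mul_assoc, ← mul_assoc, Units.inv_mul, one_mul, Units.mul_inv_cancel_right]
  have hm : ∀ i j, M i j ∈ Ideal.span {E 0 0, E 1 1} := fun i j => by
    rw [hM]
    generalize ((C⁻¹ : (Matrix (Fin 2) (Fin 2) A)ˣ) : Matrix (Fin 2) (Fin 2) A) = C'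
    generalize ((D⁻¹ : (Matrix (Fin 2) (Fin 2) A)ˣ) : Matrix (Fin 2) (Fin 2) A) = D'
    refine Ideal.mem_span_pair.2 ⟨C' i 0 * D' 0 j, C' i 1 * D' 1 j, ?_⟩
    simp only [Matrix.mul_apply, Fin.sum_univ_two, e1, e2]
    ring
  obtain ⟨α, β, e⟩ := Ideal.mem_span_pair.1 ((Ideal.eq_top_iff_one _).1
    (by_contra fun k => DimA.not_le h k (hm 0 0) (hm 0 1) (hm 1 0) (hm 1 1)))
  refine ⟨(D : Matrix (Fin 2) (Fin 2) A).mulVec ![1, 1],
    Matrix.vecMul ![α, β] (C : Matrix (Fin 2) (Fin 2) A), ?_⟩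
  rw [← Matrix.dotProduct_mulVec, Matrix.mulVec_mulVec, Matrix.mulVec_mulVec, hE]
  simpa [Matrix.mulVec, dotProduct, Fin.sum_univ_two, e1, e2] using e

theorem low_stmt : LOW.{u} := by
  intro A _ _ _ M h hd hM
  obtain ⟨b, hb⟩ := IsBezout.span_pair_isPrincipal (M 0 0) (M 1 0)
  change _ = Ideal.span {b} at hb
  obtain ⟨n, r, hr⟩ := DimA.reg h hd b
  generalize hl : 1 - r * b = l at hr
  have key : Ideal.span {M 0 0 + M 0 1 * l, M 1 0 + M 1 1 * l} = ⊤ := by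
    by_contra k
    obtain ⟨P, hP, h1⟩ := Ideal.exists_le_maximal _ k
    have v0 : M 0 0 + M 0 1 * l ∈ P := h1 (Ideal.subset_span (by simp))
    have v1 : M 1 0 + M 1 1 * l ∈ P := h1 (Ideal.subset_span (by simp))
    have d0 : M.det ∈ P := by
      have := P.sub_mem (P.mul_mem_right (M 1 1) v0) (P.mul_mem_right (M 0 1) v1)
      rwa [show (M 0 0 + M 0 1 * l) * M 1 1 - (M 1 0 + M 1 1 * l) * M 0 1 = M.det by
        rw [Matrix.det_fin_two]; ring] at this
    have b0 : b ∈ P := by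
      rcases hP.isPrime.mem_or_mem ((Ideal.span_singleton_le_iff_mem P).2 d0 hr) with q | q
      · exact hP.isPrime.mem_of_pow_mem n q
      · refine (Ideal.span_singleton_le_iff_mem P).1 (hb ▸ Ideal.span_le.2 ?_)
        rintro _ (rfl | rfl)
        · exact (P.add_mem_iff_left (P.mul_mem_left _ q)).1 v0
        · exact (P.add_mem_iff_left (P.mul_mem_left _ q)).1 v1
    have h2 : Ideal.span {M 0 0, M 1 0} ≤ P := hb ▸ (Ideal.span_singleton_le_iff_mem P).2 b0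
    have c0 : M 0 0 ∈ P := h2 (Ideal.subset_span (by simp))
    have c1 : M 1 0 ∈ P := h2 (Ideal.subset_span (by simp))
    have l0 : l ∉ P := fun q => hP.ne_top ((Ideal.eq_top_iff_one _).2 (by
      have := P.add_mem q (P.mul_mem_left r b0)
      rwa [← hl, sub_add_cancel] at this))
    exact DimA.not_le hM hP.ne_top c0
      ((hP.isPrime.mem_or_mem ((P.add_mem_iff_right c0).1 v0)).resolve_right l0) c1
      ((hP.isPrime.mem_or_mem ((P.add_mem_iff_right c1).1 v1)).resolve_right l0)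
  obtain ⟨s, t, e⟩ := Ideal.mem_span_pair.1 ((Ideal.eq_top_iff_one _).1 key)
  refine ⟨![1, l], ![s, t], ?_⟩
  simpa [Matrix.mulVec, dotProduct, Fin.sum_univ_two] using e

theorem dim_stmt : DIM.{u} := by
  intro L K _ _ _ A x y h
  refine iSup_le fun p => ?_
  by_contra k
  have k3 : 3 ≤ p.length := by
    by_contra q
    exact k (by exact_mod_cast Nat.le_of_lt_succ (not_le.1 q))
  have st : ∀ i : ℕ, ∀ hi : i + 1 < p.length + 1, ∃ w ∈ (p ⟨i + 1, hi⟩).asIdeal,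
      w ∉ (p ⟨i, by omega⟩).asIdeal := fun i hi =>
    SetLike.exists_of_lt (p.strictMono (show (⟨i, by omega⟩ : Fin _) < ⟨i + 1, hi⟩ from
      Nat.lt_succ_self i))
  have le : ∀ i : ℕ, ∀ hi : i + 1 < p.length + 1,
      (p ⟨i, by omega⟩).asIdeal ≤ (p ⟨i + 1, hi⟩).asIdeal := fun i hi =>
    p.monotone (show (⟨i, by omega⟩ : Fin _) ≤ ⟨i + 1, hi⟩ from Nat.le_succ i)
  obtain ⟨a, a1, a2⟩ := st 0 (by omega)
  obtain ⟨b, b1, b2⟩ := st 1 (by omega)
  obtain ⟨c, c1, c2⟩ := st 2 (by omega)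
  have h0 : IndMod L (p ⟨3, by omega⟩).asIdeal (Empty.elim : Empty → A) := fun q hq => by
    rw [MvPolynomial.eq_C_of_isEmpty q] at hq ⊢
    rw [MvPolynomial.C_eq_zero]
    by_contra z
    exact (p ⟨3, by omega⟩).isPrime.ne_top (Ideal.eq_top_of_isUnit_mem _ hq
      (by rw [MvPolynomial.aeval_C]; exact (IsUnit.mk0 _ z).map _))
  have h1 := (((h0.option (PrimeSpectrum.isPrime _) (le 2 (by omega)) c1 c2).option
    (PrimeSpectrum.isPrime _) (le 1 (by omega)) b1 b2).option (PrimeSpectrum.isPrime _)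
    (le 0 (by omega)) a1 a2).indep.map' (f := A.val) Subtype.val_injective
  have := count_le h1 (x := ![x, y]) fun i => by
    rw [Matrix.range_cons_cons_empty]
    exact h _ (Subtype.prop _)
  simp at this

end Pool.Agent.MP_2023ef_al.H5
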