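import Pool.Agent.MP_2023ef_al.h5.Tow

/-! The statement at a finite level inside an algebraic closure. -/

namespace Pool.Agent.MP_2023ef_al.H5

open Sum

universe u

/-- The statement at a finite level, for an algebraically closed field that is algebraic over the
field at that level. -/
def FLC : Prop :=
  ∀ (k Ω J : Type u) [Field k] [Field Ω] [Algebra k Ω] [IsAlgClosed Ω] (s : k)
    (e : Bool ⊕ J → Ω) (a b : J → MvPolynomial (Bool ⊕ J) k) (rk : J → ℕ) (U : Finset J),
    Ctx s e a b rk U → ∀ δ δ' u u' : Ω, δ ∈ XU k e U → δ' ∈ XU k e U →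
    (∀ W, Good s e a b U W → δ ∈ W ∧ δ' ∈ W ∧ u ∈ W ∧ u' ∈ W) →
    u * ((1 + (1 + e (inl false)) * x0 s e) * δ + (1 + e (inl false)) * y0 s e * δ') +
      u' * (((1 + e (inl false)) * x0 s e + algebraMap k Ω s * ((1 + e (inl false)) * y0 s e)) * δ +
        (1 - (1 + e (inl false)) * x0 s e) * δ') ≠ 1

/-- The transfer to an arbitrary field. -/
def TRANS : Prop := FLC.{u} → FL.{u}

end Pool.Agent.MP_2023ef_al.H5
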