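import Pool.Agent.MP_2023ef_al.h5.Par
import Pool.Agent.MP_2023ef_al.h5.TSpec

/-! The contradiction at a finite level. -/

namespace Pool.Agent.MP_2023ef_al.H5

open Sum Set Polynomial IntermediateField Function WithZero

universe u

variable {k Ω J ι : Type*} [Field k] [Field Ω] [Algebra k Ω] [LinearOrder ι] [Fintype ι]
  {s : k} {e : Bool ⊕ J → Ω} {a b : J → MvPolynomial (Bool ⊕ J) k} {U : Finset J} {rk : J → ℕ}

theorem second_val (v : Valuation Ω (Gm ι)) {i j : ι} (h0 : ∀ l, i ≤ l) (h1 : ∀ l, l ≠ i → j ≤ l) :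
    ∃ w : Valuation Ω (WithZero (Multiplicative (Lex (ℚ × ℚ)))),
      (∀ x, x ≠ 0 → w x = exp (toLex (lg v x i, lg v x j))) ∧ ∀ x y, v x ≤ v y → w x ≤ w y :=
  coarse v (G := Lex (ℚ × ℚ)) ((Pi.evalAddMonoidHom _ i).prod (Pi.evalAddMonoidHom _ j))
    fun p q l => Prod.Lex.toLex_le_toLex.2 <| by
      rcases (Pi.apply_le_of_toLex l fun n hn => absurd (h0 n) hn.not_ge : p i ≤ q i).eq_or_lt
        with c | c
      · refine Or.inr ⟨c, Pi.apply_le_of_toLex l fun n hn => ?_⟩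
        rwa [by_contra fun d : n ≠ i => (h1 n d).not_gt hn]
      · exact Or.inl c

variable {ix : ι ≃ sU (U : Set J)} (H : Ctx s e a b rk U)
  (h0 : ∀ i, iT ix true ≤ i) (h1 : ∀ i, i ≠ iT ix true → iT ix false ≤ i)
  {δ δ' u u' : Ω} (hW : ∀ W, Good s e a b U W → δ ∈ W ∧ δ' ∈ W ∧ u ∈ W ∧ u' ∈ W)
  (h : u * ((1 + (1 + e (inl false)) * x0 s e) * δ + (1 + e (inl false)) * y0 s e * δ') +
    u' * (((1 + e (inl false)) * x0 s e + algebraMap k Ω s * ((1 + e (inl false)) * y0 s e)) * δ +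
      (1 - (1 + e (inl false)) * x0 s e) * δ') = 1)
include H h0 h1 hW h

theorem Ctx.ns {r : (FF s e a b U)[X]} {v : Valuation Ω (Gm ι)} (hr : r.Monic) (hv : VD ix r v)
    (hn : ∀ x ∈ XU k e U, 1 ≤ v (x ^ 2 + x + algebraMap k Ω s)) {c : k}
    (hc : aeval (algebraMap k Ω c) r ≠ 0) : δ + e (inl true) * δ' ≠ 0 ∧
    dt (fun i => lg v (fam (e (inl false))⁻¹ (δ + e (inl true) * δ') (gam s e a b U) (ix i))) =
      dt fun i => lg v (fam (e (inl false))⁻¹ (algebraMap k Ω c - e (inl true))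
        (gam s e a b U) (ix i)) := by
  classical
  obtain ⟨w, w1, w2, wF, ww⟩ := H.first hr hv h0
  obtain ⟨W, W1, W2⟩ := second_val v h0 h1
  have e0 : (e (inl false))⁻¹ ≠ 0 := inv_ne_zero (H.ind.ne_zero ⟨_, inl_mem _ false⟩)
  have c0 : algebraMap k Ω c - e (inl true) ≠ 0 := fun h =>
    H.ind.transcendental ⟨_, inl_mem _ true⟩ (sub_eq_zero.1 h ▸ isAlgebraic_algebraMap c)
  have ev : lg v (e (inl false))⁻¹ = Pi.single (iT ix false) 1 := hv.var ⟨_, inl_mem _ false⟩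
  have hh := H.hval w W (fun x y l => by
    by_cases x0 : x = 0
    · simp [x0]
    have y0 : y ≠ 0 := by rintro rfl; simp [x0] at l
    rw [W1 x x0, W1 y y0, exp_le_exp] at l
    rw [w1 x x0, w1 y y0, exp_le_exp]
    exact Prod.Lex.monotone_fst _ _ l) (fun x hx => by
    by_cases x0 : x = 0
    · simp [x0]
    have := fun c => (lg_adjoin hv (A := {i | ∀ c, i ≠ iT ix c}) (adjoin.mono _ _ _ (by
      rintro _ ⟨j, hj, rfl⟩
      exact ⟨ix.symm ⟨_, inr_mem.2 hj⟩, by simp, by simp⟩) hx) x0 (iT ix c)).2 fun h => h c rfl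
    rw [W1 x x0, this, this]
    rfl) (fun x hx => by simpa using W2 1 _ (by simpa using hn x hx)) (by
    rw [← one_lt_inv₀ (W.pos_iff.2 (by simpa using e0)), ← map_inv₀, W1 _ e0, ← exp_zero,
      exp_lt_exp, ev]
    exact Prod.Lex.toLex_lt_toLex.2 (Or.inr ⟨by simp, by simp⟩)) hW h
  have hg := H.units w wF fun x hx => by simpa using w2 1 _ (by simpa using hn x hx)
  have wF' : ∀ x ∈ FF s e a b U, w x ≤ 1 := fun x hx => by
    by_cases x0 : x = 0
    · simp [x0]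
    · exact (wF x hx x0).le
  have mc := IntermediateField.algebraMap_mem (FF s e a b U) c
  have hT : w (algebraMap k Ω c - e (inl true)) = max 1 (w (e (inl true))) := by
    rcases le_or_gt (w (e (inl true))) 1 with l | l
    · rw [max_eq_left l]
      refine (w.map_sub_le (wF' _ mc) l).eq_of_not_lt fun m => ?_
      have m1 := val_sub_aeval w wF' l mc (by rwa [w.map_sub_swap]) r
      have m2 := wF _ (aev_mem le_rfl mc r) hc
      have m3 := w.map_add_eq_of_lt_right (m1.trans_eq m2.symm)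
      rw [sub_add_cancel, m2] at m3
      have m4 : w (wr r) ≤ 1 := w.map_add_le l (by rw [map_inv₀, m3, inv_one])
      rw [ww, ← exp_zero, exp_le_exp] at m4
      norm_num at m4
    · rw [max_eq_right l.le, w.map_sub_eq_of_lt_right ((wF' _ mc).trans_lt l)]
  have n0 : δ + e (inl true) * δ' ≠ 0 :=
    w.pos_iff.1 (hh ▸ lt_max_of_lt_left zero_lt_one)
  have up : ∀ y, (fun i => lg v (fam (e (inl false))⁻¹ y (gam s e a b U) (ix i))) = update
      (fun i => lg v (fam (e (inl false))⁻¹ 1 (gam s e a b U) (ix i))) (iT ix true) (lg v y) :=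
    fun y => funext fun i => by
      obtain ⟨⟨(_ | _) | j, hi⟩, rfl⟩ := ix.symm.surjective i
      · rw [update_of_ne (by simp)]; simp
      · rw [update_self]; simp
      · rw [update_of_ne (by simp)]; simp
  refine ⟨n0, ?_⟩
  rw [up, up (_ - _)]
  refine dt_same _ _ _ _ (fun i hi => ?_) (by simpa [w1 _ n0, w1 _ c0] using hh.trans hT.symm)
  obtain ⟨⟨(_ | _) | j, hj⟩, rfl⟩ := ix.symm.surjective i
  · simp [ev]
  · exact absurd rfl hi
  · have := hg j (inr_mem.1 hj)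
    rw [w1 _ (H.ind.ne_zero ⟨_, hj⟩)] at this
    simpa [gam, show j ∈ U from inr_mem.1 hj] using this

theorem Ctx.final [IsAlgClosed Ω] (hδ : δ ∈ XU k e U) (hδ' : δ' ∈ XU k e U) : False := by
  classical
  have := H.inf
  choose v hv using fun r : {r : (FF s e a b U)[X] // r.Monic} =>
    exists_val ((H.indE r.2).1.comp ix ix.injective) fun x =>
      (range_ix ix (fam (e (inl false))⁻¹ (wr r.1) (tau s e a b))).symm ▸ (H.indE r.2).2 x
  obtain ⟨y, y1, y2, y3⟩ : ∃ y ∈ XS s e a b U U, y ≠ 0 ∧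
      (δ + e (inl true) * δ' ≠ 0 → y = δ + e (inl true) * δ') := by
    by_cases c : δ + e (inl true) * δ' = 0
    · exact ⟨1, one_mem _, one_ne_zero, fun h => absurd c h⟩
    · exact ⟨_, add_mem (XS_top.ge hδ) (mul_mem (e_mem subset_rfl _ (inl_mem _ true))
        (XS_top.ge hδ')), c, fun _ => rfl⟩
  have t0 : ∀ i, (⟨_, tup_mem U y1 (ix i)⟩ : XS s e a b U U) ≠ 0 := fun i h =>
    H.tup_ne U y2 _ (congrArg Subtype.val h)
  obtain ⟨⟨r, hr⟩, h2⟩ := H.recip v hv _ t0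
  obtain ⟨c, hc⟩ : ∃ c : k, aeval (algebraMap k Ω c) r ≠ 0 := by
    obtain ⟨c, hc⟩ := ((r.rootSet_finite Ω).preimage
      (algebraMap k Ω).injective.injOn).infinite_compl.nonempty
    exact ⟨c, fun h => hc ((mem_rootSet_of_ne hr.ne_zero).2 h)⟩
  have c0 : algebraMap k Ω c - e (inl true) ≠ 0 := fun h =>
    H.ind.transcendental ⟨_, inl_mem _ true⟩ (sub_eq_zero.1 h ▸ isAlgebraic_algebraMap c)
  have h3 := H.psi hr (hv ⟨r, hr⟩) h0 hc
  obtain ⟨fin, m, m1, m2⟩ := H.pack hr (hv ⟨r, hr⟩) subset_rfl H.clo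
  have mc : algebraMap k Ω c - e (inl true) ∈ XS s e a b U U :=
    sub_mem (IntermediateField.algebraMap_mem _ c) (gen_mem U (inl_mem _ true))
  have t1 : ∀ i, (⟨_, tup_mem U mc (ix i)⟩ : XS s e a b U U) ≠ 0 := fun i h =>
    H.tup_ne U c0 _ (congrArg Subtype.val h)
  have h4 := m2 (fun φ => dt (fun i => lg (v ⟨r, hr⟩) (φ.1 ⟨_, tup_mem U y1 (ix i)⟩)) -
    dt fun i => lg (v ⟨r, hr⟩) (φ.1 ⟨_, tup_mem U mc (ix i)⟩)) (fun φ ψ h => congrArg₂ _
      (congrArg dt (funext fun i => lg_eq _ _ _ (h _)))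
      (congrArg dt (funext fun i => lg_eq _ _ _ (h _)))) fun φ => by
    by_cases sp : ∃ x, v ⟨r, hr⟩ (φ.1 x ^ 2 + φ.1 x + algebraMap k Ω s) < 1
    · rw [mul_sub]
      exact sub_mem ((m1 φ _ t0).2 _ sp.choose_spec) ((m1 φ _ t1).2 _ sp.choose_spec)
    push Not at sp
    have : Algebra.IsAlgebraic (XS s e a b U U) Ω := ⟨fun x => by
      rw [XS_top]; exact mem_cl.1 (H.alg x)⟩
    obtain ⟨Φ, hΦ⟩ := IsAlgClosed.surjective_domRestrict_of_isAlgebraic (K := k)
      (L := XS s e a b U U) (M := Ω) (E := Ω) φ.1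
    have hΦ : ∀ x : XS s e a b U U, φ.1 x = Φ x := fun x => (AlgHom.congr_fun hΦ x).symm
    obtain ⟨n0, n1⟩ := H.ns h0 h1 hW h (v := (v ⟨r, hr⟩).comap Φ.toRingHom) hr (fun p p0 => by
      have pm : MvPolynomial.aeval (fun i => fam (e (inl false))⁻¹ (wr r) (tau s e a b) (ix i)) p ∈
          EE r := algebra_adjoin_le_adjoin _ _ (by
        rw [← range_ix ix, Algebra.adjoin_range_eq_range_aeval]; exact ⟨p, rfl⟩)
      exact (congrArg (v ⟨r, hr⟩) ((hΦ ⟨_, EE_le_XS subset_rfl H.clo r pm⟩).symm.trans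
        (φ.2 _ pm))).trans (hv ⟨r, hr⟩ p p0))
      (fun x hx => by simpa [hΦ] using sp ⟨x, XS_top.ge hx⟩) hc
    simp only [hΦ]
    rw [y3 n0]
    exact (congrArg (· ∈ E2) ((congrArg _ (sub_eq_zero.2 n1)).trans (mul_zero _))).mpr E2.zero_mem
  rw [finsum_sub_distrib (toFinite _) (toFinite _)] at h4
  have h5 := add_mem h3 h4
  refine one_notMem_E2 (neg_mem_iff.1 ((congrArg (· ∈ E2) ?_).mp h5))
  exact (congrArg (fun t => _ - 1 + (t - _)) h2).trans
    ((fun x : ℚ => show x - 1 + (0 - x) = -1 by ring) _)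

omit H h0 h1 hW h in
theorem flc_stmt : FLC.{u} := fun k Ω J _ _ _ _ s e a b rk U H δ δ' u u' hδ hδ' hW h => by
  classical
  have := (sU_finite U.finite_toSet).fintype
  let f : sU (U : Set J) → ℕ := fun i =>
    if i.1 = inl true then 0 else if i.1 = inl false then 1 else Fintype.equivFin _ i + 2
  let : LinearOrder (sU (U : Set J)) := LinearOrder.lift' f fun i j l => by
    simp only [f] at l
    split_ifs at l with c1 c2 c3 c4 c5 c6 c7 c8 <;> try omega
    · exact Subtype.ext (c1.trans c2.symm)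
    · exact Subtype.ext (c4.trans c6.symm)
    · exact (Fintype.equivFin _).injective (Fin.ext (by omega))
  refine H.final (ix := Equiv.refl _) (fun i => show f ⟨inl true, _⟩ ≤ f i by simp [f])
    (fun i hi => show f ⟨inl false, _⟩ ≤ f i from ?_) hW h hδ hδ'
  have : i.1 ≠ inl true := fun c => hi (Subtype.ext c)
  simp only [f, if_neg this]
  split_ifs <;> simp_all

end Pool.Agent.MP_2023ef_al.H5
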