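import Pool.Agent.MP_2023ef_al.h5.Det

/-! A finite group acting on a valued field: the decomposition group. -/

namespace Pool.Agent.MP_2023ef_al.H5

open Finset

variable {Γ : Type*} [LinearOrderedCommGroupWithZero Γ]

theorem prod_lt_of_card {α : Type*} (f : α → Γ) (s t : Finset α) (hc : s.card = t.card)
    (hn : t.Nonempty) (h : ∀ x ∈ s, ∀ y ∈ t, f y < f x) : ∏ y ∈ t, f y < ∏ x ∈ s, f x := by
  obtain ⟨y, hy, hm⟩ := t.exists_max_image f hn
  obtain ⟨x, hx, hx'⟩ := s.exists_min_image f (card_pos.1 (hc ▸ hn.card_pos))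
  calc ∏ y ∈ t, f y ≤ f y ^ t.card := prod_le_pow_card _ _ _ hm
    _ < f x ^ t.card := pow_lt_pow_left₀ (h x hx y hy) zero_le hn.card_pos.ne'
    _ ≤ _ := hc ▸ pow_card_le_prod _ _ _ hx'

theorem prod_lt_one_of {α : Type*} (f : α → Γ) (s : Finset α) (h : ∀ x ∈ s, f x ≤ 1) {y : α}
    (hy : y ∈ s) (h1 : f y < 1) : ∏ x ∈ s, f x < 1 := by
  classical
  rw [← mul_prod_erase s f hy]
  exact (mul_le_of_le_one_right' (prod_le_one' fun x hx => h x (mem_of_mem_erase hx))).trans_lt h1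

variable {M : Type*} [Field M] (v : Valuation M Γ)

/-- The elementary symmetric function of a finite set. -/
def es (O : Finset M) (n : ℕ) : M := ∑ t ∈ O.powersetCard n, ∏ x ∈ t, x

theorem newton (O J : Finset M) (hJ : J ⊆ O) (h : ∀ x ∈ J, ∀ y ∈ O, y ∉ J → v y < v x)
    (h0 : ∀ x ∈ J, x ≠ 0) : v (es O J.card) = ∏ x ∈ J, v x := by
  classical
  have hm : J ∈ O.powersetCard J.card := mem_powersetCard.2 ⟨hJ, rfl⟩
  have p0 : ∀ t ⊆ J, ∏ x ∈ t, v x ≠ 0 := fun t ht =>
    prod_ne_zero_iff.2 fun x hx => by simpa using h0 x (ht hx)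
  rw [es, ← add_sum_erase _ _ hm, v.map_add_eq_of_lt_left, map_prod]
  rw [map_prod]
  refine v.map_sum_lt (p0 J subset_rfl) fun t ht => ?_
  obtain ⟨h1, h2⟩ := mem_erase.1 ht
  obtain ⟨h2, h3⟩ := mem_powersetCard.1 h2
  rw [map_prod, ← prod_inter_mul_prod_sdiff t J, ← prod_inter_mul_prod_sdiff J t, inter_comm t J]
  refine mul_lt_mul_of_pos_left ?_ (zero_lt_iff.2 (p0 _ inter_subset_left))
  refine prod_lt_of_card _ _ _ (card_sdiff_comm h3.symm) ?_ fun x hx y hy =>
    h x (mem_sdiff.1 hx).1 y (h2 (mem_sdiff.1 hy).1) (mem_sdiff.1 hy).2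
  rw [sdiff_nonempty]
  exact fun hs => h1 (eq_of_subset_of_card_le hs h3.ge)

theorem root_le {z s : M} (hs : v s ≤ 1) (h : z ^ 2 + z + s = 0) : v z ≤ 1 := by
  by_contra hz
  rw [not_le] at hz
  have h1 : v (z + s) < v (z ^ 2) := by
    rw [map_pow]
    have : v z < v z ^ 2 := lt_self_pow₀ hz one_lt_two
    exact v.map_add_lt this (hs.trans_lt (hz.trans this))
  rw [show z + s = -z ^ 2 by linear_combination h, v.map_neg] at h1
  exact lt_irrefl _ h1

variable {G : Type*} [Group G] [Finite G] [MulSemiringAction G M]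

open Classical in
/-- The orbit of `x`. -/
noncomputable def orb (G : Type*) [Group G] [Finite G] [MulSemiringAction G M] (x : M) :
    Finset M := (Set.finite_range fun σ : G => σ • x).toFinset

theorem mem_orb {x y : M} : y ∈ orb G x ↔ ∃ σ : G, σ • x = y := by
  simp [orb]

theorem self_mem_orb (x : M) : x ∈ orb G x := mem_orb.2 ⟨1, one_smul _ _⟩

theorem orb_map (x : M) (σ : G) : (orb G x).map (MulAction.toPerm σ).toEmbedding = orb G x := by
  ext y
  simp only [mem_map, mem_orb]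
  constructor
  · rintro ⟨_, ⟨τ, rfl⟩, rfl⟩
    exact ⟨σ * τ, mul_smul _ _ _⟩
  · rintro ⟨τ, rfl⟩
    exact ⟨_, ⟨σ⁻¹ * τ, rfl⟩, by simp [mul_smul]⟩

theorem es_fix (x : M) (n : ℕ) (σ : G) : σ • es (orb G x) n = es (orb G x) n := by
  conv_rhs => rw [← orb_map x σ]
  simp [es, powersetCard_map, smul_sum, smul_prod', Finset.mapEmbedding]

open Classical in
theorem newton2 {x : M} (hx : x ≠ 0) : ∃ c : M, (∀ σ : G, σ • c = c) ∧
    v c = v x ^ ((orb G x).filter fun y => v y = v x).card := by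
  have h0 : ∀ y ∈ orb G x, y ≠ 0 := fun y hy => by
    obtain ⟨σ, rfl⟩ := mem_orb.1 hy
    exact (smul_ne_zero_iff_ne σ).2 hx
  have h1 := newton v (orb G x) ((orb G x).filter fun y => v x < v y) (filter_subset _ _)
    (fun a ha b hb hn => by
      simp only [mem_filter, hb, true_and, not_lt] at ha hn
      exact hn.trans_lt ha.2) fun y hy => h0 y (mem_filter.1 hy).1
  have h2 := newton v (orb G x) ((orb G x).filter fun y => v x ≤ v y) (filter_subset _ _)
    (fun a ha b hb hn => by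
      simp only [mem_filter, hb, true_and, not_le] at ha hn
      exact hn.trans_le ha.2) fun y hy => h0 y (mem_filter.1 hy).1
  refine ⟨es (orb G x) ((orb G x).filter fun y => v x ≤ v y).card /
    es (orb G x) ((orb G x).filter fun y => v x < v y).card,
    fun σ => by rw [smul_div₀', es_fix, es_fix], ?_⟩
  have h3 : v x ^ ((orb G x).filter fun y => v y = v x).card =
      ∏ y ∈ (orb G x).filter fun y => v y = v x, v y := by
    rw [← prod_const]
    exact prod_congr rfl fun y hy => (mem_filter.1 hy).2.symm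
  rw [map_div₀, h1, h2, div_eq_iff (prod_ne_zero_iff.2 fun y hy => by
    simpa using h0 y (mem_filter.1 hy).1), h3, ← prod_union]
  · congr 1
    ext y
    simp only [mem_filter, mem_union, le_iff_eq_or_lt, eq_comm, and_or_left]
  · exact disjoint_filter.2 fun y _ e => by simp [e]

/-- The decomposition group. -/
def dec (G : Type*) [Group G] [MulSemiringAction G M] : Subgroup G where
  carrier := {σ | ∀ x : M, v (σ • x) = v x}
  one_mem' x := by rw [one_smul]
  mul_mem' ha hb x := by rw [mul_smul, ha, hb]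
  inv_mem' {σ} ha x := by rw [← ha (σ⁻¹ • x), smul_inv_smul]

theorem sep1 {σ : G} (hσ : σ ∉ dec v G) :
    ∃ z : M, (∀ τ : G, v (τ • z) ≤ 1) ∧ v z = 1 ∧ v (σ • z) < 1 := by
  classical
  obtain ⟨x, hx⟩ := not_forall.1 hσ
  have x0 : x ≠ 0 := by rintro rfl; simp at hx
  obtain ⟨c, hc, e⟩ := newton2 v (G := G) x0
  generalize hn : ((orb G x).filter fun y => v y = v x).card = n at e
  have n0 : n ≠ 0 := by
    rw [← hn]
    exact card_ne_zero.2 ⟨x, mem_filter.2 ⟨self_mem_orb x, rfl⟩⟩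
  have vx : v x ^ n ≠ 0 := pow_ne_zero _ (by simpa using x0)
  obtain ⟨y, h1, h2⟩ : ∃ y : M, v y = 1 ∧ v (σ • y) < 1 := by
    have a1 : v (x ^ n / c) = 1 := by rw [map_div₀, map_pow, e, div_self vx]
    have a2 : v (σ • (x ^ n / c)) ≠ 1 := by
      rw [smul_div₀', hc, smul_pow', map_div₀, map_pow, e, Ne, div_eq_one_iff_eq vx,
        pow_left_inj₀ zero_le zero_le n0]
      exact hx
    rcases a2.lt_or_gt with h | h
    · exact ⟨_, a1, h⟩
    · exact ⟨_⁻¹, by rw [map_inv₀, a1, inv_one], by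
        rw [smul_inv'', map_inv₀]; exact inv_lt_one_of_one_lt₀ h⟩
  set J := (orb G y).filter fun z => 1 < v z with hJ
  have J0 : ∀ z ∈ J, z ≠ 0 := fun z hz e => by simpa [e] using (mem_filter.1 hz).2
  have h3 := newton v (orb G y) J (filter_subset _ _) (fun a ha b hb hn => by
      simp only [hJ, mem_filter, hb, true_and, not_lt] at ha hn
      exact hn.trans_lt ha.2) J0
  have p0 : 0 < ∏ x ∈ J, v x := zero_lt_iff.2 (prod_ne_zero_iff.2 fun z hz => by
    simpa using J0 z hz)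
  have h4 : ∀ t ⊆ orb G y, ∏ x ∈ t, v x ≤ ∏ x ∈ J, v x := fun t ht => by
    rw [← prod_inter_mul_prod_sdiff t J]
    refine (mul_le_of_le_one_right' (prod_le_one' fun z hz => ?_)).trans
      (prod_le_prod_of_subset_of_one_le' inter_subset_right fun z hz _ => (mem_filter.1 hz).2.le)
    have := mem_sdiff.1 hz
    simpa [hJ, ht this.1] using this.2
  have yJ : y ∉ J := by simp [hJ, h1]
  have h5 : ∀ τ : G, v (τ • ((y * ∏ x ∈ J, x) / es (orb G y) J.card)) =
      (∏ x ∈ (insert y J).map (MulAction.toPerm τ).toEmbedding, v x) / ∏ x ∈ J, v x := fun τ => by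
    rw [smul_div₀', es_fix, map_div₀, h3, prod_map, prod_insert yJ, smul_mul', smul_prod', map_mul,
      map_prod]
    rfl
  have h6 : ∀ τ : G, (insert y J).map (MulAction.toPerm τ).toEmbedding ⊆ orb G y := fun τ => by
    rw [← orb_map y τ]
    exact map_subset_map.2 (insert_subset (self_mem_orb y) (filter_subset _ _))
  refine ⟨_, fun τ => by rw [h5]; exact (div_le_one₀ p0).2 (h4 _ (h6 τ)), ?_, ?_⟩
  · rw [map_div₀, h3, map_mul, h1, one_mul, map_prod, div_self p0.ne']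
  · rw [h5, div_lt_one₀ p0, ← mul_prod_erase _ _ (mem_map_of_mem _ (mem_insert_self y J))]
    refine (mul_le_mul_right (h4 _ ((erase_subset _ _).trans (h6 σ))) _).trans_lt ?_
    exact mul_lt_of_lt_one_left p0 h2

theorem sep2 : ∃ y : M, (∀ σ ∈ dec v G, σ • y = y) ∧ v y = 1 ∧ ∀ σ ∉ dec v G, v (σ • y) < 1 := by
  classical
  have := Fintype.ofFinite G
  choose! z h1 h2 h3 using fun σ : G => sep1 v (σ := σ)
  set w := ∏ σ ∈ univ.filter (· ∉ dec v G), z σ with hw
  have w1 : v w = 1 := by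
    rw [hw, map_prod]
    exact prod_eq_one fun σ hσ => h2 σ (mem_filter.1 hσ).2
  have w2 : ∀ σ ∉ dec v G, v (σ • w) < 1 := fun σ hσ => by
    rw [hw, smul_prod', map_prod]
    exact prod_lt_one_of _ _ (fun τ hτ => h1 τ (mem_filter.1 hτ).2 σ)
      (mem_filter.2 ⟨mem_univ σ, hσ⟩) (h3 σ hσ)
  refine ⟨∏ d : dec v G, d.1 • w, fun σ hσ => ?_, ?_, fun σ hσ => ?_⟩
  · rw [smul_prod']
    exact Fintype.prod_equiv (Equiv.mulLeft (⟨σ, hσ⟩ : dec v G)) _ _ fun d => by simp [mul_smul]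
  · rw [map_prod]
    exact prod_eq_one fun d _ => by rw [d.2, w1]
  · have : ∀ d : dec v G, v (σ • d.1 • w) < 1 := fun d => by
      rw [← mul_smul]
      exact w2 _ fun h => hσ ((mul_mem_cancel_right d.2).1 h)
    rw [smul_prod', map_prod]
    exact prod_lt_one_of _ _ (fun d _ => (this d).le) (mem_univ 1) (this 1)

theorem dec_value {u : M} (hu : ∀ σ ∈ dec v G, σ • u = u) (u0 : u ≠ 0) :
    ∃ c : M, (∀ σ : G, σ • c = c) ∧ v c = v u := by
  classical
  obtain ⟨y, h1, h2, h3⟩ := sep2 v (G := G)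
  have y0 : y ≠ 0 := by rintro rfl; simp at h2
  have hf : (⋃ σ : G, {r : ℕ | σ ∉ dec v G ∧ v (σ • y) ^ r * v (σ • u) = v u}).Finite := by
    refine Set.finite_iUnion fun σ => Set.Subsingleton.finite fun r hr r' hr' => ?_
    have a : v (σ • u) ≠ 0 := v.ne_zero_iff.2 ((smul_ne_zero_iff_ne σ).2 u0)
    exact pow_right_injective₀ (zero_lt_iff.2 (v.ne_zero_iff.2 ((smul_ne_zero_iff_ne σ).2 y0))) (h3 σ hr.1).ne
      (mul_right_cancel₀ a (hr.2.trans hr'.2.symm))
  obtain ⟨r, hr⟩ := hf.exists_notMem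
  simp only [Set.mem_iUnion, Set.mem_ofPred_eq, not_exists, not_and] at hr
  have e : v (y ^ r * u) = v u := by rw [map_mul, map_pow, h2, one_pow, one_mul]
  obtain ⟨c, hc, e1⟩ := newton2 v (G := G) (mul_ne_zero (pow_ne_zero r y0) u0)
  refine ⟨c, hc, ?_⟩
  rw [e1, card_eq_one.2 ⟨y ^ r * u, ?_⟩, pow_one, e]
  refine eq_singleton_iff_unique_mem.2 ⟨mem_filter.2 ⟨self_mem_orb _, rfl⟩, fun x hx => ?_⟩
  obtain ⟨a, b⟩ := mem_filter.1 hx
  obtain ⟨σ, rfl⟩ := mem_orb.1 a
  rw [smul_mul', smul_pow'] at b ⊢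
  by_cases hσ : σ ∈ dec v G
  · rw [h1 σ hσ, hu σ hσ]
  · exact absurd (by rwa [e, map_mul, map_pow] at b) (hr σ hσ)

theorem dec_root {θ s : M} (hθ : θ ^ 2 + θ + s = 0) (hs : ∀ σ : G, σ • s = s) (vs : v s ≤ 1)
    (h : ∀ c : M, (∀ σ : G, σ • c = c) → v c ≤ 1 → v (c ^ 2 + c + s) = 1) :
    ¬∀ σ ∈ dec v G, σ • θ = θ := by
  classical
  intro hf
  obtain ⟨y, h1, h2, h3⟩ := sep2 v (G := G)
  have key : ∀ t : M, (∀ σ ∈ dec v G, σ • t = t) → (∀ σ : G, v (σ • t) ≤ 1) →
      ∃ c : M, (∀ σ : G, σ • c = c) ∧ v (c - y * t) < 1 := fun t a b => by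
    refine ⟨es (orb G (y * t)) 1, es_fix _ _, ?_⟩
    rw [es, powersetCard_one, sum_map]
    simp only [Function.Embedding.coeFn_mk, prod_singleton]
    rw [← add_sum_erase _ _ (self_mem_orb (y * t)), add_sub_cancel_left]
    refine v.map_sum_lt one_ne_zero fun x hx => ?_
    obtain ⟨c, d⟩ := mem_erase.1 hx
    obtain ⟨σ, rfl⟩ := mem_orb.1 d
    rw [smul_mul'] at c ⊢
    rw [map_mul]
    exact (mul_le_of_le_one_right' (b σ)).trans_lt (h3 σ fun hσ => c (by rw [h1 σ hσ, a σ hσ]))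
  have vθ := root_le v vs hθ
  obtain ⟨c, c1, c2⟩ := key θ hf fun σ => root_le v vs (by
    simpa [smul_add, smul_pow', hs] using congrArg (σ • ·) hθ)
  obtain ⟨d, d1, d2⟩ := key 1 (fun σ _ => smul_one σ) fun σ => by simp
  have vd : v d = 1 := by
    rw [show d = y + (d - y * 1) by ring, v.map_add_eq_of_lt_left (by rwa [h2]), h2]
  have d0 : d ≠ 0 := by rintro rfl; simp at vd
  have e : v (c / d - θ) < 1 := by
    rw [show c / d - θ = ((c - y * θ) - θ * (d - y * 1)) / d by field_simp; ring, map_div₀, vd,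
      div_one]
    exact v.map_sub_lt c2 (by rw [map_mul]; exact (mul_le_of_le_one_left' vθ).trans_lt d2)
  have e1 : v (c / d) ≤ 1 := by
    rw [show c / d = (c / d - θ) + θ by ring]
    exact v.map_add_le e.le vθ
  have := h (c / d) (fun σ => by rw [smul_div₀', c1, d1]) e1
  rw [show (c / d) ^ 2 + c / d + s = (c / d - θ) * (c / d + θ + 1) by linear_combination hθ,
    map_mul] at this
  exact ((mul_le_of_le_one_right' (v.map_add_le (v.map_add_le e1 vθ) v.map_one.le)).trans_lt e).ne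
    this

end Pool.Agent.MP_2023ef_al.H5
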