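import Pool.Agent.MP_2023ef_al.h5.RSpec

/-! The index set of the construction. -/

namespace Pool.Agent.MP_2023ef_al.H5

open Sum Set MvPolynomial

universe u

namespace Idx

/-- Terms. -/
inductive Tm (k : Type u) : Type u
  | C (c : k)
  | V (b : Bool)
  | add (s t : Tm k)
  | mul (s t : Tm k)
  | G (s t : Tm k)

variable {k : Type u} [Field k]

/-- The value of a term. -/
noncomputable def ev : Tm k → MvPolynomial (Bool ⊕ Tm k × Tm k) k
  | .C c => C c
  | .V b => X (inl b)
  | .add s t => ev s + ev t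
  | .mul s t => ev s * ev t
  | .G s t => X (inr (s, t))

/-- The depth of a term. -/
def dp : Tm k → ℕ
  | .C _ => 0
  | .V _ => 0
  | .add s t => max (dp s) (dp t)
  | .mul s t => max (dp s) (dp t)
  | .G s t => max (dp s) (dp t) + 1

theorem ev_surj (p : MvPolynomial (Bool ⊕ Tm k × Tm k) k) : ∃ t, ev t = p := by
  induction p using MvPolynomial.induction_on with
  | C c => exact ⟨.C c, rfl⟩
  | add p q hp hq =>
    obtain ⟨s, rfl⟩ := hp
    obtain ⟨t, rfl⟩ := hq
    exact ⟨.add s t, rfl⟩
  | mul_X p i hp =>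
    obtain ⟨s, rfl⟩ := hp
    rcases i with b | ⟨t, t'⟩
    exacts [⟨.mul s (.V b), rfl⟩, ⟨.mul s (.G t t'), rfl⟩]

theorem ev_mem (t : Tm k) (n : ℕ) (h : dp t ≤ n) :
    ev t ∈ supported k (sU {l : Tm k × Tm k | max (dp l.1) (dp l.2) < n}) := by
  induction t with
  | C c => exact Subalgebra.algebraMap_mem _ c
  | V b => exact X_mem_supported.2 (inl_mem _ b)
  | add s t hs ht => exact add_mem (hs (le_of_max_le_left h)) (ht (le_of_max_le_right h))
  | mul s t hs ht => exact mul_mem (hs (le_of_max_le_left h)) (ht (le_of_max_le_right h))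
  | G s t => exact X_mem_supported.2 (inr_mem.2 h)

end Idx

open Idx in
theorem idx_stmt : IDX.{u} := by
  classical
  intro k _
  refine ⟨Tm k × Tm k,
    fun j => if ev j.1 ≠ 0 ∧ IsRelPrime (ev j.1) (ev j.2) then ev j.1 else 1,
    fun j => if ev j.1 ≠ 0 ∧ IsRelPrime (ev j.1) (ev j.2) then ev j.2 else 0,
    fun j => max (dp j.1) (dp j.2), ⟨fun j => ?_, fun j => ?_, fun j => ?_, fun j => ?_⟩,
    fun p q h0 h => ?_⟩
  · split_ifs with h
    exacts [h.1, one_ne_zero]
  · split_ifs with h
    exacts [h.2, isRelPrime_one_left]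
  · split_ifs
    exacts [ev_mem _ _ (le_max_left _ _), one_mem _]
  · split_ifs
    exacts [ev_mem _ _ (le_max_right _ _), zero_mem _]
  · obtain ⟨s, rfl⟩ := ev_surj p
    obtain ⟨t, rfl⟩ := ev_surj q
    exact ⟨(s, t), if_pos ⟨h0, h⟩, if_pos ⟨h0, h⟩⟩

theorem clo_stmt : CLO.{u} := by
  classical
  intro k J _ a b rk hp V
  have key : ∀ (n : ℕ) (V : Finset J), (∀ j ∈ V, rk j < n) →
      ∃ U : Finset J, V ⊆ U ∧ Closed a b (U : Set J) := by
    intro n
    induction n with
    | zero => exact fun V h => ⟨V, subset_rfl, fun j hj => absurd (h j hj) (Nat.not_lt_zero _)⟩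
    | succ n ih =>
      intro V h
      obtain ⟨U, h1, h2⟩ := ih (V.biUnion fun j => ((a j).vars ∪ (b j).vars).toRight) fun l hl => by
        obtain ⟨j, hj, e⟩ := Finset.mem_biUnion.1 hl
        have : rk l < rk j := (Finset.mem_union.1 (Finset.mem_toRight.1 e)).elim
          (fun z => mem_supported.1 (hp.ha j) z l rfl) fun z => mem_supported.1 (hp.hb j) z l rfl
        exact this.trans_le (Nat.lt_succ_iff.1 (h j hj))
      have m : sU (U : Set J) ⊆ sU ((V ∪ U : Finset J) : Set J) := sU_mono (by simp)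
      refine ⟨V ∪ U, Finset.subset_union_left, fun j hj => ?_⟩
      rcases Finset.mem_union.1 hj with hj | hj
      · constructor <;> refine mem_supported.2 fun i hi => m fun l e => h1
          (Finset.mem_biUnion.2 ⟨j, hj, Finset.mem_toRight.2 (e ▸ ?_)⟩)
        exacts [Finset.mem_union_left _ hi, Finset.mem_union_right _ hi]
      · exact ⟨supported_mono m (h2 j hj).1, supported_mono m (h2 j hj).2⟩
  exact key (V.sup rk + 1) V fun j hj => Nat.lt_succ_of_le (Finset.le_sup hj)

end Pool.Agent.MP_2023ef_al.H5
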