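import Pool.Agent.MP_2023ef_al.h5.Spec

/-! Counting algebraically independent elements. -/

namespace Pool.Agent.MP_2023ef_al.H5

open Sum Set IntermediateField

variable {k K : Type*} [Field k] [Field K] [Algebra k K]

/-- The elements algebraic over the field generated by `t`. -/
noncomputable def cl (k : Type*) [Field k] [Algebra k K] (t : Set K) : IntermediateField k K :=
  (algebraicClosure (adjoin k t) K).restrictScalars k

theorem mem_cl {t : Set K} {x : K} : x ∈ cl k t ↔ IsAlgebraic (adjoin k t) x :=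
  mem_algebraicClosure_iff

theorem adjoin_le_cl (t : Set K) : adjoin k t ≤ cl k t := fun x hx =>
  mem_cl.2 (isAlgebraic_algebraMap (⟨x, hx⟩ : adjoin k t))

theorem subset_cl {t : Set K} {x : K} (h : x ∈ t) : x ∈ cl k t :=
  adjoin_le_cl t (subset_adjoin k t h)

theorem cl_alg {t : Set K} {x : K} (h : IsAlgebraic (cl k t) x) : x ∈ cl k t :=
  have h' : IsAlgebraic (algebraicClosure (adjoin k t) K) x := h
  mem_cl.2 (isAlgebraic_iff_isIntegral.2 (isIntegral_trans x (isAlgebraic_iff_isIntegral.1 h')))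

theorem alg_of_coeff (S : IntermediateField k K) (p : Polynomial K) (hp : p ≠ 0)
    (hc : ∀ n, p.coeff n ∈ S) {x : K} (hx : p.eval x = 0) : IsAlgebraic S x := by
  obtain ⟨q, rfl⟩ := (Polynomial.mem_lifts (f := algebraMap S K) p).1
    ((Polynomial.lifts_iff_coeff_lifts p).2 fun n => ⟨⟨_, hc n⟩, rfl⟩)
  exact ⟨q, by rintro rfl; simp at hp, by rwa [Polynomial.aeval_def, ← Polynomial.eval_map]⟩

theorem cl_quad {t : Set K} {x α β : K} (ha : α ∈ cl k t) (hb : β ∈ cl k t)
    (h : x ^ 2 + α * x + β = 0) : x ∈ cl k t := by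
  refine cl_alg ⟨Polynomial.X ^ 2 + Polynomial.C ⟨α, ha⟩ * Polynomial.X + Polynomial.C ⟨β, hb⟩,
    Polynomial.Monic.ne_zero (by monicity!), by simpa using h⟩

theorem cl_le {t t' : Set K} (h : ∀ x ∈ t, x ∈ cl k t') : cl k t ≤ cl k t' := fun x hx => by
  have h1 : adjoin k t ≤ cl k t' := adjoin_le_iff.2 h
  refine cl_alg ?_
  let _ : Algebra (adjoin k t) (cl k t') := (IntermediateField.inclusion h1).toRingHom.toAlgebra
  have : IsScalarTower (adjoin k t) (cl k t') K := .of_algebraMap_eq fun _ => rfl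
  exact (mem_cl.1 hx).tower_top _

theorem count_aux {ι : Type*} {y : ι → K} (hy : AlgebraicIndependent k y) {t : Set K}
    (h : ∀ i, y i ∈ cl k t) : ENat.card ι ≤ (AlgebraicIndependent.matroid k K).eRk t := by
  have h1 : range y ⊆ (AlgebraicIndependent.matroid k K).closure t := by
    rintro _ ⟨i, rfl⟩
    rw [AlgebraicIndependent.matroid_closure_eq]
    exact isAlgebraic_adjoin_iff.1 (mem_cl.1 (h i))
  rw [← Matroid.eRk_closure_eq]
  exact hy.injective.encard_range.trans
    ((AlgebraicIndependent.matroid_indep_iff.2 hy.to_subtype_range).encard_le_eRk_of_subset h1)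

theorem count_le {ι ι' : Type*} [Finite ι] [Finite ι'] {y : ι' → K} (hy : AlgebraicIndependent k y)
    {x : ι → K} (h : ∀ i, y i ∈ cl k (range x)) : Nat.card ι' ≤ Nat.card ι := by
  have := ((count_aux hy h).trans (Matroid.eRk_le_encard _ _)).trans
    (image_univ (f := x) ▸ encard_image_le x univ)
  rwa [encard_univ, ENat.card_eq_coe_natCard, ENat.card_eq_coe_natCard, Nat.cast_le] at this

theorem count_ind {ι ι' : Type*} [Finite ι] [Finite ι'] {y : ι' → K}
    (hy : AlgebraicIndependent k y) {x : ι → K} (h : ∀ i, y i ∈ cl k (range x))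
    (hc : Nat.card ι ≤ Nat.card ι') : AlgebraicIndependent k x := by
  have h1 : (univ : Set ι).encard ≤ _ := le_trans (by
    rwa [encard_univ, ENat.card_eq_coe_natCard, ENat.card_eq_coe_natCard, Nat.cast_le])
    (count_aux hy h)
  have h2 := Matroid.eRk_le_encard (AlgebraicIndependent.matroid k K) (range x)
  have h3 : (range x).encard ≤ _ := image_univ (f := x) ▸ encard_image_le x univ
  refine .of_subtype_range ?_ (AlgebraicIndependent.matroid_indep_iff.1
    ((Matroid.indep_iff_eRk_eq_encard_of_finite (finite_range x)).2 (h2.antisymm (h3.trans h1))))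
  exact injOn_univ.1 (finite_univ.injOn_of_encard_image_eq
    (image_univ (f := x) ▸ h3.antisymm (h1.trans h2)))

theorem count_on {σ : Type*} {s : Set σ} (hs : s.Finite) {x y : σ → K}
    (hy : AlgebraicIndepOn k y s) (h : ∀ i ∈ s, y i ∈ cl k (x '' s)) : AlgebraicIndepOn k x s :=
  haveI := hs.to_subtype
  count_ind hy (fun i => image_eq_range x s ▸ h i i.2) le_rfl

theorem exists_hom {L σ : Type*} [Field L] [Algebra k L] {s : Set σ} {x : σ → K} {y : σ → L}
    (hx : AlgebraicIndepOn k x s) (hy : AlgebraicIndepOn k y s) :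
    ∃ φ : adjoin k (x '' s) →ₐ[k] L, ∀ i ∈ s, ∀ h, φ ⟨x i, h⟩ = y i := by
  rw [image_eq_range]
  refine ⟨(val _).comp ((hy.aevalEquivField.toAlgHom).comp hx.aevalEquivField.symm.toAlgHom),
    fun i hi h => ?_⟩
  have : hx.aevalEquivField (algebraMap (MvPolynomial s k) _ (MvPolynomial.X ⟨i, hi⟩)) = ⟨x i, h⟩ :=
    Subtype.ext (by simp)
  simp [← this]

theorem hom_ext {L : Type*} [Field L] [Algebra k L] {X : IntermediateField k K} {t : Set K}
    (ht : adjoin k t ≤ X) (φ ψ : X →ₐ[k] L) (h : ∀ x ∈ t, ∀ hx, φ ⟨x, hx⟩ = ψ ⟨x, hx⟩) (x : X)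
    (hx : x.1 ∈ adjoin k t) : φ x = ψ x :=
  DFunLike.congr_fun (adjoin_algHom_ext k (φ₁ := φ.comp (inclusion ht)) (φ₂ := ψ.comp (inclusion ht))
    fun y hy => h y hy _) ⟨x.1, hx⟩

section
variable {A ι : Type*} [CommRing A] [Algebra k A]

/-- The family `z` is algebraically independent modulo the ideal `I`. -/
def IndMod (k : Type*) [Field k] [Algebra k A] (I : Ideal A) (z : ι → A) : Prop :=
  ∀ p : MvPolynomial ι k, MvPolynomial.aeval z p ∈ I → p = 0

theorem IndMod.indep {I : Ideal A} {z : ι → A} (h : IndMod k I z) : AlgebraicIndependent k z :=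
  algebraicIndependent_iff.2 fun p hp => h p (hp ▸ I.zero_mem)

theorem IndMod.option {I I' : Ideal A} (hI : I.IsPrime) (hle : I ≤ I') {z : ι → A}
    (h : IndMod k I' z) {w : A} (h1 : w ∈ I') (h2 : w ∉ I) :
    IndMod k I fun o : Option ι => o.elim w z := by
  have key : ∀ n, ∀ P : Polynomial (MvPolynomial ι k), P.natDegree = n →
      P.eval₂ (MvPolynomial.aeval z).toRingHom w ∈ I → P = 0 := by
    intro n
    induction n using Nat.strong_induction_on with
    | _ n ih =>
    intro P hn hP
    have e := P.divX_mul_X_add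
    rw [← e, Polynomial.eval₂_add, Polynomial.eval₂_mul, Polynomial.eval₂_X, Polynomial.eval₂_C]
      at hP
    have c0 := h _ ((I'.add_mem_iff_right (I'.mul_mem_left _ h1)).1 (hle hP))
    rw [c0, map_zero, add_zero] at hP e
    rcases Nat.eq_zero_or_pos n with rfl | n0
    · rw [Polynomial.eq_C_of_natDegree_eq_zero hn, c0, map_zero]
    · rw [← e, ih _ ?_ _ rfl ((hI.mem_or_mem hP).resolve_right h2), zero_mul]
      rw [Polynomial.natDegree_divX_eq_natDegree_tsub_one]
      omega
  intro p hp
  refine (MvPolynomial.optionEquivLeft k ι).injective ((key _ _ rfl ?_).trans (map_zero _).symm)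
  suffices h : (MvPolynomial.optionEquivLeft k ι p).eval₂ (MvPolynomial.aeval z).toRingHom w =
      MvPolynomial.aeval (fun o : Option ι => o.elim w z) p from h ▸ hp
  clear hp
  induction p using MvPolynomial.induction_on with
  | C c => simp
  | add p q hp hq => simp only [map_add, Polynomial.eval₂_add, hp, hq]
  | mul_X p o hp => cases o <;> simp only [map_mul, Polynomial.eval₂_mul, hp] <;> simp

end

end Pool.Agent.MP_2023ef_al.H5
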