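import Pool.Agent.MP_2023ef_al.h5.RSpec

/-! The construction of the ring. -/

namespace Pool.Agent.MP_2023ef_al.H5

open Sum Set MvPolynomial

namespace Rg

variable {k K J : Type*} [Field k] [Field K] [Algebra k K] {s : k} {e : Bool ⊕ J → K}
  {a b : J → MvPolynomial (Bool ⊕ J) k} {rk : J → ℕ}

/-- The standing hypotheses. -/
structure Dat (s : k) (e : Bool ⊕ J → K) (a b : J → MvPolynomial (Bool ⊕ J) k) (rk : J → ℕ) :
    Prop where
  hs : ∀ c : k, c ^ 2 + c + s ≠ 0
  he : AlgebraicIndependent k e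
  hp : Pairs a b rk
  clo : ∀ V : Finset J, ∃ U : Finset J, V ⊆ U ∧ Closed a b (U : Set J)

theorem XU_mono {U V : Set J} (h : U ⊆ V) : XU k e U ≤ XU k e V :=
  IntermediateField.adjoin.mono _ _ _ (image_mono (sU_mono h))

theorem e_mem {U : Set J} : ∀ i ∈ sU U, e i ∈ XU k e U := fun i hi =>
  IntermediateField.subset_adjoin _ _ ⟨i, hi, rfl⟩

theorem good_anti {U V : Set J} (h : U ⊆ V) {W : Subring K} (g : Good s e a b V W) :
    Good s e a b U W :=
  ⟨fun x hx => g.val x (XU_mono h hx),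
    fun x hx => g.con x (IntermediateField.adjoin.mono _ _ _ (image_mono h) hx),
    fun x hx => g.ns x (XU_mono h hx), g.eps⟩

theorem good_k {U : Set J} {W : Subring K} (g : Good s e a b U W) (c : k) :
    algebraMap k K c ∈ W := g.con _ (IntermediateField.algebraMap_mem _ c)

variable (s e a b) in
/-- Membership at level `U`. -/
def At (U : Finset J) (u : K) : Prop :=
  u ∈ XU k e (U : Set J) ∧ ∀ W, Good s e a b (U : Set J) W → u ∈ W

theorem At.mono {U V : Finset J} (h : U ⊆ V) {u : K} (hu : At s e a b U u) : At s e a b V u :=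
  ⟨XU_mono (Finset.coe_subset.2 h) hu.1, fun W g => hu.2 W (good_anti (Finset.coe_subset.2 h) g)⟩

variable (s e) in
/-- The field of fractions of the polynomial ring. -/
noncomputable def FF : IntermediateField k K := IntermediateField.adjoin k (range
  (fam ((1 + e (inl false)) * x0 s e) ((1 + e (inl false)) * y0 s e) fun j => e (inr j)))

theorem mem_FF {u : K} : u ∈ FF s e ↔ ∃ p q, u = chi s e p / chi s e q :=
  IntermediateField.mem_adjoin_range_iff _ _ _

theorem chi_FF (p : MvPolynomial (Bool ⊕ J) k) : chi s e p ∈ FF s e :=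
  mem_FF.2 ⟨p, 1, by rw [map_one, div_one]⟩

theorem g_FF (j : J) : e (inr j) ∈ FF s e := chi_inr s (e := e) j ▸ chi_FF _

theorem sup_fin (p : MvPolynomial (Bool ⊕ J) k) :
    ∃ U : Finset J, p ∈ supported k (sU (U : Set J)) :=
  ⟨p.vars.preimage inr inr_injective.injOn, mem_supported.2 fun i hi j h => by
    subst h; exact Finset.mem_coe.2 (Finset.mem_preimage.2 hi)⟩

theorem Dat.ne (D : Dat s e a b rk) {p : MvPolynomial (Bool ⊕ J) k} (h : p ≠ 0) :
    chi s e p ≠ 0 := by
  obtain ⟨U, hU⟩ := sup_fin p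
  exact chi_ne s U.finite_toSet (D.he.comp _ Subtype.val_injective) hU h

theorem Dat.s0 (D : Dat s e a b rk) : s ≠ 0 := fun h => D.hs 0 (by simp [h])

variable [Infinite k]

theorem Dat.N0 (D : Dat s e a b rk) (j : J) :
    Nf (algebraMap k K s) (chi s e (a j)) (chi s e (b j)) ≠ 0 :=
  chi_Nf s (e := e) (a j) (b j) ▸ D.ne (Nf_ne s D.hs (D.hp.ne j) _)

theorem Dat.eq (D : Dat s e a b rk) (j : J) : e (inr j) * (e (inr j) + chi s e (a j)) =
    tau s e a b j * Nf (algebraMap k K s) (chi s e (a j)) (chi s e (b j)) :=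
  (div_mul_cancel₀ _ (D.N0 j)).symm

theorem Dat.t0 (D : Dat s e a b rk) (j : J) : tau s e a b j ≠ 0 := by
  refine div_ne_zero (mul_ne_zero (chi_inr s (e := e) j ▸ D.ne (X_ne_zero _)) ?_) (D.N0 j)
  rw [← chi_inr s (e := e) j, ← map_add]
  refine D.ne fun h => ?_
  have h1 := neg_mem (D.hp.ha j)
  rw [neg_eq_of_add_eq_zero_left h, X_mem_supported] at h1
  exact lt_irrefl (rk j) (h1 j rfl)

theorem Dat.gen (D : Dat s e a b rk) {U : Set J} (hU : Closed a b U) {W : Subring K}
    (g : Good s e a b U W) {j : J} (hj : j ∈ U) :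
    ∃ m, (m = chi s e (a j) ∨ m = chi s e (b j)) ∧ m ≠ 0 ∧ chi s e (a j) / m ∈ W ∧
      chi s e (b j) / m ∈ W ∧ m ^ 2 / Nf (algebraMap k K s) (chi s e (a j)) (chi s e (b j)) ∈ W ∧
      e (inr j) / m ∈ W ∧ m / e (inr j) ∈ W := by
  obtain ⟨m, h1, h2, h3, h4, -, h6, h7⟩ := gamma s D.s0 (good_k g) g.val g.ns
    (chi_mem' s _ e_mem (hU j hj).1) (chi_mem' s _ e_mem (hU j hj).2) (Or.inl (D.ne (D.hp.ne j)))
  have ht : tau s e a b j ∈ IntermediateField.adjoin k (tau s e a b '' U) :=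
    IntermediateField.subset_adjoin _ _ ⟨j, hj, rfl⟩
  obtain ⟨-, h8, h9⟩ := h7 _ (e_mem _ (inr_mem.2 hj)) _ (g.con _ ht) (D.t0 j)
    (g.con _ (inv_mem ht)) (D.eq j)
  exact ⟨m, h1, h2, h3, h4, h6, h8, h9⟩

theorem Dat.poly (D : Dat s e a b rk) {U : Set J} (hU : Closed a b U) {W : Subring K}
    (g : Good s e a b U W) {p : MvPolynomial (Bool ⊕ J) k} (hp : p ∈ supported k (sU U)) :
    chi s e p ∈ W := by
  have h0 : 1 + e (inl false) ∈ W :=
    add_mem W.one_mem ((g.val _ (e_mem _ (inl_mem U false))).resolve_right g.eps)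
  have hx := x0_mem s (XU k e U) (e_mem _ (inl_mem U true))
  have hN := Nf_unit s (qq_ne s (D.he.transcendental (inl true)))
  obtain ⟨m, h1, h2, h3, h4, -, h6, -⟩ := gamma s D.s0 (good_k g) g.val g.ns hx.1 hx.2 (by
    by_contra h
    rw [not_or, not_not, not_not] at h
    simp [Nf, h.1, h.2] at hN)
  rw [hN, div_one] at h6
  have hm : m ∈ W := (g.val m (h1.elim (· ▸ hx.1) (· ▸ hx.2))).elim id fun h => by
    have := mul_mem h6 h
    rwa [sq, mul_inv_cancel_right₀ h2] at this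
  have kx := mul_mem h0 (div_mul_cancel₀ (x0 s e) h2 ▸ mul_mem h3 hm)
  have ky := mul_mem h0 (div_mul_cancel₀ (y0 s e) h2 ▸ mul_mem h4 hm)
  refine chi_mem s W (good_k g) kx ky (rank_ind D.hp hU fun j hj V _ hV ha hb => ?_) hp
  obtain ⟨n, n1, n2, -, -, -, n3, -⟩ := D.gen hU g hj
  exact div_mul_cancel₀ (e (inr j)) n2 ▸ mul_mem n3 (n1.elim
    (· ▸ chi_mem s W (good_k g) kx ky (fun l hl => (hV l hl).1) ha)
    (· ▸ chi_mem s W (good_k g) kx ky (fun l hl => (hV l hl).1) hb))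

variable (s e a b) in
/-- The field of constants. -/
noncomputable def LL : IntermediateField k K := IntermediateField.adjoin k (range (tau s e a b))

omit [Infinite k] in
theorem two {f : K → K → K} (h1 : ∀ (C : IntermediateField k K) x y, x ∈ C → y ∈ C → f x y ∈ C)
    (h2 : ∀ (W : Subring K) x y, x ∈ W → y ∈ W → f x y ∈ W) {x y : K}
    (hx : x ∈ FF s e ∧ ∃ U, At s e a b U x) (hy : y ∈ FF s e ∧ ∃ U, At s e a b U y) :
    f x y ∈ FF s e ∧ ∃ U, At s e a b U (f x y) := by
  classical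
  obtain ⟨hx, U, hU⟩ := hx
  obtain ⟨hy, V, hV⟩ := hy
  have h3 := hU.mono (Finset.subset_union_left (s₂ := V))
  have h4 := hV.mono (Finset.subset_union_right (s₁ := U))
  exact ⟨h1 _ _ _ hx hy, _, h1 _ _ _ h3.1 h4.1, fun W g => h2 _ _ _ (h3.2 W g) (h4.2 W g)⟩

/-- The ring. -/
noncomputable def Dat.R (D : Dat s e a b rk) : Subalgebra (LL s e a b) K where
  carrier := {u | u ∈ FF s e ∧ ∃ U, At s e a b U u}
  mul_mem' := two (f := (· * ·)) (fun _ _ _ => mul_mem) fun _ _ _ => mul_mem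
  add_mem' := two (f := (· + ·)) (fun _ _ _ => add_mem) fun _ _ _ => add_mem
  algebraMap_mem' := fun x => by
    classical
    refine ⟨(IntermediateField.adjoin_le_iff.2 (by
      rintro _ ⟨j, rfl⟩
      exact tau_mem s _ (g_FF j) (chi_FF _) (chi_FF _)) : LL s e a b ≤ FF s e) x.2, ?_⟩
    obtain ⟨T, h1, h2⟩ := IntermediateField.exists_finset_of_mem_adjoin x.2
    obtain ⟨V, h3⟩ := Finset.subset_set_image_iff.1 (image_univ (f := tau s e a b) ▸ h1)
    obtain ⟨U, h4, h5⟩ := D.clo V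
    have h6 : x.1 ∈ IntermediateField.adjoin k (tau s e a b '' (U : Set J)) := by
      refine IntermediateField.adjoin.mono _ _ _ ?_ h2
      rw [← h3.2, Finset.coe_image]
      exact image_mono (Finset.coe_subset.2 h4)
    refine ⟨U, (IntermediateField.adjoin_le_iff.2 ?_ : _ ≤ XU k e (U : Set J)) h6,
      fun W g => g.con _ h6⟩
    rintro _ ⟨j, hj, rfl⟩
    exact tau_mem s _ (e_mem _ (inr_mem.2 hj)) (chi_mem' s _ e_mem (h5 j hj).1)
      (chi_mem' s _ e_mem (h5 j hj).2)

theorem Dat.chi_R (D : Dat s e a b rk) (p : MvPolynomial (Bool ⊕ J) k) : chi s e p ∈ D.R := by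
  obtain ⟨V, hV⟩ := sup_fin p
  obtain ⟨U, h1, h2⟩ := D.clo V
  have h3 := supported_mono (sU_mono (Finset.coe_subset.2 h1)) hV
  exact ⟨chi_FF p, U, chi_mem' s _ e_mem h3, fun W g => D.poly h2 g h3⟩

/-- The constants of the ring. -/
noncomputable def Dat.hom (D : Dat s e a b rk) : k →+* D.R :=
  (algebraMap (LL s e a b) D.R).comp (algebraMap k _)

theorem Dat.four (D : Dat s e a b rk) (j : J) :
    chi s e (a j) / e (inr j) ∈ D.R ∧ chi s e (b j) / e (inr j) ∈ D.R ∧
      e (inr j) * (chi s e (a j) + chi s e (b j)) /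
        Nf (algebraMap k K s) (chi s e (a j)) (chi s e (b j)) ∈ D.R ∧
      e (inr j) * (algebraMap k K s * chi s e (b j)) /
        Nf (algebraMap k K s) (chi s e (a j)) (chi s e (b j)) ∈ D.R := by
  obtain ⟨U, h1, hU⟩ := D.clo {j}
  have hj : j ∈ (U : Set J) := h1 (Finset.mem_singleton_self j)
  have hN := D.N0 j
  have key : ∀ C : IntermediateField k K, e (inr j) ∈ C → chi s e (a j) ∈ C → chi s e (b j) ∈ C →
      chi s e (a j) / e (inr j) ∈ C ∧ chi s e (b j) / e (inr j) ∈ C ∧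
      e (inr j) * (chi s e (a j) + chi s e (b j)) /
        Nf (algebraMap k K s) (chi s e (a j)) (chi s e (b j)) ∈ C ∧
      e (inr j) * (algebraMap k K s * chi s e (b j)) /
        Nf (algebraMap k K s) (chi s e (a j)) (chi s e (b j)) ∈ C := fun C g ha hb =>
    have n := add_mem (add_mem (pow_mem ha 2) (mul_mem ha hb))
      (mul_mem (C.algebraMap_mem s) (pow_mem hb 2))
    ⟨div_mem ha g, div_mem hb g, div_mem (mul_mem g (add_mem ha hb)) n,
      div_mem (mul_mem g (mul_mem (C.algebraMap_mem s) hb)) n⟩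
  obtain ⟨f1, f2, f3, f4⟩ := key (FF s e) (g_FF j) (chi_FF _) (chi_FF _)
  obtain ⟨x1, x2, x3, x4⟩ := key (XU k e (U : Set J)) (e_mem _ (inr_mem.2 hj))
    (chi_mem' s _ e_mem (hU j hj).1) (chi_mem' s _ e_mem (hU j hj).2)
  refine ⟨⟨f1, U, x1, fun W g => ?_⟩, ⟨f2, U, x2, fun W g => ?_⟩, ⟨f3, U, x3, fun W g => ?_⟩,
    ⟨f4, U, x4, fun W g => ?_⟩⟩ <;> obtain ⟨m, -, m0, m1, m2, m3, m4, m5⟩ := D.gen hU g hj
  · exact div_mul_div_cancel₀ m0 ▸ mul_mem m1 m5
  · exact div_mul_div_cancel₀ m0 ▸ mul_mem m2 m5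
  · have := mul_mem (mul_mem m4 (add_mem m1 m2)) m3
    refine (congrArg (· ∈ W) ?_).mp this
    field_simp
  · have := mul_mem (mul_mem m4 (mul_mem (good_k g s) m2)) m3
    refine (congrArg (· ∈ W) ?_).mp this
    field_simp

theorem Dat.bezout (D : Dat s e a b rk)
    (h : ∀ p q, p ≠ 0 → IsRelPrime p q → ∃ j, a j = p ∧ b j = q) : IsBezout D.R := by
  refine IsBezout.iff_span_pair_isPrincipal.2 fun u v => ?_
  by_cases u0 : u = 0
  · exact ⟨v, by rw [u0, Ideal.span_insert_zero]⟩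
  by_cases v0 : v = 0
  · exact ⟨u, by rw [v0, Set.pair_comm, Ideal.span_insert_zero]⟩
  obtain ⟨p, q, h1⟩ := mem_FF.1 u.2.1
  obtain ⟨p', q', h2⟩ := mem_FF.1 v.2.1
  have u1 : chi s e p / chi s e q ≠ 0 := fun z => u0 (Subtype.ext (h1.trans z))
  have v1 : chi s e p' / chi s e q' ≠ 0 := fun z => v0 (Subtype.ext (h2.trans z))
  obtain ⟨p0, q0⟩ := div_ne_zero_iff.1 u1
  have q1 := (div_ne_zero_iff.1 v1).2
  obtain ⟨α, β, c, r, e1, e2⟩ := UniqueFactorizationMonoid.exists_reduced_factors (p * q')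
    (fun z => mul_ne_zero p0 q1 (by rw [← map_mul, z, map_zero])) (p' * q)
  obtain ⟨j, rfl, rfl⟩ := h α β (by
    rintro rfl
    exact mul_ne_zero p0 q1 (by rw [← map_mul, ← e1, mul_zero, map_zero])) r
  obtain ⟨f1, f2, f3, f4⟩ := D.four j
  have e3 := congrArg (chi s e) e1
  have e4 := congrArg (chi s e) e2
  rw [map_mul, map_mul] at e3 e4
  have hN := D.N0 j
  have g0 : e (inr j) ≠ 0 := chi_inr s (e := e) j ▸ D.ne (X_ne_zero _)
  have hu : u.1 = chi s e c / (chi s e q * chi s e q') * chi s e (a j) := by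
    rw [h1]; field_simp; linear_combination -e3
  have hv : v.1 = chi s e c / (chi s e q * chi s e q') * chi s e (b j) := by
    rw [h2]; field_simp; linear_combination -e4
  generalize chi s e c / (chi s e q * chi s e q') = γ at hu hv
  have hG : (u * ⟨_, f3⟩ + v * ⟨_, f4⟩ : D.R).1 = γ * e (inr j) := by
    change u.1 * _ + v.1 * _ = _
    rw [hu, hv]
    field_simp
    rw [Nf]
    ring
  refine ⟨u * ⟨_, f3⟩ + v * ⟨_, f4⟩, le_antisymm (Ideal.span_le.2 ?_) (Ideal.span_le.2 ?_)⟩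
  · rintro _ (rfl | rfl)
    · refine Ideal.mem_span_singleton'.2 ⟨⟨_, f1⟩, Subtype.ext ?_⟩
      rw [Subalgebra.coe_mul, hG, hu]
      field_simp
    · refine Ideal.mem_span_singleton'.2 ⟨⟨_, f2⟩, Subtype.ext ?_⟩
      rw [Subalgebra.coe_mul, hG, hv]
      field_simp
  · rintro _ rfl
    exact add_mem (Ideal.mul_mem_right _ _ (Ideal.subset_span (Or.inl rfl)))
      (Ideal.mul_mem_right _ _ (Ideal.subset_span (Or.inr rfl)))

theorem Dat.alg (D : Dat s e a b rk) (z : K) (hz : z ∈ D.R) :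
    z ∈ cl (LL s e a b) {chi s e (X (inl false)), chi s e (X (inl true))} := by
  set C := cl (LL s e a b) {chi s e (X (inl false)), chi s e (X (inl true))}
  have hk : ∀ c, algebraMap k K c ∈ C := fun c =>
    C.algebraMap_mem ⟨_, (LL s e a b).algebraMap_mem c⟩
  have hx : (1 + e (inl false)) * x0 s e ∈ C := subset_cl (Or.inl (chi_false s).symm)
  have hy : (1 + e (inl false)) * y0 s e ∈ C := subset_cl (Or.inr (chi_true s).symm)
  have hg : ∀ j, e (inr j) ∈ C := fun j => by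
    obtain ⟨U, h1, hU⟩ := D.clo {j}
    refine rank_ind (P := fun j => e (inr j) ∈ C) D.hp hU (fun l _ V _ hV ha hb => ?_) j
      (h1 (Finset.mem_singleton_self j))
    have h2 : chi s e (a l) ∈ C :=
      chi_mem s C.toSubfield.toSubring hk hx hy (fun i hi => (hV i hi).1) ha
    have h3 : chi s e (b l) ∈ C :=
      chi_mem s C.toSubfield.toSubring hk hx hy (fun i hi => (hV i hi).1) hb
    have h4 : tau s e a b l ∈ C :=
      C.algebraMap_mem ⟨_, IntermediateField.subset_adjoin _ _ ⟨l, rfl⟩⟩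
    refine cl_quad h2 (neg_mem (mul_mem h4 (add_mem (add_mem (pow_mem h2 2) (mul_mem h2 h3))
      (mul_mem (hk s) (pow_mem h3 2))))) ?_
    have := D.eq l
    rw [Nf] at this
    linear_combination this
  have hc : ∀ p, chi s e p ∈ C := fun p => by
    obtain ⟨U, hU⟩ := sup_fin p
    exact chi_mem s C.toSubfield.toSubring hk hx hy (fun i _ => hg i) hU
  obtain ⟨p, q, rfl⟩ := mem_FF.1 hz.1
  exact div_mem (hc p) (hc q)

omit [Infinite k] in
theorem noroot (c : RatFunc k) : c ^ 2 + c + RatFunc.X ≠ 0 := fun h => by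
  obtain ⟨p, rfl⟩ := IsIntegrallyClosed.algebraMap_eq_of_integral (R := Polynomial k) (x := c)
    ⟨Polynomial.X ^ 2 + Polynomial.X + Polynomial.C Polynomial.X, by monicity!, by
      simpa [Polynomial.eval₂_add] using h⟩
  have h1 : p * (p + 1) = -Polynomial.X := IsFractionRing.injective (Polynomial k) (RatFunc k) (by
    rw [map_mul, map_add, map_one, map_neg, RatFunc.algebraMap_X]
    linear_combination h)
  have h2 : p * (p + 1) ≠ 0 := h1 ▸ neg_ne_zero.2 Polynomial.X_ne_zero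
  have h3 := Polynomial.natDegree_mul (left_ne_zero_of_mul h2) (right_ne_zero_of_mul h2)
  rw [h1, Polynomial.natDegree_neg, Polynomial.natDegree_X, ← Polynomial.C_1,
    Polynomial.natDegree_add_C] at h3
  omega

omit [Infinite k] in
theorem disc : (1 : RatFunc k) - 4 * RatFunc.X ≠ 0 := fun h => by
  have h1 : (1 : Polynomial k) - 4 * Polynomial.X = 0 :=
    IsFractionRing.injective (Polynomial k) (RatFunc k) (by
      rw [map_sub, map_one, map_mul, map_ofNat, RatFunc.algebraMap_X, map_zero, h])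
  simpa using congrArg (Polynomial.eval 0) h1

end Rg

universe u

open Rg in
theorem ring_stmt : RING.{u} := by
  classical
  intro fl idx clo diag low dim k₀ _
  have : Infinite (RatFunc k₀) :=
    .of_injective _ (IsFractionRing.injective (Polynomial k₀) (RatFunc k₀))
  obtain ⟨J, a, b, rk, hp, hall⟩ := idx (RatFunc k₀)
  generalize hk : (RatFunc.X : RatFunc k₀) = s
  let K := FractionRing (MvPolynomial (Bool ⊕ J) (RatFunc k₀))
  obtain ⟨e, he⟩ : ∃ e : Bool ⊕ J → K, AlgebraicIndependent (RatFunc k₀) e :=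
    ⟨_, (algebraicIndependent_X (Bool ⊕ J) (RatFunc k₀)).map'
      (f := IsScalarTower.toAlgHom _ _ K) (IsFractionRing.injective _ K)⟩
  have D : Dat s e a b rk := ⟨hk ▸ noroot, he, hp, clo _ _ a b rk hp⟩
  have hB := D.bezout hall
  let x : D.R := ⟨_, D.chi_R (X (inl false))⟩
  let y : D.R := ⟨_, D.chi_R (X (inl true))⟩
  let t : D.R := ⟨_, (chi s e).commutes s ▸ D.chi_R (algebraMap _ _ s)⟩
  have hstar : ¬Star (Mx t x y) := by
    rintro ⟨δ, u, h⟩
    choose U hU using fun i => (δ i).2.2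
    choose V hV using fun i => (u i).2.2
    obtain ⟨T, h1, h2⟩ := D.clo (Finset.univ.biUnion U ∪ Finset.univ.biUnion V)
    have h3 := fun i => (hU i).mono (((Finset.subset_biUnion_of_mem U (Finset.mem_univ i)).trans
      Finset.subset_union_left).trans h1)
    have h4 := fun i => (hV i).mono (((Finset.subset_biUnion_of_mem V (Finset.mem_univ i)).trans
      Finset.subset_union_right).trans h1)
    refine fl _ K J s D.hs (hk ▸ disc) e a b rk he hp T h2 (fun i => (δ i).1) (fun i => (u i).1)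
      (fun i => ⟨(h3 i).1, (h4 i).1⟩) (fun W g i => ⟨(h3 i).2 W g, (h4 i).2 W g⟩) ?_
    have := congrArg Subtype.val h
    simpa only [Mx, dotProduct, Matrix.mulVec, Fin.sum_univ_two, Matrix.of_apply, Matrix.cons_val',
      Matrix.cons_val_zero, Matrix.cons_val_one, Matrix.cons_val_fin_one, Subalgebra.coe_add,
      Subalgebra.coe_mul, Subalgebra.coe_sub, Subalgebra.coe_one] using this
  have hspan : Ideal.span {Mx t x y 0 0, Mx t x y 0 1, Mx t x y 1 0, Mx t x y 1 1} = ⊤ := by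
    rw [Ideal.eq_top_iff_one, show (1 : D.R) = Mx t x y 0 0 + t * Mx t x y 0 1 - Mx t x y 1 0 by
      simp [Mx]]
    exact sub_mem (add_mem (Ideal.subset_span (Or.inl rfl))
      (Ideal.mul_mem_left _ _ (Ideal.subset_span (Or.inr (Or.inl rfl)))))
      (Ideal.subset_span (Or.inr (Or.inr (Or.inl rfl))))
  have hdet : (Mx t x y).det ≠ 0 := fun h => by
    have h1 : 1 - Nf t x y = 0 := by
      rw [← h, Mx, Matrix.det_fin_two_of, Nf]; ring
    refine D.ne (p := 1 - Nf (C s) (X (inl false)) (X (inl true)))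
      (fun z => by simpa [Nf] using congrArg constantCoeff z) ?_
    rw [map_sub, map_one, chi_Nf]
    exact congrArg Subtype.val h1
  refine ⟨D.R, inferInstance, inferInstance, hB, (D.hom.comp (algebraMap k₀ _)).toAlgebra, ?_,
    Mx t x y,
    fun C D' hC hD h => hstar (diag _ _ C D' hspan hC hD h)⟩
  have h1 := dim _ K D.R _ _ D.alg
  have h2 : ¬ringKrullDim D.R ≤ 1 := fun h => hstar (low _ _ h hdet hspan)
  generalize ringKrullDim D.R = n at h1 h2
  refine h1.antisymm ?_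
  induction n using WithBot.recBotCoe with
  | bot => exact absurd bot_le h2
  | coe n =>
    have h3 : (1 : ℕ∞) < n := not_le.1 fun h => h2 (by exact_mod_cast h)
    have h4 : (2 : ℕ∞) ≤ n := one_add_one_eq_two (R := ℕ∞) ▸ Order.add_one_le_of_lt h3
    exact WithBot.coe_le_coe.2 h4

end Pool.Agent.MP_2023ef_al.H5
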