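import Pool.Agent.MP_2023ef_al.h5.TSpec

/-! The transfer from an algebraic closure to an arbitrary field. -/

namespace Pool.Agent.MP_2023ef_al.H5

open Sum Set MvPolynomial IntermediateField

section

variable {k F K J : Type*} [Field k] [Field F] [Field K] [Algebra k F] [Algebra k K] {s : k}
  {a b : J → MvPolynomial (Bool ⊕ J) k} {U : Set J}

theorem tr_x0 (f : F →ₐ[k] K) (e : Bool ⊕ J → F) :
    f (x0 s e) = x0 s (fun i => f (e i)) ∧ f (y0 s e) = y0 s (fun i => f (e i)) := by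
  simp [x0, y0, qq, map_ofNat]

theorem tr_chi (f : F →ₐ[k] K) (e : Bool ⊕ J → F) (p : MvPolynomial (Bool ⊕ J) k) :
    f (chi s e p) = chi s (fun i => f (e i)) p := by
  have : f.comp (chi s e) = chi s (fun i => f (e i)) := by
    refine MvPolynomial.algHom_ext ?_
    rintro ((_ | _) | j) <;> simp [(tr_x0 f e).1, (tr_x0 f e).2]
  exact DFunLike.congr_fun this p

theorem tr_tau (f : F →ₐ[k] K) (e : Bool ⊕ J → F) (j : J) :
    f (tau s e a b j) = tau s (fun i => f (e i)) a b j := by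
  simp [tau, Nf, tr_chi]

theorem tr_XU (f : F →ₐ[k] K) (e : Bool ⊕ J → F) :
    XU k (fun i => f (e i)) U = (XU k e U).map f := by
  rw [XU, XU, adjoin_map, image_image]

theorem tr_con (f : F →ₐ[k] K) (e : Bool ⊕ J → F) :
    adjoin k (tau s (fun i => f (e i)) a b '' U) = (adjoin k (tau s e a b '' U)).map f := by
  rw [adjoin_map, image_image]
  simp only [tr_tau]

theorem tr_comap (f : F →ₐ[k] K) {e : Bool ⊕ J → F} {W : Subring K}
    (h : Good s (fun i => f (e i)) a b U W) : Good s e a b U (W.comap (f : F →+* K)) := by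
  have m : ∀ x ∈ XU k e U, f x ∈ XU k (fun i => f (e i)) U := fun x hx =>
    tr_XU f e ▸ ⟨x, hx, rfl⟩
  refine ⟨fun x hx => by simpa using h.val _ (m x hx),
    fun x hx => h.con _ (tr_con f e ▸ ⟨x, hx, rfl⟩), fun x hx hW => ?_, by simpa using h.eps⟩
  obtain ⟨h1, h2⟩ := h.ns _ (m x hx) hW
  exact ⟨fun h0 => h1 (by simpa using congrArg f h0), by simpa using h2⟩

theorem tr_map (f : F →ₐ[k] K) {e : Bool ⊕ J → F} {W : Subring F} (h : Good s e a b U W) :
    Good s (fun i => f (e i)) a b U (W.map (f : F →+* K)) := by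
  have m : ∀ x, f x ∈ W.map (f : F →+* K) ↔ x ∈ W := fun x =>
    ⟨fun ⟨y, hy, e⟩ => f.injective e ▸ hy, fun hx => ⟨x, hx, rfl⟩⟩
  refine ⟨?_, ?_, ?_, ?_⟩
  · rw [tr_XU]
    rintro _ ⟨x, hx, rfl⟩
    rw [show ((f : F →+* K) x) = f x from rfl, ← map_inv₀, m, m]
    exact h.val x hx
  · rw [tr_con]
    rintro _ ⟨x, hx, rfl⟩
    exact (m x).2 (h.con x hx)
  · rw [tr_XU]
    rintro _ ⟨x, hx, rfl⟩ hW
    obtain ⟨h1, h2⟩ := h.ns x hx ((m x).1 hW)
    have e1 : (f : F →+* K) x ^ 2 + (f : F →+* K) x + algebraMap k K s =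
        f (x ^ 2 + x + algebraMap k F s) := by simp
    rw [e1, ← map_inv₀, m]
    exact ⟨(map_ne_zero f).2 h1, h2⟩
  · rw [← map_inv₀, m]
    exact h.eps

theorem tr_chi_congr {e e' : Bool ⊕ J → K} (h : ∀ i ∈ sU U, e i = e' i)
    {p : MvPolynomial (Bool ⊕ J) k} (hp : p ∈ supported k (sU U)) : chi s e p = chi s e' p := by
  have h0 := h _ (inl_mem U false)
  have h1 := h _ (inl_mem U true)
  rw [supported_eq_adjoin_X] at hp
  induction hp using Algebra.adjoin_induction with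
  | mem x hx =>
    obtain ⟨i, hi, rfl⟩ := hx
    revert i
    refine forall_sU ?_ ?_ fun j hj => ?_
    · simp [x0, qq, h0, h1]
    · simp [y0, qq, h0, h1]
    · simp [h _ (inr_mem.2 hj)]
  | algebraMap c => rw [AlgHom.commutes, AlgHom.commutes]
  | add x y _ _ h1 h2 => rw [map_add, map_add, h1, h2]
  | mul x y _ _ h1 h2 => rw [map_mul, map_mul, h1, h2]

theorem tr_congr {e e' : Bool ⊕ J → K} (h : ∀ i ∈ sU U, e i = e' i) (hc : Closed a b U)
    {W : Subring K} (hW : Good s e a b U W) : Good s e' a b U W := by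
  have h1 : XU k e' U = XU k e U := by rw [XU, XU, image_congr h]
  have h2 : tau s e' a b '' U = tau s e a b '' U := image_congr fun j hj => by
    rw [tau, tau, tr_chi_congr h (hc j hj).1, tr_chi_congr h (hc j hj).2, h _ (inr_mem.2 hj)]
  exact ⟨h1 ▸ hW.val, h2 ▸ hW.con, h1 ▸ hW.ns, h _ (inl_mem U false) ▸ hW.eps⟩

end

universe u

theorem trans_stmt : TRANS.{u} := by
  intro hF k K J _ _ _ _ s hs hd e a b rk he hp U hc δ u hX hW heq
  classical
  obtain ⟨e0, h0⟩ : ∃ e0 : Bool ⊕ J → XU k e U, ∀ i ∈ sU (U : Set J), (XU k e U).val (e0 i) = e i := by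
    refine ⟨fun i => if h : e i ∈ XU k e U then ⟨e i, h⟩ else 0, fun i hi => ?_⟩
    have : e i ∈ XU k e U := subset_adjoin _ _ ⟨i, hi, rfl⟩
    simp only [this, dif_pos]
    rfl
  have top : ∀ y, y ∈ XU k e0 U := fun y => by
    have h1 : XU k (fun i => (XU k e U).val (e0 i)) U = XU k e U := by
      rw [XU, image_congr h0]; rfl
    obtain ⟨z, hz, e1⟩ : y.1 ∈ (XU k e0 U).map (XU k e U).val := by
      rw [← tr_XU, h1]; exact y.2
    exact (Subtype.ext e1 : z = y) ▸ hz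
  obtain ⟨i0, hi0⟩ : ∃ i0 : XU k e U →ₐ[k] AlgebraicClosure (XU k e U),
      ∀ y, i0 y = algebraMap _ _ y := ⟨IsScalarTower.toAlgHom k _ _, fun _ => rfl⟩
  have mem : ∀ y, i0 y ∈ XU k (fun i => i0 (e0 i)) U := fun y => tr_XU i0 e0 ▸ ⟨y, top y, rfl⟩
  have ind0 : AlgebraicIndepOn k e0 (sU U) := by
    refine AlgebraicIndependent.of_comp (XU k e U).val ?_
    have := he.comp (Subtype.val : sU (U : Set J) → _) Subtype.val_injective
    convert this using 1
    exact funext fun i => h0 i i.2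
  have H : Ctx s (fun i => i0 (e0 i)) a b rk U := by
    refine ⟨inferInstance, hs, hd, hp, hc, ind0.map' (f := i0) i0.injective, fun x => ?_⟩
    obtain ⟨p, p0, hx⟩ := Algebra.IsAlgebraic.isAlgebraic (R := XU k e U) x
    refine mem_cl.2 (alg_of_coeff _ (p.map (algebraMap _ _))
      ((Polynomial.map_ne_zero_iff (RingHom.injective _)).2 p0) (fun n => ?_) ?_)
    · rw [Polynomial.coeff_map, ← hi0]; exact mem _
    · rwa [Polynomial.eval_map, ← Polynomial.aeval_def]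
  have key : ∀ W, Good s (fun i => i0 (e0 i)) a b U W → ∀ i,
      i0 ⟨δ i, (hX i).1⟩ ∈ W ∧ i0 ⟨u i, (hX i).2⟩ ∈ W := fun W h i => by
    obtain ⟨⟨y, hy, e1⟩, z, hz, e2⟩ :=
      hW _ (tr_congr h0 hc (tr_map (XU k e U).val (tr_comap i0 h))) i
    exact ⟨(Subtype.ext e1 : y = ⟨δ i, (hX i).1⟩) ▸ hy, (Subtype.ext e2 : z = ⟨u i, (hX i).2⟩) ▸ hz⟩
  refine hF k _ J s _ a b rk U H _ _ _ _ (mem ⟨δ 0, (hX 0).1⟩) (mem ⟨δ 1, (hX 1).1⟩)
    (fun W h => ⟨(key W h 0).1, (key W h 1).1, (key W h 0).2, (key W h 1).2⟩) ?_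
  have e1 : ∀ c, chi s e (X (inl c)) = (XU k e U).val (chi s e0 (X (inl c))) := fun c => by
    rw [tr_chi]
    exact (tr_chi_congr h0 (X_mem_supported.2 (inl_mem _ c))).symm
  have e2 : (⟨u 0, (hX 0).2⟩ : XU k e U) * ((1 + chi s e0 (X (inl false))) * ⟨δ 0, (hX 0).1⟩ +
      chi s e0 (X (inl true)) * ⟨δ 1, (hX 1).1⟩) + ⟨u 1, (hX 1).2⟩ *
      ((chi s e0 (X (inl false)) + algebraMap k _ s * chi s e0 (X (inl true))) * ⟨δ 0, (hX 0).1⟩ +
        (1 - chi s e0 (X (inl false))) * ⟨δ 1, (hX 1).1⟩) = 1 := by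
    apply (XU k e U).val.injective
    simp only [map_add, map_mul, map_sub, map_one, AlgHom.commutes, AlgHom.toRingHom_eq_coe,
      RingHom.coe_coe, ← e1]
    simpa [Mx, dotProduct, Matrix.mulVec, Fin.sum_univ_two] using heq
  have e3 := congrArg i0 e2
  simp only [map_add, map_mul, map_sub, map_one, AlgHom.commutes, chi_false,
    chi_true, (tr_x0 i0 e0).1, (tr_x0 i0 e0).2] at e3
  exact e3

end Pool.Agent.MP_2023ef_al.H5
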