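import Pool.Agent.MP_2023ef_al.h5.Fin
import Pool.Agent.MP_2023ef_al.h5.Trans
import Pool.Agent.MP_2023ef_al.h5.Ring
import Pool.Agent.MP_2023ef_al.h5.Idx
import Pool.Agent.MP_2023ef_al.h5.Dim

/-! The assembly. -/

namespace Pool.Agent.MP_2023ef_al.H5

universe u

theorem main : MAIN.{u} :=
  ring_stmt (trans_stmt flc_stmt) idx_stmt clo_stmt diag_stmt low_stmt dim_stmt

end Pool.Agent.MP_2023ef_al.H5
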