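import Pool.Agent.MP_2023ef_al.h5.Base

/-! The generators are units at the nonsplit places of the generic fibre. -/

namespace Pool.Agent.MP_2023ef_al.H5

open Sum Set MvPolynomial IntermediateField

variable {k Ω J Γ : Type*} [Field k] [Field Ω] [Algebra k Ω] [LinearOrderedCommGroupWithZero Γ]
  (V : Valuation Ω Γ)

theorem gammaV {X : IntermediateField k Ω} {s : k} (hs : s ≠ 0) (hk : ∀ c, V (algebraMap k Ω c) ≤ 1)
    (hn : ∀ x ∈ X, 1 ≤ V (x ^ 2 + x + algebraMap k Ω s)) {α β : Ω} (ha : α ∈ X) (hb : β ∈ X)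
    (h0 : α ≠ 0 ∨ β ≠ 0) : ∃ m, (m = α ∨ m = β) ∧ m ≠ 0 ∧ V α ≤ V m ∧ V β ≤ V m ∧
      V (Nf (algebraMap k Ω s) α β) = V m ^ 2 ∧
      ∀ g ∈ X, ∀ τ, V τ = 1 → g * (g + α) = τ * Nf (algebraMap k Ω s) α β → V g = V m := by
  obtain ⟨m, h1, h2, h3, h4, h5, h6, h7⟩ := gamma s (W := V.valuationSubring.toSubring) hs hk
    (fun x _ => V.valuationSubring.mem_or_inv_mem x) (fun x hx _ =>
      ⟨V.pos_iff.1 (zero_lt_one.trans_le (hn x hx)), show V _ ≤ 1 by
        rw [map_inv₀]; exact inv_le_one_of_one_le₀ (hn x hx)⟩) ha hb h0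
  have d : ∀ {x y : Ω}, y ≠ 0 → x / y ∈ V.valuationSubring.toSubring → V x ≤ V y := fun y0 h => by
    rwa [← div_le_one₀ (V.pos_iff.2 y0), ← map_div₀]
  have h3 := d h2 h3
  have h4 := d h2 h4
  refine ⟨m, h1, h2, h3, h4, le_antisymm ?_ (map_pow V m 2 ▸ d h5 h6), fun g hg τ t e => ?_⟩
  · refine V.map_add_le (V.map_add_le ?_ ?_) ?_
    · rw [map_pow]; exact pow_le_pow_left₀ zero_le h3 2
    · rw [map_mul, sq]; exact mul_le_mul' h3 h4
    · rw [map_mul, map_pow]
      exact (mul_le_of_le_one_left' (hk s)).trans (pow_le_pow_left₀ zero_le h4 2)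
  · obtain ⟨g0, g1, g2⟩ := h7 g hg τ t.le (V.ne_zero_iff.1 (t ▸ one_ne_zero))
      (show V _ ≤ 1 by rw [map_inv₀, t, inv_one]) e
    exact (d h2 g1).antisymm (d g0 g2)

theorem height_two {σ ι : Type*} [Finite σ] [Finite ι] {x : σ → Ω} (hx : AlgebraicIndependent k x)
    (h1 : ∀ p : MvPolynomial σ k, V (aeval x p) ≤ 1) {a b : MvPolynomial σ k} (a0 : a ≠ 0)
    (hr : IsRelPrime a b) (ha : V (aeval x a) < 1) (hb : V (aeval x b) < 1) {z : ι → Ω}
    (hz : ∀ i, ∃ p d : MvPolynomial σ k, V (aeval x d) = 1 ∧ z i * aeval x d = aeval x p)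
    (hi : ∀ p : MvPolynomial ι k, V (aeval z p) < 1 → p = 0) : Nat.card ι + 2 ≤ Nat.card σ := by
  have inj : Function.Injective (aeval x : MvPolynomial σ k →ₐ[k] Ω) := hx
  have mu : ∀ {d d' : MvPolynomial σ k}, V (aeval x d) = 1 → V (aeval x d') = 1 →
      V (aeval x (d * d')) = 1 := fun h h' => by rw [map_mul, map_mul, h, h', one_mul]
  obtain ⟨π, p1, p2, p3⟩ : ∃ π, Prime π ∧ π ∣ a ∧ V (aeval x π) < 1 := by
    clear hr
    induction a using UniqueFactorizationMonoid.induction_on_prime with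
    | h₁ => exact absurd rfl a0
    | h₂ u hu =>
      obtain ⟨w, hw⟩ := hu.exists_right_inv
      have := congrArg (fun p => V (aeval x p)) hw
      simp only [map_mul, map_one] at this
      exact absurd this ((mul_le_of_le_one_right' (h1 w)).trans_lt ha).ne
    | h₃ c p c0 hp ih =>
      by_cases e : V (aeval x p) < 1
      · exact ⟨p, hp, dvd_mul_right _ _, e⟩
      rw [map_mul, map_mul, (h1 p).antisymm (not_lt.1 e), one_mul] at ha
      obtain ⟨π, p1, p2, p3⟩ := ih c0 ha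
      exact ⟨π, p1, p2.mul_left _, p3⟩
  let A : Subalgebra k Ω :=
    { carrier := {u | ∃ p d : MvPolynomial σ k, V (aeval x d) = 1 ∧ u * aeval x d = aeval x p}
      mul_mem' := by
        rintro u w ⟨p, d, h, e⟩ ⟨p', d', h', e'⟩
        exact ⟨p * p', d * d', mu h h', by rw [map_mul, map_mul, ← e, ← e']; ring⟩
      add_mem' := by
        rintro u w ⟨p, d, h, e⟩ ⟨p', d', h', e'⟩
        exact ⟨p * d' + p' * d, d * d', mu h h', by
          simp only [map_mul, map_add, ← e, ← e']; ring⟩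
      algebraMap_mem' c := ⟨C c, 1, by simp, by simp⟩ }
  have mA : ∀ p, aeval x p ∈ A := fun p => ⟨p, 1, by simp, by simp⟩
  have vA : ∀ u : A, V u ≤ 1 := by
    rintro ⟨u, p, d, h, e⟩
    simpa [← e, h] using h1 p
  let I : Ideal A :=
    { carrier := {u | V u < 1}
      add_mem' := V.map_add_lt
      zero_mem' := by simp
      smul_mem' c u h := show V (c * u) < 1 by
        rw [map_mul]; exact (mul_le_of_le_one_left' (vA c)).trans_lt h }
  have key : ∀ (u : A) (p d : MvPolynomial σ k), V (aeval x d) = 1 → u * aeval x d = aeval x p →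
      (u ∈ Ideal.span {(⟨_, mA π⟩ : A)} ↔ π ∣ p) := fun u p d h e => by
    have d0 : aeval x d ≠ 0 := V.ne_zero_iff.1 (h ▸ one_ne_zero)
    rw [Ideal.mem_span_singleton]
    refine ⟨?_, ?_⟩
    · rintro ⟨⟨w, p', d', h', e'⟩, rfl⟩
      have : π ∣ p * d' := ⟨p' * d, inj (by
        simp only [map_mul, ← e, ← e', MulMemClass.coe_mul]; ring)⟩
      refine (p1.dvd_or_dvd this).resolve_right ?_
      rintro ⟨c, rfl⟩
      rw [map_mul, map_mul] at h'
      exact ((mul_le_of_le_one_right' (h1 c)).trans_lt p3).ne h'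
    · rintro ⟨c, rfl⟩
      refine ⟨⟨aeval x c / aeval x d, c, d, h, div_mul_cancel₀ _ d0⟩, Subtype.ext ?_⟩
      simp [← mul_div_assoc, ← map_mul, ← e, d0]
  have le : Ideal.span {(⟨_, mA π⟩ : A)} ≤ I := (Ideal.span_singleton_le_iff_mem _).2 p3
  have pr : (Ideal.span {(⟨_, mA π⟩ : A)}).IsPrime := by
    refine ⟨fun h => ?_, fun {u w} h => ?_⟩
    · simpa [I] using le ((Ideal.eq_top_iff_one _).1 h)
    · obtain ⟨p, d, h1, e⟩ := u.2
      obtain ⟨p', d', h2, e'⟩ := w.2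
      rw [key u p d h1 e, key w p' d' h2 e']
      exact p1.dvd_or_dvd ((key _ _ _ (mu h1 h2) (by
        simp only [map_mul, ← e, ← e', MulMemClass.coe_mul]; ring)).1 h)
  have i0 : IndMod k I fun i => (⟨z i, hz i⟩ : A) := fun p hp => hi p (by
    have : A.val (aeval (fun i => (⟨z i, hz i⟩ : A)) p) = aeval z p := by
      rw [← AlgHom.comp_apply, comp_aeval]; rfl
    exact this ▸ hp)
  have i1 := (i0.option pr le (w := ⟨_, mA b⟩) hb fun h =>
    p1.not_isUnit (hr p2 ((key _ b 1 (by simp) (by simp)).1 h))).option Ideal.isPrime_bot bot_le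
    (Ideal.mem_span_singleton_self _) fun h =>
      p1.ne_zero (inj ((congrArg Subtype.val (Ideal.mem_bot.1 h)).trans (map_zero _).symm))
  have := count_le (i1.indep.map' (f := A.val) Subtype.val_injective) (x := x) fun o => by
    generalize_proofs
    refine adjoin_le_cl _ ?_
    obtain ⟨p, d, h, e⟩ := (Option.elim o ⟨_, mA π⟩
      fun o : Option ι => o.elim ⟨_, mA b⟩ fun i => (⟨z i, hz i⟩ : A)).2
    exact (mem_adjoin_range_iff _ _ _).2
      ⟨p, d, eq_div_of_mul_eq (V.ne_zero_iff.1 (h ▸ one_ne_zero)) e⟩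
  rwa [Finite.card_option, Finite.card_option] at this

variable {s : k} {e : Bool ⊕ J → Ω} {a b : J → MvPolynomial (Bool ⊕ J) k} {U : Finset J}
  {rk : J → ℕ} (H : Ctx s e a b rk U)
include H

theorem Ctx.s_ne : s ≠ 0 := by simpa using H.hs 0

theorem Ctx.xy (hk : ∀ c, V (algebraMap k Ω c) ≤ 1)
    (hn : ∀ x ∈ XU k e U, 1 ≤ V (x ^ 2 + x + algebraMap k Ω s)) :
    V (x0 s e) ≤ 1 ∧ V (y0 s e) ≤ 1 := by
  have m := x0_mem s (XU k e U) (subset_adjoin _ _ ⟨_, inl_mem _ true, rfl⟩)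
  have n := Nf_unit s (qq_ne s (H.ind.transcendental ⟨_, inl_mem _ true⟩))
  obtain ⟨m, -, -, h1, h2, h3, -⟩ := gammaV V H.s_ne hk hn m.1 m.2 (by
    by_contra c
    push Not at c
    simp [c.1, c.2, Nf] at n)
  rw [n, map_one, eq_comm, pow_eq_one_iff_of_nonneg zero_le two_ne_zero] at h3
  exact ⟨h3 ▸ h1, h3 ▸ h2⟩

theorem Ctx.units (hF : ∀ c ∈ FF s e a b U, c ≠ 0 → V c = 1)
    (hn : ∀ x ∈ XU k e U, 1 ≤ V (x ^ 2 + x + algebraMap k Ω s)) : ∀ j ∈ U, V (e (inr j)) = 1 := by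
  classical
  have hF' : ∀ c ∈ FF s e a b U, V c ≤ 1 := fun c hc => by
    by_cases c0 : c = 0
    · simp [c0]
    · exact (hF c hc c0).le
  have hk : ∀ c, V (algebraMap k Ω c) ≤ 1 := fun c => hF' _ (IntermediateField.algebraMap_mem _ c)
  have mr : 1 + e (inl false) ∈ FF s e a b U := add_mem (one_mem _) eps_mem
  have eX : ∀ i ∈ sU (U : Set J), e i ∈ XU k e U := fun i hi => subset_adjoin _ _ ⟨i, hi, rfl⟩
  have iz := (H.fam_ind (p := (1 + e (inl false)) ^ 2) (cl_quad (ofNat_mem _ 2)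
    (sub_mem (one_mem _) (subset_cl ⟨_, inl_mem _ false, rfl⟩)) (by simp; ring))
    (subset_cl ⟨_, inl_mem _ true, rfl⟩) fun _ _ => Or.inr (Or.inl rfl)).1
  suffices ∀ j ∈ U, V (e (inr j)) = 1 ∧
      V (Nf (algebraMap k Ω s) (chi s e (a j)) (chi s e (b j))) = 1 from fun j hj => (this j hj).1
  refine H.induct (P := fun S => ∀ j ∈ S, V (e (inr j)) = 1 ∧ V (Nf _ (chi s e (a j))
    (chi s e (b j))) = 1) (by simp) fun S j hj hS hc _ ha hb ih => ?_
  refine Finset.forall_mem_insert _ _ _ |>.2 ⟨?_, ih⟩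
  have hS' : (S : Set J) ⊆ U := (Finset.subset_insert _ _).trans hS
  have jU : j ∈ U := hS (Finset.mem_insert_self _ _)
  have a0 := chi_ne s U.finite_toSet H.ind (H.clo j jU).1 (H.pa.ne j)
  obtain ⟨m, m1, m2, m3, m4, m5, m6⟩ := gammaV V H.s_ne hk hn (chi_mem' s _ eX (H.clo j jU).1)
    (chi_mem' s _ eX (H.clo j jU).2) (Or.inl a0)
  have g0 : e (inr j) ≠ 0 := H.ind.ne_zero ⟨_, inr_mem.2 jU⟩
  have le : ∀ p ∈ supported k (sU (S : Set J)), V (chi s e p) ≤ 1 := fun p hp =>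
    chi_mem s V.valuationSubring.toSubring hk (mul_mem (hF' _ mr) (H.xy V hk hn).1)
      (mul_mem (hF' _ mr) (H.xy V hk hn).2) (fun l hl => (ih l hl).1.le) hp
  suffices V m = 1 from ⟨(m6 _ (eX _ (inr_mem.2 jU)) _ (hF _ (tau_mem_FF jU)
    (iz.ne_zero ⟨_, inr_mem.2 jU⟩)) (H.tau_mul jU)).trans this, by rw [m5, this, one_pow]⟩
  refine (m1.elim (· ▸ le _ ha) (· ▸ le _ hb)).eq_of_not_lt fun l => ?_
  have := (sU_finite S.finite_toSet).to_subtype
  have sp : ∀ p ∈ supported k (sU (S : Set J)), ∃ q : MvPolynomial (sU (S : Set J)) k,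
      rename Subtype.val q = p := fun p hp => by rwa [supported_eq_range_rename] at hp
  have ch : ∀ q : MvPolynomial (sU (S : Set J)) k, aeval (fun i : sU (S : Set J) =>
      fam ((1 + e (inl false)) * x0 s e) ((1 + e (inl false)) * y0 s e) (fun j => e (inr j)) i) q =
      chi s e (rename Subtype.val q) := fun q => (aeval_rename _ _ _).symm
  obtain ⟨a', ea⟩ := sp _ ha
  obtain ⟨b', eb⟩ := sp _ hb
  have := height_two V (chi_ind s S.finite_toSet (H.ind.mono (sU_mono hS')))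
    (fun p => ch p ▸ le _ (supported_eq_range_rename (R := k) _ ▸ ⟨p, rfl⟩)) (a := a') (b := b')
    (fun h => H.pa.ne j (by rw [← ea, h, map_zero]))
    (fun d h1 h2 => killCompl_rename_app Subtype.val_injective d ▸
      (H.pa.rel j (ea ▸ map_dvd _ h1) (eb ▸ map_dvd _ h2)).map _)
    (by rw [ch, ea]; exact m3.trans_lt l) (by rw [ch, eb]; exact m4.trans_lt l)
    (z := fun i : ↥(sU (S : Set J) \ {inl true}) =>
      fam ((1 + e (inl false)) ^ 2) (e (inl true)) (tau s e a b) i) ?_ fun p hp => ?_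
  · rw [Nat.card_coe_set_eq, Nat.card_coe_set_eq,
      ← ncard_sdiff_singleton_add_one (inl_mem (S : Set J) true) (sU_finite S.finite_toSet)] at this
    omega
  · have nf : ∀ p ∈ supported k (sU (S : Set J)), ∀ q ∈ supported k (sU (S : Set J)),
        Nf (C s) p q ∈ supported k (sU (S : Set J)) := fun p hp q hq => add_mem
      (add_mem (pow_mem hp 2) (mul_mem hp hq)) (mul_mem (Subalgebra.algebraMap_mem _ s) (pow_mem hq 2))
    rintro ⟨(_ | _) | l, hl⟩
    · obtain ⟨p, hp⟩ := sp _ (nf _ (X_mem_supported.2 (inl_mem _ false)) _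
        (X_mem_supported.2 (inl_mem _ true)))
      refine ⟨p, 1, by simp, ?_⟩
      have n := Nf_unit s (qq_ne s (H.ind.transcendental ⟨_, inl_mem _ true⟩))
      rw [ch p, hp, chi_Nf, map_one, chi_false, chi_true, fam_false]
      unfold Nf at n ⊢
      linear_combination (-(1 + e (inl false)) ^ 2) * n
    · exact absurd rfl hl.2
    · have hl : l ∈ S := inr_mem.1 hl.1
      have x := X_mem_supported (R := k).2 (inr_mem.2 (show l ∈ (S : Set J) from hl))
      obtain ⟨p, hp⟩ := sp _ (mul_mem x (add_mem x (hc l hl).1))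
      obtain ⟨d, hd⟩ := sp _ (nf _ (hc l hl).1 _ (hc l hl).2)
      refine ⟨p, d, by rw [ch, hd, chi_Nf, (ih l hl).2], ?_⟩
      rw [ch, ch, hp, hd, chi_Nf, map_mul, map_add, chi_inr, H.tau_mul (hS' hl), fam_inr]
  · by_contra p0
    refine hp.ne (hF _ ?_ fun h => p0 (algebraicIndependent_iff.1
      (iz.mono (sdiff_subset.trans (sU_mono hS'))) p h))
    refine (Algebra.adjoin_le (S := (FF s e a b U).toSubalgebra) ?_)
      ((Algebra.adjoin_range_eq_range_aeval k _).ge ⟨p, rfl⟩)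
    rintro _ ⟨⟨(_ | _) | l, hl⟩, rfl⟩
    exacts [pow_mem mr 2, absurd rfl hl.2, tau_mem_FF (hS' (inr_mem.1 hl.1))]

end Pool.Agent.MP_2023ef_al.H5
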