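import Pool.Agent.MP_2023ef_al.h5.Rec
import Pool.Agent.MP_2023ef_al.h5.Unit

/-! The parity computation. -/

namespace Pool.Agent.MP_2023ef_al.H5

open Sum Set Polynomial IntermediateField Function WithZero

variable {k Ω J ι : Type*} [Field k] [Field Ω] [Algebra k Ω] [LinearOrder ι] [Fintype ι]
  {s : k} {e : Bool ⊕ J → Ω} {a b : J → MvPolynomial (Bool ⊕ J) k} {U : Finset J} {rk : J → ℕ}

theorem val_sub_aeval {Γ : Type*} [LinearOrderedCommGroupWithZero Γ] (V : Valuation Ω Γ)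
    {F : IntermediateField k Ω} (hF : ∀ c ∈ F, V c ≤ 1) {t c : Ω} (ht : V t ≤ 1) (hc : c ∈ F)
    (h : V (t - c) < 1) (p : F[X]) : V (aeval t p - aeval c p) < 1 := by
  induction p using Polynomial.induction_on with
  | C a => simp
  | add p q hp hq =>
    rw [map_add, map_add, add_sub_add_comm]
    exact V.map_add_lt hp hq
  | monomial n a ih =>
    rw [pow_succ, ← mul_assoc]
    generalize C a * X ^ n = p at ih
    rw [show aeval t (p * X) - aeval c (p * X) = (aeval t p - aeval c p) * t + aeval c p * (t - c) by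
      simp; ring]
    refine V.map_add_lt ?_ ?_ <;> rw [map_mul]
    · exact (mul_le_of_le_one_right' ht).trans_lt ih
    · exact (mul_le_of_le_one_left' (hF _ (aev_mem le_rfl hc p))).trans_lt h

theorem Ctx.hval (H : Ctx s e a b rk U) {Γ Γ' : Type*} [LinearOrderedCommGroupWithZero Γ]
    [LinearOrderedCommGroupWithZero Γ'] (V : Valuation Ω Γ) (W : Valuation Ω Γ')
    (hm : ∀ x y, W x ≤ W y → V x ≤ V y) (h1 : ∀ x ∈ adjoin k (tau s e a b '' U), W x ≤ 1)
    (h2 : ∀ x ∈ XU k e U, 1 ≤ W (x ^ 2 + x + algebraMap k Ω s)) (h3 : W (e (inl false)) < 1)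
    {δ δ' u u' : Ω} (hW : ∀ W, Good s e a b U W → δ ∈ W ∧ δ' ∈ W ∧ u ∈ W ∧ u' ∈ W)
    (h : u * ((1 + (1 + e (inl false)) * x0 s e) * δ + (1 + e (inl false)) * y0 s e * δ') +
      u' * (((1 + e (inl false)) * x0 s e + algebraMap k Ω s * ((1 + e (inl false)) * y0 s e)) * δ +
        (1 - (1 + e (inl false)) * x0 s e) * δ') = 1) :
    V (δ + e (inl true) * δ') = max 1 (V (e (inl true))) := by
  have hk : ∀ c, W (algebraMap k Ω c) ≤ 1 := fun c => h1 _ (IntermediateField.algebraMap_mem _ c)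
  have e0 : e (inl false) ≠ 0 := H.ind.ne_zero ⟨_, inl_mem _ false⟩
  obtain ⟨d1, d2, d3, d4⟩ := hW W.valuationSubring.toSubring
    ⟨fun x _ => W.valuationSubring.mem_or_inv_mem x, h1, fun x hx _ =>
      ⟨W.pos_iff.1 (zero_lt_one.trans_le (h2 x hx)), show W _ ≤ 1 by
        rw [map_inv₀]; exact inv_le_one_of_one_le₀ (h2 x hx)⟩, fun h => by
      have h : W _ ≤ 1 := h
      rw [map_inv₀, inv_le_one₀ (W.pos_iff.2 e0)] at h
      exact h.not_gt h3⟩
  obtain ⟨x1, y1⟩ := H.xy W hk h2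
  have q0 := qq_ne s (H.ind.transcendental ⟨_, inl_mem _ true⟩)
  have m : ∀ {x}, x ∈ W.valuationSubring.toSubring → V x ≤ 1 := fun h => by
    simpa using hm _ 1 (by simpa using h)
  have w : u * (x0 s e * δ + y0 s e * δ') + u' * ((x0 s e + algebraMap k Ω s * y0 s e) * δ -
      x0 s e * δ') ∈ W.valuationSubring.toSubring :=
    add_mem (mul_mem d3 (add_mem (mul_mem x1 d1) (mul_mem y1 d2))) (mul_mem d4
      (sub_mem (mul_mem (add_mem x1 (mul_mem (hk s) y1)) d1) (mul_mem x1 d2)))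
  have e1 : (δ + e (inl true) * δ') * (u * (2 + e (inl true)) + u' * (1 + 2 * algebraMap k Ω s *
      e (inl true))) = qq s e * (1 - e (inl false) * (u * (x0 s e * δ + y0 s e * δ') +
        u' * ((x0 s e + algebraMap k Ω s * y0 s e) * δ - x0 s e * δ'))) := by
    have a1 : qq s e * x0 s e = 1 - algebraMap k Ω s * e (inl true) ^ 2 := mul_div_cancel₀ _ q0
    have a2 : qq s e * y0 s e = e (inl true) * (2 + e (inl true)) := mul_div_cancel₀ _ q0
    have a3 : qq s e = 1 + e (inl true) + algebraMap k Ω s * e (inl true) ^ 2 := rfl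
    linear_combination (qq s e) * h - (u * δ + u' * δ - u' * δ') * a1 -
      (u * δ' + u' * algebraMap k Ω s * δ) * a2 - (u * δ + u' * δ') * a3
  have e2 := W.map_one_sub_of_lt (x := e (inl false) * _)
    (by rw [map_mul]; exact (mul_le_of_le_one_right' w).trans_lt h3)
  have e3 := congrArg V e1
  rw [map_mul, map_mul, (hm _ 1 (e2.trans W.map_one.symm).le).antisymm
    (hm 1 _ (e2.trans W.map_one.symm).ge), map_one, mul_one] at e3
  obtain ⟨n, n1, -, n2, n3, n4, -⟩ := gammaV V H.s_ne (fun c => m (hk c))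
    (fun x hx => by simpa using hm 1 _ (by simpa using h2 x hx)) (one_mem (XU k e U))
    (subset_adjoin _ _ ⟨_, inl_mem _ true, rfl⟩) (Or.inl one_ne_zero)
  have n5 : V n = max 1 (V (e (inl true))) :=
    le_antisymm (by rcases n1 with rfl | rfl <;> simp) (max_le (by simpa using n2) n3)
  rw [show Nf (algebraMap k Ω s) 1 (e (inl true)) = qq s e by simp [Nf, qq], n5, ← e3] at n4
  have lin : ∀ x ∈ W.valuationSubring.toSubring, ∀ y ∈ W.valuationSubring.toSubring,
      V (x + e (inl true) * y) ≤ max 1 (V (e (inl true))) := fun x hx y hy =>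
    V.map_add_le ((m hx).trans (le_max_left _ _)) (by
      rw [map_mul]; exact (mul_le_of_le_one_right' (m hy)).trans (le_max_right _ _))
  refine (lin _ d1 _ d2).eq_of_not_lt fun l => n4.not_lt ?_
  have := lin _ (add_mem (mul_mem d3 (ofNat_mem _ 2)) d4) _
    (add_mem d3 (mul_mem d4 (mul_mem (ofNat_mem _ 2) (hk s))))
  rw [show u * (2 + e (inl true)) + u' * (1 + 2 * algebraMap k Ω s * e (inl true)) =
    u * 2 + u' + e (inl true) * (u + u' * (2 * algebraMap k Ω s)) by ring, sq]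
  exact mul_lt_mul_of_lt_of_le_of_nonneg_of_pos l this zero_le (lt_max_of_lt_left zero_lt_one)

theorem tup_mem (S : Finset J) {y : Ω} (hy : y ∈ XS s e a b U S) (i : sU (U : Set J)) :
    fam (e (inl false))⁻¹ y (gam s e a b S) i ∈ XS s e a b U S :=
  forall_sU (p := fun i => fam (e (inl false))⁻¹ y (gam s e a b S) i ∈ XS s e a b U S)
    (inv_mem (gen_mem S (inl_mem _ false))) hy (fun _ hj => gen_mem S (inr_mem.2 hj)) i i.2

theorem Ctx.tup_ne (H : Ctx s e a b rk U) (S : Finset J) {y : Ω} (hy : y ≠ 0) (i : sU (U : Set J)) :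
    fam (e (inl false))⁻¹ y (gam s e a b S) i ≠ 0 :=
  forall_sU (p := fun i => fam (e (inl false))⁻¹ y (gam s e a b S) i ≠ 0)
    (inv_ne_zero (H.ind.ne_zero ⟨_, inl_mem _ false⟩)) hy (fun j hj => (H.fam_ind
      (subset_cl ⟨_, inl_mem _ false, rfl⟩) (subset_cl ⟨_, inl_mem _ true, rfl⟩) fun l _ => by
        unfold gam; split_ifs <;> simp).1.ne_zero ⟨_, inr_mem.2 hj⟩) i i.2

variable {ix : ι ≃ sU (U : Set J)} {r : (FF s e a b U)[X]} {v : Valuation Ω (Gm ι)}

theorem VD.var (hv : VD ix r v) (i : sU (U : Set J)) :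
    lg v (fam (e (inl false))⁻¹ (wr r) (tau s e a b) i) = Pi.single (ix.symm i) 1 := by
  simpa using lg_var hv (ix.symm i)

theorem first_val (v : Valuation Ω (Gm ι)) {i : ι} (h : ∀ j, i ≤ j) :
    ∃ w : Valuation Ω (WithZero (Multiplicative ℚ)), (∀ x, x ≠ 0 → w x = exp (lg v x i)) ∧
      ∀ x y, v x ≤ v y → w x ≤ w y :=
  coarse v (Pi.evalAddMonoidHom _ i) fun _ _ l =>
    Pi.apply_le_of_toLex l fun j hj => absurd (h j) hj.not_ge

variable [IsAlgClosed Ω] (H : Ctx s e a b rk U) (hr : r.Monic) (hv : VD ix r v)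
  (h0 : ∀ i, iT ix true ≤ i)
include H hr hv h0

omit [IsAlgClosed Ω] in
theorem Ctx.first : ∃ w : Valuation Ω (WithZero (Multiplicative ℚ)),
    (∀ x, x ≠ 0 → w x = exp (lg v x (iT ix true))) ∧ (∀ x y, v x ≤ v y → w x ≤ w y) ∧
      (∀ x ∈ FF s e a b U, x ≠ 0 → w x = 1) ∧ w (wr r) = exp 1 := by
  obtain ⟨w, w1, w2⟩ := first_val v h0
  refine ⟨w, w1, w2, fun x hx x0 => ?_, ?_⟩
  · rw [w1 x x0, hv.first (c := x) (isAlgebraic_algebraMap (⟨x, hx⟩ : FF s e a b U)) x0, exp_zero]
  · rw [w1 (wr r) ((H.indE hr).1.ne_zero ⟨_, inl_mem _ true⟩)]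
    simpa using congrFun (hv.var ⟨_, inl_mem _ true⟩) (iT ix true)

theorem Ctx.psi {c : k} (hc : aeval (algebraMap k Ω c) r ≠ 0) :
    Lam v (fun (φ : Emb (EE r) (XS s e a b U U)) x => φ.1 x) (fun i => ⟨_, tup_mem U (sub_mem
      (IntermediateField.algebraMap_mem _ c) (gen_mem U (inl_mem _ true))) (ix i)⟩) - 1 ∈ E2 := by
  classical
  have c0 : algebraMap k Ω c - e (inl true) ≠ 0 := fun h =>
    H.ind.transcendental ⟨_, inl_mem _ true⟩ (sub_eq_zero.1 h ▸ isAlgebraic_algebraMap c)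
  refine H.induct (P := fun S => Lam v (fun (φ : Emb (EE r) (XS s e a b U S)) x => φ.1 x)
    (fun i => ⟨_, tup_mem S (sub_mem (IntermediateField.algebraMap_mem _ c)
      (gen_mem S (inl_mem _ true))) (ix i)⟩) - 1 ∈ E2) ?_ fun S j hj hS c1 c2 ha hb ih => ?_
  · have := (H.pack hr hv U.empty_subset closed_empty).1
    obtain ⟨w, w1, -, wF, ww⟩ := H.first hr hv h0
    have mc := IntermediateField.algebraMap_mem (FF s e a b U) c
    have l : (1 : WithZero (Multiplicative ℚ)) < exp 1 := by rw [← exp_zero, exp_lt_exp]; simp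
    have wp : w ((pr r).eval (algebraMap k Ω c)) = exp 1 := by
      have : w ((algebraMap k Ω c - wr r) * aeval (algebraMap k Ω c) r) = exp 1 := by
        rw [map_mul, wF _ (aev_mem le_rfl mc r) hc, mul_one, w.map_sub_eq_of_lt_right, ww]
        by_cases c0 : algebraMap k Ω c = 0
        · simp [c0, ww]
        · rwa [wF _ mc c0, ww]
      rw [pr_eval, w.map_add_eq_of_lt_left (by rwa [this, map_one]), this]
    have p0 := w.ne_zero_iff.1 (wp ▸ exp_ne_zero)
    let I : ι → ι → ℚ := fun i => Pi.single i 1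
    have := H.base hr (fun y => dt (update I (iT ix true) (lg v y)))
      (fun x y x0 y0 => by rw [lg_mul v _ _ x0 y0, dt_add]) p0
    rw [dt_same I _ _ (I (iT ix true)) (fun j hj => Pi.single_eq_of_ne' hj _)
      (by simpa [w1 _ p0, I] using wp), update_eq_self, show dt I = 1 from
        (congrArg Matrix.det (by ext i j; simp [I, Matrix.one_apply, Pi.single_apply, eq_comm])).trans
          Matrix.det_one] at this
    refine (congrArg (· ∈ E2) (sub_eq_zero.2
      ((finsum_congr fun φ => congrArg dt (funext fun i => ?_)).trans this))).mpr E2.zero_mem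
    obtain ⟨⟨(_ | _) | j, hi⟩, rfl⟩ := ix.symm.surjective i
    · rw [update_of_ne (by simp)]
      refine (congrArg (lg v) ((φ.2 _ ?_).trans ?_)).trans (hv.var ⟨_, hi⟩)
      · simpa using FF_le_EE r eps_mem
      · simp
    · rw [update_self]
      exact congrArg (lg v) ((congrArg φ.1 (Subtype.ext (by simp))).trans
        ((map_sub φ.1 (algebraMap k _ c) ⟨_, gen_mem ∅ hi⟩).trans (by rw [φ.1.commutes])))
    · rw [update_of_ne (by simp)]
      refine (congrArg (lg v) ((φ.2 _ ?_).trans ?_)).trans (hv.var ⟨_, hi⟩)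
      · simpa [gam] using FF_le_EE r (tau_mem_FF (inr_mem.1 hi))
      · simp [gam]
  have hS' := (Finset.subset_insert _ _).trans hS
  have jU : j ∈ U := hS (Finset.mem_insert_self _ _)
  obtain ⟨le, f, g, α, β, g1, a1, b0, b1, hc, hg, cg, ne, gen⟩ := H.step hj hS c2 ha hb
  obtain ⟨fin, m, m1, m2⟩ := H.pack hr hv hS' c1
  let l := ix.symm ⟨_, inr_mem.2 jU⟩
  have key : ∀ i, i ≠ l → fam (e (inl false))⁻¹ (algebraMap k Ω c - e (inl true))
      (gam s e a b (insert j S)) (ix i) = fam (e (inl false))⁻¹ (algebraMap k Ω c - e (inl true))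
        (gam s e a b S) (ix i) := fun i hi => by
    obtain ⟨⟨c | n, h⟩, rfl⟩ := ix.symm.surjective i
    · simp [fam]
    · have : n ≠ j := by rintro rfl; exact hi rfl
      simp [gam, this]
  set t : ι → XS s e a b U S := fun i => ⟨_, tup_mem S (sub_mem
    (IntermediateField.algebraMap_mem _ c) (gen_mem S (inl_mem _ true))) (ix i)⟩ with ht
  have t0 : ∀ i, t i ≠ 0 := fun i h => H.tup_ne S c0 _ (congrArg Subtype.val h)
  obtain ⟨w, w1, w2, w3⟩ := Lam_step v le (EE_le_XS hS' c1 r) f hc a1 b1 hg cg ne gen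
    (fun i => ⟨_, tup_mem _ (sub_mem (IntermediateField.algebraMap_mem _ c)
      (gen_mem _ (inl_mem _ true))) (ix i)⟩) l (fun h => H.tup_ne _ c0 _ (congrArg Subtype.val h))
    fun i hi => (congrArg (· ∈ XS s e a b U S) (key i hi)).mpr (t i).2
  let α' : XS s e a b U S := ⟨_, chi_mem' s _ (e_mem hS') ha⟩
  let β' : XS s e a b U S := ⟨_, chi_mem' s _ (e_mem hS') hb⟩
  have n0 : -Nf (algebraMap k _ s) α' β' ≠ 0 :=
    neg_ne_zero.2 fun h => H.n_ne jU (congrArg Subtype.val h)
  have e1 : w = update t l (t l * -Nf (algebraMap k _ s) α' β') := funext fun i => by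
    by_cases e : i = l
    · rw [e, update_self]
      refine Subtype.ext (w1.trans ?_)
      rw [show (⟨_, _⟩ : XS s _ a b U (insert j S)) = g from Subtype.ext (by simp [l, gam, g1]), cg,
        show g * (-g - α) = -β by rw [← hg]; ring]
      simp [b0, l, t, gam, hj, α', β', Nf]
      ring
    · rw [update_of_ne e]
      exact Subtype.ext ((w2 i e).trans (key i e))
  rw [w3 fin, e1, Lam_mul v _ t l (fun φ => map_mul φ.1 _ _)
    (fun φ => (_root_.map_ne_zero _).2 (t0 l)) fun φ => (_root_.map_ne_zero _).2 n0, update_eq_self,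
    add_sub_right_comm]
  refine add_mem ih (m2 _ (fun φ ψ h => congrArg dt (funext fun i => lg_eq v _ _ (h _))) fun φ => ?_)
  have u0 : ∀ x, x ≠ 0 → ∀ i, update t l x i ≠ 0 := fun x x0 i => by
    by_cases e : i = l
    · rwa [e, update_self]
    · rw [update_of_ne e]; exact t0 i
  by_cases sp : ∃ x, v (φ.1 x ^ 2 + φ.1 x + algebraMap k Ω s) < 1
  · exact (m1 φ _ (u0 _ n0)).2 _ sp.choose_spec
  push Not at sp
  obtain ⟨n, -, n1, -, -, n2, -⟩ := gammaV (v.comap φ.1.toRingHom) (X := ⊤) H.s_ne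
    (fun c => by
      by_cases c0 : c = 0
      · simp [c0]
      · simpa using (val_const hv c0).le)
    (fun x _ => by simpa using sp x) (α := α') (β := β') trivial trivial
    (Or.inl fun h => chi_ne s U.finite_toSet H.ind (H.clo j jU).1 (H.pa.ne j)
      (congrArg Subtype.val h))
  refine ⟨_, (m1 φ _ (u0 n n1)).1, ?_⟩
  have n3 := (_root_.map_ne_zero φ.1).2 n1
  simp only [lg_up v fun (φ : Emb (EE r) (XS s e a b U S)) x => φ.1 x]
  rw [lg_eq v _ (φ.1 n * φ.1 n) (by simpa [sq] using n2), lg_mul v _ _ n3 n3, dt_add]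
  ring

end Pool.Agent.MP_2023ef_al.H5
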