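import Pool.Agent.MP_2023ef_al.h5.Bas

/-! Statements of the pieces of the construction of the ring. -/

namespace Pool.Agent.MP_2023ef_al.H5

universe u

/-- An index set on which every relatively prime pair occurs. -/
def IDX : Prop :=
  ∀ (k : Type u) [Field k], ∃ (J : Type u) (a b : J → MvPolynomial (Bool ⊕ J) k) (rk : J → ℕ),
    Pairs a b rk ∧ ∀ p q, p ≠ 0 → IsRelPrime p q → ∃ j, a j = p ∧ b j = q

/-- Every finite set of indices lies in a finite closed set. -/
def CLO : Prop :=
  ∀ (k J : Type u) [Field k] (a b : J → MvPolynomial (Bool ⊕ J) k) (rk : J → ℕ), Pairs a b rk →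
    ∀ V : Finset J, ∃ U : Finset J, V ⊆ U ∧ Closed a b (U : Set J)

/-- Some combination of the columns of `M` is unimodular. -/
def Star {A : Type*} [CommRing A] (M : Matrix (Fin 2) (Fin 2) A) : Prop :=
  ∃ δ u : Fin 2 → A, dotProduct u (M.mulVec δ) = 1

/-- A diagonalisable matrix with unimodular entries has a unimodular combination of columns. -/
def DIAG : Prop :=
  ∀ (A : Type u) [CommRing A] (M C D : Matrix (Fin 2) (Fin 2) A),
    Ideal.span {M 0 0, M 0 1, M 1 0, M 1 1} = ⊤ → IsUnit C → IsUnit D → (C * M * D).IsDiag → Star M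

/-- The case of dimension at most one. -/
def LOW : Prop :=
  ∀ (A : Type u) [CommRing A] [IsDomain A] [IsBezout A] (M : Matrix (Fin 2) (Fin 2) A),
    ringKrullDim A ≤ 1 → M.det ≠ 0 → Ideal.span {M 0 0, M 0 1, M 1 0, M 1 1} = ⊤ → Star M

/-- The dimension is at most the transcendence degree. -/
def DIM : Prop :=
  ∀ (L K : Type u) [Field L] [Field K] [Algebra L K] (A : Subalgebra L K) (x y : K),
    (∀ z ∈ A, z ∈ cl L {x, y}) → ringKrullDim A ≤ 2

/-- The construction of the ring. -/
def RING : Prop := FL.{u} → IDX.{u} → CLO.{u} → DIAG.{u} → LOW.{u} → DIM.{u} → MAIN.{u}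

end Pool.Agent.MP_2023ef_al.H5
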