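import Pool.Agent.MP_2023ef_al.h5.Ind

/-! The lexicographic monomial valuation and its extension to an algebraic extension. -/

namespace Pool.Agent.MP_2023ef_al.H5

open WithZero MvPolynomial MonomialOrder

theorem torsion {Γ E Ω : Type*} [LinearOrderedCommGroupWithZero Γ] [Field E] [Field Ω]
    [Algebra E Ω] (v : Valuation Ω Γ) {x : Ω} (h : IsAlgebraic E x) (x0 : x ≠ 0) :
    ∃ n : ℕ, n ≠ 0 ∧ ∃ c : E, c ≠ 0 ∧ v x ^ n = v (algebraMap E Ω c) := by
  obtain ⟨p, p0, hp⟩ := h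
  rw [Polynomial.aeval_def, Polynomial.eval₂_eq_sum, Polynomial.sum_def] at hp
  have vx : v x ≠ 0 := v.ne_zero_iff.2 x0
  have nz : ∀ i ∈ p.support, v (algebraMap E Ω (p.coeff i)) ≠ 0 := fun i hi =>
    v.ne_zero_iff.2 ((map_ne_zero _).2 (Polynomial.mem_support_iff.1 hi))
  have key : ∀ i ∈ p.support, ∀ j ∈ p.support, i < j →
      v (algebraMap E Ω (p.coeff i) * x ^ i) = v (algebraMap E Ω (p.coeff j) * x ^ j) →
      ∃ n : ℕ, n ≠ 0 ∧ ∃ c : E, c ≠ 0 ∧ v x ^ n = v (algebraMap E Ω c) := fun i hi j hj l e => by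
    obtain ⟨n, rfl⟩ := Nat.exists_eq_add_of_lt l
    refine ⟨n + 1, n.succ_ne_zero, p.coeff i / p.coeff (i + n + 1),
      div_ne_zero (Polynomial.mem_support_iff.1 hi) (Polynomial.mem_support_iff.1 hj), ?_⟩
    rw [map_div₀, map_div₀, eq_div_iff (nz _ hj)]
    simp only [map_mul, map_pow] at e
    refine mul_right_cancel₀ (pow_ne_zero i vx) ?_
    rw [e, add_assoc, pow_add (v x) i, mul_comm (v x ^ (n + 1)), mul_assoc, mul_comm (v x ^ i)]
  obtain ⟨i, hi, hm⟩ := p.support.exists_max_image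
    (fun i => v (algebraMap E Ω (p.coeff i) * x ^ i)) (Polynomial.support_nonempty.2 p0)
  by_contra c
  have := v.map_sum_eq_of_lt (f := fun i => algebraMap E Ω (p.coeff i) * x ^ i) hi fun j hj => by
    obtain ⟨h1, h2⟩ := Finset.mem_sdiff.1 hj
    refine (hm j h1).lt_of_ne fun e => c ?_
    rcases lt_or_gt_of_ne (Finset.notMem_singleton.1 h2) with l | l
    exacts [key j h1 i hi l e, key i hi j h1 l e.symm]
  rw [hp, map_zero, map_mul, map_pow] at this
  exact mul_ne_zero (nz i hi) (pow_ne_zero i vx) this.symm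

theorem extend_val {G E Ω : Type*} [AddCommGroup G] [LinearOrder G] [IsOrderedAddMonoid G]
    [Field E] [Field Ω] [Algebra E Ω] [Algebra.IsAlgebraic E Ω]
    (hd : ∀ n : ℕ, n ≠ 0 → ∀ a : G, ∃ b, n • b = a) (v₀ : Valuation E (WithZero (Multiplicative G))) :
    ∃ v : Valuation Ω (WithZero (Multiplicative G)), ∀ c, v (algebraMap E Ω c) = v₀ c := by
  classical
  obtain ⟨A, hA, hl⟩ := IsLocalRing.exists_factor_valuationRing
    ((algebraMap E Ω).comp v₀.valuationSubring.subtype)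
  set w := A.valuation
  have h1 : ∀ c, v₀ c ≤ 1 → w (algebraMap E Ω c) ≤ 1 := fun c hc =>
    (A.valuation_le_one_iff _).2 (hA ⟨c, hc⟩)
  have h2 : ∀ c, v₀ c < 1 → w (algebraMap E Ω c) < 1 := fun c hc =>
    (h1 c hc.le).lt_of_ne fun e => by
      have := hl.1 ⟨c, hc.le⟩ ((A.valuation_eq_one_iff ⟨_, hA ⟨c, hc.le⟩⟩).2 e)
      obtain ⟨d, hd⟩ := this.exists_right_inv
      have e1 : v₀ c * v₀ d = 1 := by
        rw [← map_mul, show c * d = 1 from congrArg Subtype.val hd, map_one]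
      exact ((mul_le_of_le_one_right' d.2).trans_lt hc).ne e1
  have h3 : ∀ c d, c ≠ 0 → d ≠ 0 →
      (w (algebraMap E Ω c) ≤ w (algebraMap E Ω d) ↔ v₀ c ≤ v₀ d) := fun c d c0 d0 => by
    have p : ∀ c : E, c ≠ 0 → 0 < w (algebraMap E Ω c) ∧ 0 < v₀ c := fun c c0 =>
      ⟨w.pos_iff.2 ((map_ne_zero _).2 c0), v₀.pos_iff.2 c0⟩
    refine ⟨fun h => not_lt.1 fun l => h.not_gt ?_, fun h => ?_⟩
    · have := h2 (d / c) (by rwa [map_div₀, div_lt_one₀ (p c c0).2])
      rwa [map_div₀, map_div₀, div_lt_one₀ (p c c0).1] at this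
    · have := h1 (c / d) (by rwa [map_div₀, div_le_one₀ (p d d0).2])
      rwa [map_div₀, map_div₀, div_le_one₀ (p d d0).1] at this
  let R : Ω → G → Prop := fun x a =>
    ∃ n : ℕ, n ≠ 0 ∧ ∃ c : E, c ≠ 0 ∧ w x ^ n = w (algebraMap E Ω c) ∧ v₀ c = exp (n • a)
  have r1 : ∀ x, x ≠ 0 → ∃ a, R x a := fun x x0 => by
    obtain ⟨n, n0, c, c0, e⟩ := torsion w (Algebra.IsAlgebraic.isAlgebraic (R := E) x) x0
    obtain ⟨b, hb⟩ := hd n n0 (log (v₀ c))
    exact ⟨b, n, n0, c, c0, e, by rw [hb, exp_log (v₀.ne_zero_iff.2 c0)]⟩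
  have r2 : ∀ {x y a b}, R x a → R y b → (w x ≤ w y ↔ a ≤ b) := by
    rintro x y a b ⟨n, n0, c, c0, e1, e2⟩ ⟨m, m0, d, d0, f1, f2⟩
    rw [← pow_le_pow_iff_left₀ zero_le zero_le (mul_ne_zero n0 m0), pow_mul, pow_mul', e1, f1,
      ← map_pow, ← map_pow, ← map_pow, ← map_pow, h3 _ _ (pow_ne_zero _ c0) (pow_ne_zero _ d0),
      map_pow, map_pow, e2, f2, ← exp_nsmul, ← exp_nsmul, exp_le_exp, ← mul_nsmul, ← mul_nsmul',
      nsmul_le_nsmul_iff_right (mul_ne_zero n0 m0)]
  have r3 : ∀ {x y a b}, R x a → R y b → R (x * y) (a + b) := by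
    rintro x y a b ⟨n, n0, c, c0, e1, e2⟩ ⟨m, m0, d, d0, f1, f2⟩
    refine ⟨n * m, mul_ne_zero n0 m0, c ^ m * d ^ n,
      mul_ne_zero (pow_ne_zero _ c0) (pow_ne_zero _ d0), ?_, ?_⟩
    · simp only [map_mul, map_pow, mul_pow, ← e1, ← f1, ← pow_mul, mul_comm m n]
    · rw [map_mul, map_pow, map_pow, e2, f2, ← exp_nsmul, ← exp_nsmul, ← exp_add, nsmul_add,
        ← mul_nsmul, ← mul_nsmul']
  have r4 : ∀ {x a b}, R x a → R x b → a = b := fun h h' =>
    ((r2 h h').1 le_rfl).antisymm ((r2 h' h).1 le_rfl)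
  choose! g hg using r1
  have r5 : ∀ c : E, c ≠ 0 → exp (g (algebraMap E Ω c)) = v₀ c := fun c c0 => by
    rw [r4 (hg _ ((map_ne_zero _).2 c0)) ⟨1, one_ne_zero, c, c0, pow_one _, by
      rw [one_nsmul, exp_log (v₀.ne_zero_iff.2 c0)]⟩, exp_log (v₀.ne_zero_iff.2 c0)]
  refine ⟨⟨⟨⟨fun x => if x = 0 then 0 else exp (g x), if_pos rfl⟩, ?_, fun x y => ?_⟩,
    fun x y => ?_⟩, fun c => ?_⟩
  · simpa using r5 1 one_ne_zero
  · by_cases x0 : x = 0
    · simp [x0]
    by_cases y0 : y = 0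
    · simp [y0]
    simp [x0, y0, r4 (hg _ (mul_ne_zero x0 y0)) (r3 (hg x x0) (hg y y0))]
  · by_cases x0 : x = 0
    · simp [x0]
    by_cases y0 : y = 0
    · simp [y0]
    by_cases s0 : x + y = 0
    · simp [s0]
    simp [x0, y0, s0, ← r2 (hg _ s0) (hg x x0), ← r2 (hg _ s0) (hg y y0)]
  · by_cases c0 : c = 0
    · simp [c0]
    · simpa [c0] using r5 c c0

variable {ι k Ω : Type*} [LinearOrder ι] [Finite ι] [Field k] [Field Ω] [Algebra k Ω]

/-- The value group. -/
abbrev Gm (ι : Type*) := WithZero (Multiplicative (Lex (ι → ℚ)))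

/-- The leading exponent. -/
noncomputable def dg (p : MvPolynomial ι k) : Lex (ι → ℚ) := toLex fun i => (lex.degree p i : ℚ)

theorem cast_lt {c d : ι →₀ ℕ} (h : c ≺[lex] d) :
    toLex (fun i => (c i : ℚ)) < toLex fun i => (d i : ℚ) := by
  obtain ⟨i, h1, h2⟩ := Finsupp.Lex.lt_iff.1 (lex_lt_iff.1 h)
  exact ⟨i, fun j hj => congrArg Nat.cast (h1 j hj), Nat.cast_lt.2 h2⟩

theorem dg_le {p q : MvPolynomial ι k} : dg p ≤ dg q ↔ lex.degree p ≼[lex] lex.degree q := by
  refine ⟨fun h => not_lt.1 fun l => h.not_gt (cast_lt l), fun h => ?_⟩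
  rcases h.eq_or_lt with e | l
  · rw [dg, dg, lex.toSyn.injective e]
  · exact (cast_lt l).le

theorem exists_val {z : ι → Ω} (hz : AlgebraicIndependent k z)
    (h : ∀ x, x ∈ cl k (Set.range z)) :
    ∃ v : Valuation Ω (Gm ι), ∀ p : MvPolynomial ι k, p ≠ 0 → v (aeval z p) = exp (dg p) := by
  classical
  let u : Valuation (MvPolynomial ι k) (Gm ι) :=
    { toFun p := if p = 0 then 0 else exp (dg p)
      map_zero' := if_pos rfl
      map_one' := by simp [dg]; rfl
      map_mul' p q := by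
        by_cases p0 : p = 0
        · simp [p0]
        by_cases q0 : q = 0
        · simp [q0]
        simp only [p0, q0, mul_eq_zero, or_self, if_false, ← exp_add, dg, degree_mul p0 q0]
        congr 1
        exact funext fun i => by simp; rfl
      map_add_le_max' p q := by
        by_cases p0 : p = 0
        · simp [p0]
        by_cases q0 : q = 0
        · simp [q0]
        by_cases s0 : p + q = 0
        · simp [s0]
        simpa [p0, q0, s0, dg_le] using degree_add_le (m := lex) (f := p) (g := q) }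
  have hu : ∀ p, p ≠ 0 → u p = exp (dg p) := fun p p0 => if_neg p0
  have hS : nonZeroDivisors (MvPolynomial ι k) ≤ u.supp.primeCompl := fun p hp e => by
    simp [hu p (nonZeroDivisors.ne_zero hp)] at e
  have : Algebra.IsAlgebraic (IntermediateField.adjoin k (Set.range z)) Ω := ⟨fun x => mem_cl.1 (h x)⟩
  obtain ⟨v, hv⟩ := extend_val (Ω := Ω) (G := Lex (ι → ℚ))
    (fun n n0 a => ⟨fun i => a i / n, funext fun i => by
      show n • (a i / n) = a i
      rw [nsmul_eq_mul]; field_simp⟩)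
    ((u.extendToLocalization hS (FractionRing (MvPolynomial ι k))).comap
      hz.aevalEquivField.symm.toRingHom)
  refine ⟨v, fun p p0 => ?_⟩
  have := hv (hz.aevalEquivField (algebraMap _ _ p))
  rw [← hu p p0, ← hz.aevalEquivField_algebraMap_apply_coe]
  simpa using this

/-- The vector of values. -/
noncomputable def lg (v : Valuation Ω (Gm ι)) (x : Ω) : ι → ℚ := ofLex (log (v x))

theorem lg_mul (v : Valuation Ω (Gm ι)) (x y : Ω) (x0 : x ≠ 0) (y0 : y ≠ 0) :
    lg v (x * y) = lg v x + lg v y := by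
  rw [lg, map_mul, log_mul (v.ne_zero_iff.2 x0) (v.ne_zero_iff.2 y0)]
  rfl

theorem lg_eq (v : Valuation Ω (Gm ι)) (x y : Ω) (h : v x = v y) : lg v x = lg v y := by
  rw [lg, h, lg]

theorem coarse (v : Valuation Ω (Gm ι)) {G : Type*} [AddCommGroup G] [LinearOrder G]
    [IsOrderedAddMonoid G] (f : (ι → ℚ) →+ G) (hf : ∀ a b, toLex a ≤ toLex b → f a ≤ f b) :
    ∃ w : Valuation Ω (WithZero (Multiplicative G)), (∀ x, x ≠ 0 → w x = exp (f (lg v x))) ∧
      ∀ x y, v x ≤ v y → w x ≤ w y := by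
  have m : Monotone (WithZero.map' (AddMonoidHom.toMultiplicative (α := Lex (ι → ℚ)) f)) :=
    map'_mono hf
  refine ⟨v.map _ m, fun x x0 => ?_, fun x y h => m h⟩
  show WithZero.map' _ (v x) = _
  rw [← exp_log (v.ne_zero_iff.2 x0)]
  rfl

variable {z : ι → Ω} {v : Valuation Ω (Gm ι)}
  (hv : ∀ p : MvPolynomial ι k, p ≠ 0 → v (aeval z p) = exp (dg p))
include hv

theorem lg_var (i : ι) : lg v (z i) = Pi.single i 1 := by
  have := hv (X i) (X_ne_zero i)
  rw [aeval_X] at this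
  funext j
  simp [lg, this, dg, degree_X, Finsupp.single_apply, Pi.single_apply, eq_comm]

theorem lg_adjoin {A : Set ι} {c : Ω} (hc : c ∈ IntermediateField.adjoin k (z '' A)) (c0 : c ≠ 0)
    (i : ι) : (∃ n : ℤ, lg v c i = n) ∧ (i ∉ A → lg v c i = 0) := by
  have key : ∀ r ∈ Algebra.adjoin k (z '' A), r ≠ 0 →
      ∃ n : ℕ, lg v r i = n ∧ (i ∉ A → n = 0) := fun r hr r0 => by
    have e : z '' A = aeval (R := k) z '' (X '' A) := by simp [Set.image_image]
    rw [e, ← AlgHom.map_adjoin, ← supported_eq_adjoin_X] at hr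
    obtain ⟨p, hp, rfl⟩ := hr
    have p0 : p ≠ 0 := by rintro rfl; simp at r0
    refine ⟨lex.degree p i, ?_, fun h => by_contra fun n => h (mem_supported.1 hp
      ((mem_vars_iff_mem_support i).2 ⟨_, degree_mem_support p0, Finsupp.mem_support_iff.2 n⟩))⟩
    show lg v (aeval z p) i = _
    simp [lg, hv p p0, dg]
  obtain ⟨r, hr, s, hs, rfl⟩ := IntermediateField.mem_adjoin_iff_div.1 hc
  obtain ⟨r0, s0⟩ := div_ne_zero_iff.1 c0
  obtain ⟨n, n1, n2⟩ := key r hr r0
  obtain ⟨m, m1, m2⟩ := key s hs s0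
  have := congrFun (lg_mul v _ _ c0 s0) i
  rw [div_mul_cancel₀ _ s0, Pi.add_apply, n1, m1] at this
  exact ⟨⟨n - m, by push_cast; linarith⟩, fun h => by simpa [n2 h, m2 h] using this.symm⟩

theorem val_const {c : k} (c0 : c ≠ 0) : v (algebraMap k Ω c) = 1 := by
  have := hv (C c) (by simpa using c0)
  rw [aeval_C] at this
  simp [this, dg]
  rfl

theorem val_ns {s : k} (hs : ∀ c : k, c ^ 2 + c + s ≠ 0) {c : Ω}
    (hc : c ∈ IntermediateField.adjoin k (Set.range z)) (h : v c ≤ 1) :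
    v (c ^ 2 + c + algebraMap k Ω s) = 1 := by
  obtain ⟨a, ha⟩ : ∃ a : k, v (c - algebraMap k Ω a) < 1 := by
    obtain ⟨p, q, rfl⟩ := (IntermediateField.mem_adjoin_range_iff _ _ _).1 hc
    by_cases c0 : aeval z p / aeval z q = 0
    · exact ⟨0, by simp [c0]⟩
    obtain ⟨p0, q0⟩ := div_ne_zero_iff.1 c0
    have p1 : p ≠ 0 := by rintro rfl; simp at p0
    have q1 : q ≠ 0 := by rintro rfl; simp at q0
    have q2 := v.pos_iff.2 q0
    rw [map_div₀, div_le_one₀ q2, hv p p1, hv q q1, exp_le_exp, dg_le] at h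
    refine ⟨p.coeff (lex.degree q) / lex.leadingCoeff q, ?_⟩
    generalize ha : p.coeff (lex.degree q) / lex.leadingCoeff q = a
    rw [show aeval z p / aeval z q - algebraMap k Ω a = aeval z (p - C a * q) / aeval z q by
      simp; field_simp, map_div₀, div_lt_one₀ q2]
    by_cases r0 : p - C a * q = 0
    · rwa [r0, map_zero, map_zero]
    rw [hv _ r0, hv q q1, exp_lt_exp, ← not_le, dg_le]
    intro l
    have l2 : lex.degree (p - C a * q) ≼[lex] lex.degree q := by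
      refine degree_sub_le.trans (sup_le h ?_)
      rw [C_mul']
      exact degree_smul_le
    have := coeff_degree_ne_zero_iff (m := lex) |>.2 r0
    rw [lex.toSyn.injective (l2.antisymm l), coeff_sub, coeff_C_mul, ← ha] at this
    exact this (sub_eq_zero.2 (div_mul_cancel₀ _ (leadingCoeff_ne_zero_iff.2 q1)).symm)
  have h1 : v (algebraMap k Ω a) ≤ 1 := by
    by_cases a0 : a = 0
    · simp [a0]
    · exact (val_const hv a0).le
  have h2 := val_const hv (hs a)
  rw [show c ^ 2 + c + algebraMap k Ω s = algebraMap k Ω (a ^ 2 + a + s) +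
    (c - algebraMap k Ω a) * (c + algebraMap k Ω a + 1) by simp; ring, v.map_add_eq_of_lt_left, h2]
  rw [h2, map_mul]
  exact (mul_le_of_le_one_right' (v.map_add_le (v.map_add_le h h1) v.map_one.le)).trans_lt ha

end Pool.Agent.MP_2023ef_al.H5
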