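import Pool.Agent.MP_2023ef_al.h5.Base
import Pool.Agent.MP_2023ef_al.h5.Val

/-! The reciprocity law for determinants of values. -/

namespace Pool.Agent.MP_2023ef_al.H5

open Sum Set Polynomial IntermediateField Function

variable {k Ω J ι : Type*} [Field k] [Field Ω] [Algebra k Ω] [LinearOrder ι] [Fintype ι]

section
variable {Φ M : Type*} (v : Valuation Ω (Gm ι)) (ev : Φ → M → Ω)

/-- The sum of the determinants of values. -/
noncomputable def Lam (u : ι → M) : ℚ := ∑ᶠ φ, dt fun i => lg v (ev φ (u i))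

theorem lg_up (φ : Φ) (u : ι → M) (j : ι) (x : M) : (fun i => lg v (ev φ (update u j x i))) =
    update (fun i => lg v (ev φ (u i))) j (lg v (ev φ x)) :=
  funext fun i => apply_update (fun _ y => lg v (ev φ y)) u j x i

variable [Finite Φ]

theorem Lam_mul (u : ι → M) (j : ι) {x y z : M} (h : ∀ φ, ev φ z = ev φ x * ev φ y)
    (hx : ∀ φ, ev φ x ≠ 0) (hy : ∀ φ, ev φ y ≠ 0) :
    Lam v ev (update u j z) = Lam v ev (update u j x) + Lam v ev (update u j y) := by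
  simp only [Lam, lg_up, h, lg_mul v _ _ (hx _) (hy _), dt_add]
  exact finsum_add_distrib (toFinite _) (toFinite _)

theorem Lam_tri (u : ι → M) {i j : ι} (h : i ≠ j) {c : M}
    (hc : ∀ φ, ev φ (u i) - ev φ (u j) = ev φ c) :
    Lam v ev u = Lam v ev (update u i c) + Lam v ev (update u j c) := by
  simp only [Lam, lg_up]
  rw [← finsum_add_distrib (toFinite _) (toFinite _)]
  refine finsum_congr fun φ => dt_tri _ h _ ?_
  rcases lt_trichotomy (v (ev φ (u i))) (v (ev φ (u j))) with l | l | l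
  · exact Or.inr (Or.inr (lg_eq v _ _ (by rw [← hc, v.map_sub_eq_of_lt_right l])))
  · exact Or.inl (lg_eq v _ _ l)
  · exact Or.inr (Or.inl (lg_eq v _ _ (by rw [← hc, v.map_sub_eq_of_lt_left l])))

omit [Finite Φ] in
theorem Lam_alt (u : ι → M) {i j : ι} (h : i ≠ j) (e : ∀ φ, ev φ (u i) = ev φ (u j)) :
    Lam v ev u = 0 :=
  finsum_eq_zero_of_forall_eq_zero fun φ => dt_alt _ h (by rw [e])

end

theorem lg_one (v : Valuation Ω (Gm ι)) : lg v 1 = 0 := by simp [lg]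

theorem Lam_step [IsAlgClosed Ω] (v : Valuation Ω (Gm ι)) {E X Y : IntermediateField k Ω}
    (h : Y ≤ X) (hE : E ≤ Y) (c : X →ₐ[k] X) (hc : ∀ x : X, (x : Ω) ∈ Y → c x = x) {g α β : X}
    (ha : (α : Ω) ∈ Y) (hb : (β : Ω) ∈ Y) (hg : g * (g + α) = β) (cg : c g = -g - α) (ne : c g ≠ g)
    (gen : ∀ x : X, ∃ p q : X, (p : Ω) ∈ Y ∧ (q : Ω) ∈ Y ∧ x = p + q * g) (u : ι → X) (j : ι)
    (u0 : u j ≠ 0) (hu : ∀ i, i ≠ j → (u i : Ω) ∈ Y) :
    ∃ w : ι → Y, (w j : Ω) = (u j * c (u j) : X) ∧ (∀ i, i ≠ j → (w i : Ω) = u i) ∧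
      (Finite (Emb E Y) →
        Lam v (fun (φ : Emb E X) x => φ.1 x) u = Lam v (fun (φ : Emb E Y) x => φ.1 x) w) := by
  have hz : ((u j * c (u j) : X) : Ω) ∈ Y := by
    obtain ⟨p, q, p1, q1, e1⟩ := gen (u j)
    have n : u j * c (u j) = p ^ 2 - p * q * α - q ^ 2 * β := by
      rw [e1, map_add, map_mul, hc p p1, hc q q1, cg, ← hg]
      ring
    exact n ▸ sub_mem (sub_mem (pow_mem p1 2) (mul_mem (mul_mem p1 q1) ha)) (mul_mem (pow_mem q1 2) hb)
  let w : ι → Y := fun i => if e : i = j then ⟨_, hz⟩ else ⟨u i, hu i e⟩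
  have w1 : ∀ i, i ≠ j → (w i : Ω) = u i := fun i hi => by simp [w, hi]
  refine ⟨w, by simp [w], w1, fun _ => ?_⟩
  have := sum_step h hE c hc ha hb hg cg ne gen
    (fun ψ y => dt (update (fun i => lg v (ψ.1 (w i))) j (lg v y)))
    (fun ψ x y x0 y0 => by rw [lg_mul v _ _ x0 y0, dt_add]) u0 hz
  refine ((finsum_congr fun φ => congrArg dt (funext fun i => ?_)).trans this).trans
    (finsum_congr fun φ => congrArg dt (funext fun i => ?_))
  · by_cases e : i = j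
    · simp [e]
    · rw [update_of_ne e]
      exact congrArg (fun y => lg v (φ.1 y)) (Subtype.ext (w1 i e).symm)
  · by_cases e : i = j
    · simp [e, w]
    · rw [update_of_ne e]

theorem base_rec [IsAlgClosed Ω] (v : Valuation Ω (Gm ι)) {Φ F : Type*} [Finite Φ] [Field F]
    [Algebra F Ω] (t : Φ → Ω) {r : F[X]} (r0 : r ≠ 0) (tr : ∀ φ (f : F[X]), f ≠ 0 → aeval (t φ) f ≠ 0)
    {i₀ : ι} (h0 : ∀ c, IsAlgebraic F c → c ≠ 0 → lg v c i₀ = 0)
    (h1 : ∀ G : Ω → ℚ, (∀ x y, x ≠ 0 → y ≠ 0 → G (x * y) = G x + G y) → ∀ c, aeval c r = 0 →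
      ∑ᶠ φ, G (c - t φ) = G 1) (p q : ι → F[X]) (nz : ∀ i, p i ≠ 0 ∧ q i ≠ 0)
    (dv : ∀ i, p i * q i ∣ r) :
    ∑ᶠ φ, dt (fun i => lg v (aeval (t φ) (p i) / aeval (t φ) (q i))) = 0 := by
  let C : Set (Φ → Ωˣ) := {x | ∃ c : Ω, IsAlgebraic F c ∧ ∀ φ, x φ = c}
  let L : Set (Φ → Ωˣ) := {x | ∃ c, aeval c r = 0 ∧ ∀ φ, x φ = c - t φ}
  have k1 : ∀ m : Multiset Ω, (∀ c ∈ m, aeval c r = 0) → ∀ c, IsAlgebraic F c → ∀ x : Φ → Ωˣ,
      (∀ φ, x φ = c * (m.map (t φ - ·)).prod) → x ∈ Subgroup.closure (C ∪ L) := by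
    intro m
    induction m using Multiset.induction_on with
    | empty => exact fun _ c hc x hx => Subgroup.subset_closure (Or.inl ⟨c, hc, by simpa using hx⟩)
    | cons d m ih =>
      intro hm c hc x hx
      have d0 : ∀ φ, d - t φ ≠ 0 := fun φ h => tr φ r r0 (sub_eq_zero.1 h ▸ hm d (by simp))
      let y : Φ → Ωˣ := fun φ => Units.mk0 _ (d0 φ)
      rw [← mul_inv_cancel_left y x]
      refine mul_mem (Subgroup.subset_closure (Or.inr ⟨d, hm d (by simp), fun _ => rfl⟩))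
        (ih (fun c hc => hm c (by simp [hc])) (-c) hc.neg _ fun φ => ?_)
      have := d0 φ
      simp only [y, Pi.mul_apply, Pi.inv_apply, Units.val_mul, Units.val_inv_eq_inv_val,
        Units.val_mk0, hx, Multiset.map_cons, Multiset.prod_cons]
      field_simp
      ring
  have k2 : ∀ f (f0 : f ≠ 0), f ∣ r →
      (fun φ => Units.mk0 _ (tr φ f f0)) ∈ Subgroup.closure (C ∪ L) := fun f f0 hf =>
    k1 (f.aroots Ω) (fun c hc => aeval_eq_zero_of_dvd_aeval_eq_zero hf (mem_aroots.1 hc).2) _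
      (isAlgebraic_algebraMap f.leadingCoeff) _ fun φ => by
        simpa [← eval_map_algebraMap] using
          (IsAlgClosed.splits (f.map (algebraMap _ Ω))).eval_eq_prod_roots _
  have := multi_ind (Lam v fun φ (x : Φ → Ωˣ) => x φ) ⊥ (fun u j x y => Lam_mul _ _ _ _
    (fun _ => rfl) (fun φ => (x φ).ne_zero) fun φ => (y φ).ne_zero) (C ∪ L) (bt _ ⊥ C L
    (fun u hu => ?_) (fun u j hj hu => ?_) fun u i j hij hi hj => ?_) _ fun i =>
      div_mem (k2 _ (nz i).1 ((dvd_mul_right _ _).trans (dv i)))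
        (k2 _ (nz i).2 ((dvd_mul_left _ _).trans (dv i)))
  · simpa [Lam] using this
  · refine finsum_eq_zero_of_forall_eq_zero fun φ => dt_col _ i₀ fun i => ?_
    obtain ⟨c, h1, h2⟩ := hu i
    exact h0 (u i φ) ((h2 φ).symm ▸ h1) (u i φ).ne_zero
  · obtain ⟨c, c1, c2⟩ := hj
    choose! d _ hd using hu
    have := h1 (fun y => dt (update (fun i => lg v (d i)) j (lg v y)))
      (fun x y x0 y0 => by rw [lg_mul v _ _ x0 y0, dt_add]) c c1
    rw [lg_one, show dt (update _ j 0) = 0 from AlternatingMap.map_update_zero _ _ _] at this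
    refine (finsum_congr fun φ => congrArg dt (funext fun i => ?_)).trans this
    by_cases e : i = j
    · simp [e, c2]
    · simp only [update_of_ne e, hd i e]
  · obtain ⟨c, c1, c2⟩ := hi
    obtain ⟨d, d1, d2⟩ := hj
    by_cases e : c = d
    · exact Or.inl (Lam_alt _ _ _ hij fun φ => by rw [c2, d2, e])
    · refine Or.inr ⟨fun _ => Units.mk0 _ (sub_ne_zero.2 e), ⟨c - d, IsAlgebraic.sub
        ⟨r, r0, c1⟩ ⟨r, r0, d1⟩, fun _ => rfl⟩, Lam_tri _ _ _ hij fun φ => ?_⟩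
      simp [c2, d2]

theorem step_rec [IsAlgClosed Ω] {R : Type*} (v : R → Valuation Ω (Gm ι)) (B : AddSubgroup (R → ℚ))
    {E : R → IntermediateField k Ω} {X Y : IntermediateField k Ω} (h : Y ≤ X) (hE : ∀ r, E r ≤ Y)
    (c : X →ₐ[k] X) (hc : ∀ x : X, (x : Ω) ∈ Y → c x = x) {g α β : X}
    (ha : (α : Ω) ∈ Y) (hb : (β : Ω) ∈ Y) (hg : g * (g + α) = β) (cg : c g = -g - α) (ne : c g ≠ g)
    (gen : ∀ x : X, ∃ p q : X, (p : Ω) ∈ Y ∧ (q : Ω) ∈ Y ∧ x = p + q * g) (i₀ : ι) (r₀ : R)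
    (f1 : ∀ r, Finite (Emb (E r) X)) (f2 : ∀ r, Finite (Emb (E r) Y))
    (ih : ∀ u : ι → Y, (∀ i, u i ≠ 0) →
      (fun r => Lam (v r) (fun (φ : Emb (E r) Y) x => φ.1 x) u) ∈ B) (u : ι → X)
    (u0 : ∀ i, u i ≠ 0) : (fun r => Lam (v r) (fun (φ : Emb (E r) X) x => φ.1 x) u) ∈ B := by
  let C : Set Xˣ := {x | x.1.1 ∈ Y}
  let L : Set Xˣ := {x | ∃ p, p.1 ∈ Y ∧ x.1 = g - p}
  let Λ := fun (u : ι → Xˣ) r => Lam (v r) (fun (φ : Emb (E r) X) x => φ.1 x.1) u
  have key : ∀ u l, (∀ i, i ≠ l → u i ∈ C) → Λ u ∈ B := fun u l hu => by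
    choose w w1 w2 w3 using fun r => Lam_step (v r) h (hE r) c hc ha hb hg cg ne gen
      (fun i => (u i).1) l (u l).ne_zero hu
    have w4 : ∀ r, w r = w r₀ := fun r => funext fun i => Subtype.ext (by
      by_cases e : i = l
      · rw [e, w1, w1]
      · rw [w2 _ i e, w2 _ i e])
    refine (funext fun r => ?_ : _ = Λ u) ▸ ih (w r₀) fun i h => ?_
    · exact w4 r ▸ (w3 r (f2 r)).symm
    · have h := congrArg Subtype.val h
      by_cases e : i = l
      · rw [e, w1] at h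
        exact mul_ne_zero (u l).ne_zero ((_root_.map_ne_zero c).2 (u l).ne_zero) (Subtype.ext h)
      · exact (u i).ne_zero (Subtype.ext ((w2 _ i e).symm.trans h))
  refine multi_ind Λ B (fun u j x y => funext fun r => Lam_mul _ _ _ _ (fun φ => map_mul _ _ _)
    (fun φ => (_root_.map_ne_zero _).2 x.ne_zero) fun φ => (_root_.map_ne_zero _).2 y.ne_zero)
    (C ∪ L) (bt _ B C L (fun u hu => key u i₀ fun i _ => hu i) (fun u j _ => key u j)
    fun u i j hij hi hj => ?_) (fun i => Units.mk0 _ (u0 i)) fun i => ?_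
  · obtain ⟨p, p1, p2⟩ := hi
    obtain ⟨q, q1, q2⟩ := hj
    by_cases e : q = p
    · exact Or.inl ((funext fun r => Lam_alt _ _ _ hij fun φ => by rw [p2, q2, e] : Λ u = 0) ▸
        B.zero_mem)
    · exact Or.inr ⟨Units.mk0 _ (sub_ne_zero.2 e), sub_mem q1 p1, funext fun r =>
        Lam_tri _ _ _ hij fun φ => by simp [p2, q2]⟩
  · obtain ⟨p, q, p1, q1, e⟩ := gen (u i)
    by_cases q0 : q = 0
    · exact Subgroup.subset_closure (Or.inl (by simpa [C, e, q0] using p1))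
    rw [← mul_div_cancel (Units.mk0 q q0) (Units.mk0 _ (u0 i))]
    refine mul_mem (Subgroup.subset_closure (Or.inl q1)) (Subgroup.subset_closure
      (Or.inr ⟨-p / q, div_mem (neg_mem p1) q1, ?_⟩))
    simp only [Units.val_div_eq_div_val, Units.val_mk0, e]
    field_simp
    ring

variable {s : k} {e : Bool ⊕ J → Ω} {a b : J → MvPolynomial (Bool ⊕ J) k} {U : Finset J}

/-- The valuation `v` is the monomial valuation attached to `r`. -/
def VD (ix : ι ≃ sU (U : Set J)) (r : (FF s e a b U)[X]) (v : Valuation Ω (Gm ι)) : Prop :=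
  ∀ p : MvPolynomial ι k, p ≠ 0 → v (MvPolynomial.aeval
    (fun i => fam (e (inl false))⁻¹ (wr r) (tau s e a b) (ix i)) p) = WithZero.exp (dg p)

omit [Field Ω] [LinearOrder ι] [Fintype ι] in
theorem range_ix (ix : ι ≃ sU (U : Set J)) (f : Bool ⊕ J → Ω) :
    range (fun i => f (ix i)) = f '' sU U := by
  rw [image_eq_range]
  exact ix.surjective.range_comp fun i => f i

/-- The index of an element of `sU U`. -/
abbrev iT (ix : ι ≃ sU (U : Set J)) (c : Bool) : ι := ix.symm ⟨inl c, inl_mem _ c⟩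

variable {ix : ι ≃ sU (U : Set J)} {r : (FF s e a b U)[X]} {v : Valuation Ω (Gm ι)}

theorem VD.first (hv : VD ix r v) {c : Ω} (hc : IsAlgebraic (FF s e a b U) c) (c0 : c ≠ 0) :
    lg v c (iT ix true) = 0 := by
  obtain ⟨n, n0, d, d0, h⟩ := torsion v hc c0
  have h1 : lg v d (iT ix true) = 0 := by
    refine (lg_adjoin hv (A := {i | i ≠ iT ix true}) (adjoin.mono _ _ _ ?_ d.2)
      (by simpa using d0) _).2 (by simp)
    rw [img_eq _ _ (wr r)]
    rintro _ ⟨i, hi, rfl⟩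
    exact ⟨ix.symm ⟨i, hi.1⟩, fun h => hi.2 (congrArg Subtype.val (ix.symm.injective h)), by simp⟩
  have h2 : lg v d = n • lg v c := by
    rw [lg, ← show v c ^ n = v d from h, WithZero.log_pow]
    rfl
  simpa [h2, n0] using h1

variable {rk : J → ℕ} (H : Ctx s e a b rk U) [IsAlgClosed Ω]
include H

theorem Ctx.pack (hr : r.Monic) (hv : VD ix r v) {S : Finset J} (hS : S ⊆ U)
    (hc : Closed a b (S : Set J)) : Finite (Emb (EE r) (XS s e a b U S)) ∧
    ∃ m : Emb (EE r) (XS s e a b U S) → ℕ, (∀ φ (u : ι → XS s e a b U S), (∀ i, u i ≠ 0) →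
      m φ * dt (fun i => lg v (φ.1 (u i))) ∈ Z2 ∧ ∀ x, v (φ.1 x ^ 2 + φ.1 x + algebraMap k Ω s) < 1 →
        m φ * dt (fun i => lg v (φ.1 (u i))) ∈ E2) ∧
      ∀ F : Emb (EE r) (XS s e a b U S) → ℚ, (∀ φ ψ, (∀ x, v (φ.1 x) = v (ψ.1 x)) → F φ = F ψ) →
        (∀ φ, m φ * F φ ∈ E2) → ∑ᶠ φ, F φ ∈ E2 := by
  have : Algebra.IsAlgebraic (EE r) Ω := ⟨fun x => mem_cl.1 ((H.indE hr).2 x)⟩
  have eE : EE r = adjoin k (range fun i => fam (e (inl false))⁻¹ (wr r) (tau s e a b) (ix i)) := by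
    rw [range_ix, EE]
  refine integrality v (lg v) (lg_mul v) (lg_eq v) (EE_le_XS hS hc r)
    ((sU_finite U.finite_toSet).image e) (by rintro _ ⟨i, hi, rfl⟩; exact H.sepE hr i hi)
    (XS_le (C := (adjoin (EE r) (e '' sU U)).restrictScalars k)
      (fun i hi => (mem_restrictScalars k).2 (subset_adjoin _ _ ⟨i, sU_mono hS hi, rfl⟩))
      fun j hj _ => (mem_restrictScalars k).2
        (IntermediateField.algebraMap_mem _ (⟨_, FF_le_EE r (tau_mem_FF hj)⟩ : EE r)))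
    (IntermediateField.algebraMap_mem _ s) (val_const hv (by simpa using H.hs 0))
    (by simpa [map_ofNat] using val_const hv H.hd) (fun c hc c0 i => ?_)
    fun c hc => val_ns hv H.hs (eE.le hc)
  obtain ⟨n, hn⟩ := (lg_adjoin hv (A := univ) (by rw [image_univ]; exact eE.le hc) c0 i).1
  exact hn ▸ intCast_mem _ n

theorem Ctx.rec0 (u : ι → XS s e a b U ∅) (u0 : ∀ i, u i ≠ 0) :
    ∃ r₀ : (FF s e a b U)[X], r₀.Monic ∧ ∀ r, r.Monic → r₀ ∣ r → ∀ v, VD ix r v →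
      Lam v (fun (φ : Emb (EE r) (XS s e a b U ∅)) x => φ.1 x) u = 0 := by
  have mT : e (inl true) ∈ XS s e a b U ∅ := gen_mem ∅ (inl_mem _ true)
  have h1 : XS s e a b U ∅ ≤ (FF s e a b U)⟮e (inl true)⟯.restrictScalars k := XS_le
    (forall_sU ((mem_restrictScalars k).2
      (IntermediateField.algebraMap_mem _ (⟨_, eps_mem⟩ : FF s e a b U)))
      ((mem_restrictScalars k).2 (mem_adjoin_simple_self _ _)) (by simp))
    fun j hj _ => (mem_restrictScalars k).2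
      (IntermediateField.algebraMap_mem _ (⟨_, tau_mem_FF hj⟩ : FF s e a b U))
  choose p q hpq using fun i => (mem_adjoin_simple_iff _ _).1 ((mem_restrictScalars k).1 (h1 (u i).2))
  have nz : ∀ i, p i ≠ 0 ∧ q i ≠ 0 := fun i => by
    have := div_ne_zero_iff.1 (hpq i ▸ (by simpa using u0 i : (u i : Ω) ≠ 0))
    exact ⟨by rintro h; simp [h] at this, by rintro h; simp [h] at this⟩
  have n0 : ∏ i, p i * q i ≠ 0 :=
    Finset.prod_ne_zero_iff.2 fun i _ => mul_ne_zero (nz i).1 (nz i).2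
  refine ⟨_, monic_mul_leadingCoeff_inv n0, fun r hr hd v hv => ?_⟩
  have dv : ∀ i, p i * q i ∣ r := fun i => ((Finset.dvd_prod_of_mem (fun i => p i * q i)
    (Finset.mem_univ i)).mul_right _).trans hd
  have := (H.pack hr hv U.empty_subset closed_empty).1
  have le := EE_le_XS U.empty_subset closed_empty r
  have tr : ∀ (φ : Emb (EE r) (XS s e a b U ∅)) (f : (FF s e a b U)[X]), f ≠ 0 →
      aeval (φ.1 ⟨_, mT⟩) f ≠ 0 := fun φ f f0 => by
    rw [← Emb.aev (FF_le_EE r) le φ mT f, _root_.map_ne_zero]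
    exact fun h => H.trT ⟨f, f0, congrArg Subtype.val h⟩
  refine (finsum_congr fun φ => congrArg dt (funext fun i => congrArg (lg v) ?_)).trans
    (base_rec v _ hr.ne_zero tr (fun c => hv.first) (fun G hG c hc => ?_) p q nz dv)
  · rw [← Emb.aev (FF_le_EE r) le φ mT, ← Emb.aev (FF_le_EE r) le φ mT, ← map_div₀]
    exact congrArg φ.1 (Subtype.ext (hpq i))
  · exact (H.base hr G hG (by simp [pr_eval, hc])).trans (by rw [pr_eval, hc, mul_zero, zero_add])

theorem Ctx.recip (v : {r : (FF s e a b U)[X] // r.Monic} → Valuation Ω (Gm ι))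
    (hv : ∀ r, VD ix r.1 (v r)) (u : ι → XS s e a b U U) (u0 : ∀ i, u i ≠ 0) :
    ∃ r, Lam (v r) (fun (φ : Emb (EE r.1) (XS s e a b U U)) x => φ.1 x) u = 0 := by
  classical
  let B : AddSubgroup ({r : (FF s e a b U)[X] // r.Monic} → ℚ) :=
    { carrier := {f | ∃ r₀ : (FF s e a b U)[X], r₀.Monic ∧ ∀ r, r₀ ∣ r.1 → f r = 0}
      zero_mem' := ⟨1, monic_one, fun _ _ => rfl⟩
      add_mem' := by
        rintro f g ⟨p, p1, p2⟩ ⟨q, q1, q2⟩
        exact ⟨p * q, p1.mul q1, fun r h => by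
          simp [p2 r ((dvd_mul_right _ _).trans h), q2 r ((dvd_mul_left _ _).trans h)]⟩
      neg_mem' := by
        rintro f ⟨p, p1, p2⟩
        exact ⟨p, p1, fun r h => by simp [p2 r h]⟩ }
  suffices (fun r => Lam (v r) (fun (φ : Emb (EE r.1) (XS s e a b U U)) x => φ.1 x) u) ∈ B by
    obtain ⟨p, p1, p2⟩ := this
    exact ⟨⟨p, p1⟩, p2 _ dvd_rfl⟩
  revert u
  refine H.induct (P := fun S => ∀ u : ι → XS s e a b U S, (∀ i, u i ≠ 0) →
    (fun r => Lam (v r) (fun (φ : Emb (EE r.1) (XS s e a b U S)) x => φ.1 x) u) ∈ B)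
    (fun u u0 => ?_) fun S j hj hS c1 c2 ha hb ih u u0 => ?_
  · obtain ⟨p, p1, p2⟩ := H.rec0 (ix := ix) u u0
    exact ⟨p, p1, fun r h => p2 r.1 r.2 h _ (hv r)⟩
  have hS' := (Finset.subset_insert _ _).trans hS
  obtain ⟨le, c, g, α, β, -, a1, -, b1, hc, hg, cg, ne, gen⟩ := H.step hj hS c2 ha hb
  exact step_rec v B le (fun r => EE_le_XS hS' c1 r.1) c hc a1 b1 hg cg ne gen (iT ix true)
    ⟨1, monic_one⟩ (fun r => (H.pack r.2 (hv r) hS c2).1) (fun r => (H.pack r.2 (hv r) hS' c1).1)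
    ih u u0

end Pool.Agent.MP_2023ef_al.H5
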