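import Mathlib

/-! The data of the construction and the statement at a finite level. -/

namespace Pool.Agent.MP_2023ef_al.H5

open Sum MvPolynomial

/-- The norm form. -/
def Nf {R : Type*} [CommRing R] (s a b : R) : R := a ^ 2 + a * b + s * b ^ 2

/-- The family with entries `p`, `q` and `γ j`. -/
def fam {J K : Type*} (p q : K) (γ : J → K) : Bool ⊕ J → K := Sum.elim (fun c => cond c q p) γ

/-- The two extra indices together with the indices in `U`. -/
def sU {J : Type*} (U : Set J) : Set (Bool ⊕ J) := {i | ∀ j, i = inr j → j ∈ U}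

variable {k K J : Type*} [Field k] [Field K] [Algebra k K] (s : k) (e : Bool ⊕ J → K)
  (a b : J → MvPolynomial (Bool ⊕ J) k)

/-- `q = 1 + T + s T ^ 2`, where `T = e (inl true)`. -/
def qq : K := 1 + e (inl true) + algebraMap k K s * e (inl true) ^ 2

/-- The first coordinate of the point of the unit conic with parameter `T`. -/
def x0 : K := (1 - algebraMap k K s * e (inl true) ^ 2) / qq s e

/-- The second coordinate of the point of the unit conic with parameter `T`. -/
def y0 : K := e (inl true) * (2 + e (inl true)) / qq s e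

/-- The map `x ↦ ρ x₀`, `y ↦ ρ y₀`, `g j ↦ e (inr j)`, where `ρ = 1 + e (inl false)`. -/
noncomputable def chi : MvPolynomial (Bool ⊕ J) k →ₐ[k] K :=
  aeval (fam ((1 + e (inl false)) * x0 s e) ((1 + e (inl false)) * y0 s e) fun j => e (inr j))

/-- The constant `τ j = g (g + a) / N (a, b)`. -/
noncomputable def tau (j : J) : K :=
  e (inr j) * (e (inr j) + chi s e (a j)) / Nf (algebraMap k K s) (chi s e (a j)) (chi s e (b j))

/-- The field at level `U`. -/
noncomputable def XU (k : Type*) [Field k] [Algebra k K] (e : Bool ⊕ J → K) (U : Set J) :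
    IntermediateField k K := IntermediateField.adjoin k (e '' sU U)

/-- Good rings at level `U`. -/
structure Good (U : Set J) (W : Subring K) : Prop where
  val : ∀ x ∈ XU k e U, x ∈ W ∨ x⁻¹ ∈ W
  con : ∀ x ∈ IntermediateField.adjoin k (tau s e a b '' U), x ∈ W
  ns : ∀ x ∈ XU k e U, x ∈ W → x ^ 2 + x + algebraMap k K s ≠ 0 ∧
    (x ^ 2 + x + algebraMap k K s)⁻¹ ∈ W
  eps : (e (inl false))⁻¹ ∉ W

/-- The pairs are relatively prime and involve only variables of smaller rank. -/
structure Pairs (rk : J → ℕ) : Prop where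
  ne : ∀ j, a j ≠ 0
  rel : ∀ j, IsRelPrime (a j) (b j)
  ha : ∀ j, a j ∈ supported k (sU {l | rk l < rk j})
  hb : ∀ j, b j ∈ supported k (sU {l | rk l < rk j})

/-- The set `U` contains the variables of its pairs. -/
def Closed (U : Set J) : Prop := ∀ j ∈ U, a j ∈ supported k (sU U) ∧ b j ∈ supported k (sU U)

/-- The matrix `[[1 + x, y], [x + s y, 1 - x]]`. -/
def Mx {R : Type*} [CommRing R] (s x y : R) : Matrix (Fin 2) (Fin 2) R :=
  !![1 + x, y; x + s * y, 1 - x]

universe u

/-- The statement at a finite level. -/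
def FL : Prop :=
  ∀ (k K J : Type u) [Field k] [Infinite k] [Field K] [Algebra k K] (s : k),
    (∀ c : k, c ^ 2 + c + s ≠ 0) → 1 - 4 * s ≠ 0 →
    ∀ (e : Bool ⊕ J → K) (a b : J → MvPolynomial (Bool ⊕ J) k) (rk : J → ℕ),
    AlgebraicIndependent k e → Pairs a b rk → ∀ U : Finset J, Closed a b (U : Set J) →
    ∀ δ u : Fin 2 → K, (∀ i, δ i ∈ XU k e U ∧ u i ∈ XU k e U) →
    (∀ W, Good s e a b U W → ∀ i, δ i ∈ W ∧ u i ∈ W) →
    dotProduct u ((Mx (algebraMap k K s) (chi s e (X (inl false))) (chi s e (X (inl true)))).mulVec δ)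
      ≠ 1

/-- The theorem. -/
def MAIN : Prop :=
  ∀ (k₀ : Type u) [Field k₀], ∃ (A : Type u) (_ : CommRing A) (_ : IsDomain A) (_ : IsBezout A)
    (_ : Algebra k₀ A), ringKrullDim A = 2 ∧ ∃ M : Matrix (Fin 2) (Fin 2) A,
      ∀ C D : Matrix (Fin 2) (Fin 2) A, IsUnit C → IsUnit D → ¬(C * M * D).IsDiag

end Pool.Agent.MP_2023ef_al.H5
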