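import Pool.Agent.MP_2023ef_al.h5.Bas

/-! The tower of quadratic extensions at a finite level. -/

namespace Pool.Agent.MP_2023ef_al.H5

open Sum Set MvPolynomial IntermediateField

variable {k Ω J : Type*} [Field k] [Field Ω] [Algebra k Ω]

/-- The elements of `X` that `φ` maps into `C`. -/
noncomputable def pull {L : Type*} [Field L] [Algebra k L] {X : IntermediateField k Ω}
    (φ : X →ₐ[k] L) (C : IntermediateField k L) : IntermediateField k Ω := (C.comap φ).map X.val

theorem mem_pull {L : Type*} [Field L] [Algebra k L] {X : IntermediateField k Ω} {φ : X →ₐ[k] L}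
    {C : IntermediateField k L} {x : Ω} : x ∈ pull φ C ↔ ∃ h : x ∈ X, φ ⟨x, h⟩ ∈ C :=
  ⟨by rintro ⟨y, hy, rfl⟩; exact ⟨y.2, hy⟩, fun ⟨h, e⟩ => ⟨⟨x, h⟩, e, rfl⟩⟩

/-- The elements of `X` that `φ` fixes. -/
noncomputable def fixF {X : IntermediateField k Ω} (φ : X →ₐ[k] Ω) : IntermediateField k Ω :=
  ((AlgHom.equalizer φ X.val).toIntermediateField fun x hx => by
    show φ x⁻¹ = X.val x⁻¹
    rw [map_inv₀, map_inv₀, show φ x = X.val x from hx]).map X.val

theorem mem_fixF {X : IntermediateField k Ω} {φ : X →ₐ[k] Ω} {x : Ω} :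
    x ∈ fixF φ ↔ ∃ h : x ∈ X, φ ⟨x, h⟩ = x :=
  ⟨by rintro ⟨y, hy, rfl⟩; exact ⟨y.2, hy⟩, fun ⟨h, e⟩ => ⟨⟨x, h⟩, e, rfl⟩⟩

variable (s : k) (e : Bool ⊕ J → Ω) (a b : J → MvPolynomial (Bool ⊕ J) k) (rk : J → ℕ)
  (U : Finset J)

/-- The hypotheses at a finite level. -/
structure Ctx : Prop where
  inf : Infinite k
  hs : ∀ c : k, c ^ 2 + c + s ≠ 0
  hd : 1 - 4 * s ≠ 0
  pa : Pairs a b rk
  clo : Closed a b (U : Set J)
  ind : AlgebraicIndepOn k e (sU U)
  alg : ∀ x, x ∈ cl k (e '' sU U)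

open Classical in
/-- The generator `g j` for `j ∈ S` and the constant `τ j` for the other `j`. -/
noncomputable def gam (S : Finset J) (j : J) : Ω := if j ∈ S then e (inr j) else tau s e a b j

/-- The field at the stage `S` of the tower. -/
noncomputable def XS (S : Finset J) : IntermediateField k Ω :=
  adjoin k (fam (e (inl false)) (e (inl true)) (gam s e a b S) '' sU U)

variable {s e a b rk U}

theorem Ctx.n_ne (H : Ctx s e a b rk U) {j : J} (hj : j ∈ U) :
    Nf (algebraMap k Ω s) (chi s e (a j)) (chi s e (b j)) ≠ 0 :=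
  have := H.inf
  Nf_chi_ne s H.hs U.finite_toSet H.ind (H.clo j hj).1 (H.clo j hj).2 (H.pa.ne j)

theorem Ctx.tau_mul (H : Ctx s e a b rk U) {j : J} (hj : j ∈ U) :
    e (inr j) * (e (inr j) + chi s e (a j)) =
      tau s e a b j * Nf (algebraMap k Ω s) (chi s e (a j)) (chi s e (b j)) :=
  (div_mul_cancel₀ _ (H.n_ne hj)).symm

theorem Ctx.two_g (H : Ctx s e a b rk U) {j : J} (hj : j ∈ U) :
    2 * e (inr j) + chi s e (a j) ≠ 0 := fun h => by
  have h2 : C 2 * X (inr j) + a j = 0 := by_contra fun n =>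
    chi_ne s U.finite_toSet H.ind (add_mem (mul_mem (Subalgebra.algebraMap_mem _ 2)
      (X_mem_supported.2 (inr_mem.2 hj))) (H.clo j hj).1) n (by
        rwa [map_add, map_mul, chi_inr, map_ofNat, map_ofNat])
  by_cases c2 : (2 : k) = 0
  · exact H.pa.ne j (by simpa [c2] using h2)
  · have : X (inr j) = C (-2⁻¹) * a j := by
      rw [eq_neg_of_add_eq_zero_right h2, map_neg, neg_mul_neg, ← mul_assoc, ← map_mul,
        inv_mul_cancel₀ c2, map_one, one_mul]
    exact lt_irrefl (rk j) (inr_mem (U := {l | rk l < rk j}).1 (X_mem_supported.1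
      (this ▸ mul_mem (Subalgebra.algebraMap_mem _ _) (H.pa.ha j))))

theorem Nf_mem (C : IntermediateField k Ω) {x y : Ω} (hx : x ∈ C) (hy : y ∈ C) :
    Nf (algebraMap k Ω s) x y ∈ C :=
  add_mem (add_mem (pow_mem hx 2) (mul_mem hx hy)) (mul_mem (C.algebraMap_mem s) (pow_mem hy 2))

theorem Ctx.span (H : Ctx s e a b rk U) {t : Set Ω} (h0 : e (inl false) ∈ cl k t)
    (h1 : e (inl true) ∈ cl k t) (h : ∀ j ∈ U, e (inr j) ∈ cl k t ∨
      tau s e a b j ∈ cl k t ∨ -e (inr j) - chi s e (a j) ∈ cl k t) (x : Ω) :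
    x ∈ cl k t := by
  refine cl_le ?_ (H.alg x)
  rintro _ ⟨i, hi, rfl⟩
  revert i
  refine forall_sU h0 h1 (rank_ind H.pa H.clo fun j hj V _ hV ha hb => ?_)
  have hV' := forall_sU (p := fun i => e i ∈ cl k t) h0 h1 fun l hl => (hV l hl).1
  have ha := chi_mem' s _ hV' ha
  rcases h j hj with h | h | h
  · exact h
  · exact cl_quad ha (neg_mem (mul_mem h (Nf_mem _ ha (chi_mem' s _ hV' hb))))
      (by linear_combination H.tau_mul hj)
  · simpa using neg_mem (add_mem h ha)

theorem Ctx.fam_ind (H : Ctx s e a b rk U) {p q : Ω} {γ : J → Ω}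
    (h0 : e (inl false) ∈ cl k (fam p q γ '' sU U))
    (h1 : e (inl true) ∈ cl k (fam p q γ '' sU U)) (h : ∀ j ∈ U, γ j = e (inr j) ∨
      γ j = tau s e a b j ∨ γ j = -e (inr j) - chi s e (a j)) :
    AlgebraicIndepOn k (fam p q γ) (sU U) ∧ ∀ x, x ∈ cl k (fam p q γ '' sU U) :=
  have := H.span h0 h1 fun j hj => by
    have m : γ j ∈ cl k (fam p q γ '' sU U) := subset_cl ⟨_, inr_mem.2 hj, rfl⟩
    rcases h j hj with c | c | c <;> rw [c] at m <;> simp only [m, true_or, or_true]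
  ⟨count_on (sU_finite U.finite_toSet) H.ind fun _ _ => this _, this⟩

theorem gen_mem (S : Finset J) {i : Bool ⊕ J} (hi : i ∈ sU (U : Set J)) :
    fam (e (inl false)) (e (inl true)) (gam s e a b S) i ∈ XS s e a b U S :=
  subset_adjoin _ _ ⟨i, hi, rfl⟩

theorem e_mem {S : Finset J} (hS : S ⊆ U) : ∀ i ∈ sU (S : Set J), e i ∈ XS s e a b U S :=
  forall_sU (gen_mem S (inl_mem _ false)) (gen_mem S (inl_mem _ true)) fun j hj => by
    simpa [gam, show j ∈ S from hj] using gen_mem (s := s) (e := e) (a := a) (b := b) S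
      (inr_mem.2 (hS hj))

theorem tau_mem_XS {S : Finset J} (hS : S ⊆ U) (hc : Closed a b (S : Set J)) {j : J} (hj : j ∈ U) :
    tau s e a b j ∈ XS s e a b U S := by
  by_cases h : j ∈ S
  · exact tau_mem s _ (e_mem hS _ (inr_mem.2 h)) (chi_mem' s _ (e_mem hS) (hc j h).1)
      (chi_mem' s _ (e_mem hS) (hc j h).2)
  · simpa [gam, h] using gen_mem (s := s) (e := e) (a := a) (b := b) S (inr_mem.2 hj)

theorem XS_le {S : Finset J} {C : IntermediateField k Ω} (hS : ∀ i ∈ sU (S : Set J), e i ∈ C)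
    (h : ∀ j ∈ U, j ∉ S → tau s e a b j ∈ C) : XS s e a b U S ≤ C := by
  refine adjoin_le_iff.2 ?_
  rintro _ ⟨i, hi, rfl⟩
  revert i
  refine forall_sU (hS _ (inl_mem _ false)) (hS _ (inl_mem _ true)) fun j hj => ?_
  by_cases c : j ∈ S
  · simpa [gam, c] using hS _ (inr_mem.2 c)
  · simpa [gam, c] using h j hj c

theorem XS_top : XS s e a b U U = XU k e U :=
  le_antisymm (XS_le (fun i hi => subset_adjoin _ _ ⟨i, hi, rfl⟩) fun _ h h' => absurd h h')
    (adjoin_le_iff.2 (by rintro _ ⟨i, hi, rfl⟩; exact e_mem subset_rfl i hi))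

/-- Induction over the closed subsets. -/
theorem Ctx.induct [DecidableEq J] (H : Ctx s e a b rk U) {P : Finset J → Prop} (h0 : P ∅)
    (h1 : ∀ S j, j ∉ S → insert j S ⊆ U → Closed a b (S : Set J) →
      Closed a b ((insert j S : Finset J) : Set J) → a j ∈ supported k (sU S) →
      b j ∈ supported k (sU S) → P S → P (insert j S)) : P U := by
  suffices ∀ S ⊆ U, Closed a b (S : Set J) → P S from this U subset_rfl H.clo
  intro S
  induction S using Finset.induction_on_max_value rk with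
  | empty => exact fun _ _ => h0
  | insert j S hj hm ih =>
    intro hS hc
    have key : ∀ l ∈ insert j S, ∀ p ∈ supported k (sU ((insert j S : Finset J) : Set J)),
        p ∈ supported k (sU {m | rk m < rk l}) → p ∈ supported k (sU (S : Set J)) :=
      fun l hl p h1 h2 => mem_supported.2 fun i hi m e => by
        refine (Finset.mem_insert.1 (mem_supported.1 h1 hi m e)).resolve_left ?_
        rintro rfl
        refine not_le.2 (show rk m < rk l from mem_supported.1 h2 hi m e) ?_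
        rcases Finset.mem_insert.1 hl with rfl | hl
        exacts [le_rfl, hm l hl]
    have c : ∀ l ∈ insert j S, a l ∈ supported k (sU (S : Set J)) ∧
        b l ∈ supported k (sU (S : Set J)) := fun l hl =>
      ⟨key l hl _ (hc l hl).1 (H.pa.ha l), key l hl _ (hc l hl).2 (H.pa.hb l)⟩
    have cS : Closed a b (S : Set J) := fun l hl => c l (Finset.mem_insert_of_mem hl)
    exact h1 S j hj hS cS hc (c j (Finset.mem_insert_self _ _)).1
      (c j (Finset.mem_insert_self _ _)).2 (ih ((Finset.subset_insert _ _).trans hS) cS)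

theorem Ctx.step [DecidableEq J] (H : Ctx s e a b rk U) {S : Finset J} {j : J} (hj : j ∉ S)
    (hS : insert j S ⊆ U) (hc : Closed a b ((insert j S : Finset J) : Set J))
    (ha : a j ∈ supported k (sU S)) (hb : b j ∈ supported k (sU S)) :
    XS s e a b U S ≤ XS s e a b U (insert j S) ∧
    ∃ (c : XS s e a b U (insert j S) →ₐ[k] XS s e a b U (insert j S))
      (g α β : XS s e a b U (insert j S)), (g : Ω) = e (inr j) ∧ (α : Ω) ∈ XS s e a b U S ∧
      (β : Ω) = tau s e a b j * Nf (algebraMap k Ω s) (chi s e (a j)) (chi s e (b j)) ∧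
      (β : Ω) ∈ XS s e a b U S ∧
      (∀ x : XS s e a b U (insert j S), (x : Ω) ∈ XS s e a b U S → c x = x) ∧ g * (g + α) = β ∧
      c g = -g - α ∧ c g ≠ g ∧ ∀ x, ∃ p q : XS s e a b U (insert j S),
        (p : Ω) ∈ XS s e a b U S ∧ (q : Ω) ∈ XS s e a b U S ∧ x = p + q * g := by
  have hS' : S ⊆ U := (Finset.subset_insert _ _).trans hS
  have jU : j ∈ U := hS (Finset.mem_insert_self _ _)
  have sub : sU (S : Set J) ⊆ sU ((insert j S : Finset J) : Set J) :=
    sU_mono (Finset.coe_subset.2 (Finset.subset_insert _ _))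
  have le : XS s e a b U S ≤ XS s e a b U (insert j S) :=
    XS_le (fun i hi => e_mem hS i (sub hi)) fun l hl _ => tau_mem_XS hS hc hl
  have ma := chi_mem' s _ (e_mem (s := s) (e := e) (a := a) (b := b) hS') ha
  have mb := chi_mem' s _ (e_mem (s := s) (e := e) (a := a) (b := b) hS') hb
  have mt : tau s e a b j ∈ XS s e a b U S := by
    simpa [gam, hj] using gen_mem (s := s) (e := e) (a := a) (b := b) S (inr_mem.2 jU)
  have mg := e_mem (s := s) (e := e) (a := a) (b := b) hS _ (inr_mem.2 (Finset.mem_insert_self j S))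
  have mβ := mul_mem mt (Nf_mem (s := s) _ ma mb)
  have i1 := fun γ => H.fam_ind (γ := γ) (subset_cl ⟨_, inl_mem _ false, rfl⟩)
    (subset_cl ⟨_, inl_mem _ true, rfl⟩)
  have i2 : ∀ l, gam s e a b (insert j S) l = e (inr l) ∨
      gam s e a b (insert j S) l = tau s e a b l := fun l => by
    unfold gam; split_ifs <;> simp
  obtain ⟨φ, hφ⟩ : ∃ φ : XS s e a b U (insert j S) →ₐ[k] Ω, ∀ i ∈ sU (U : Set J), ∀ h,
      φ ⟨fam (e (inl false)) (e (inl true)) (gam s e a b (insert j S)) i, h⟩ =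
        fam (e (inl false)) (e (inl true))
          (Function.update (gam s e a b (insert j S)) j (-e (inr j) - chi s e (a j))) i :=
    exists_hom (i1 _ fun l _ => (i2 l).imp_right Or.inl).1 (i1 _ fun l _ => by
      by_cases c : l = j
      · simp [c]
      · rw [Function.update_of_ne c]; exact (i2 l).imp_right Or.inl).1
  have φg : φ ⟨_, mg⟩ = -e (inr j) - chi s e (a j) := by
    have := hφ _ (inr_mem.2 jU) (gen_mem _ (inr_mem.2 jU))
    simpa [gam] using this
  have f1 : ∀ i ∈ sU (U : Set J), i ≠ inr j →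
      fam (e (inl false)) (e (inl true)) (gam s e a b (insert j S)) i ∈ fixF φ := fun i hi ne =>
    mem_fixF.2 ⟨gen_mem _ hi, (hφ i hi _).trans (by
      rcases i with c | l
      · rfl
      · exact Function.update_of_ne (fun h => ne (congrArg _ h)) _ _)⟩
  have f2 : ∀ i ∈ sU (S : Set J), e i ∈ fixF φ :=
    forall_sU (f1 _ (inl_mem _ false) (by simp)) (f1 _ (inl_mem _ true) (by simp)) fun l hl => by
      have hl : l ∈ S := hl
      simpa [gam, hl] using f1 _ (inr_mem.2 (hS' hl)) (by rintro ⟨⟩; exact hj hl)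
  obtain ⟨_, fa⟩ := mem_fixF.1 (chi_mem' s _ f2 ha)
  have fx : XS s e a b U S ≤ fixF φ := XS_le f2 fun l hl h => by
    by_cases c : l = j
    · subst c
      obtain ⟨m, fn⟩ := mem_fixF.1 (Nf_mem (s := s) _ (chi_mem' s _ f2 ha) (chi_mem' s _ f2 hb))
      refine mem_fixF.2 ⟨le mt, ?_⟩
      rw [show (⟨_, le mt⟩ : XS s e a b U (insert l S)) =
        ⟨_, mg⟩ * (⟨_, mg⟩ + ⟨_, le ma⟩) / ⟨_, m⟩ from rfl, map_div₀, map_mul, map_add, φg, fa, fn,
        tau]
      ring
    · simpa [gam, h, c] using f1 _ (inr_mem.2 hl) (by simpa using c)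
  have im : ∀ x, φ x ∈ XS s e a b U (insert j S) := fun x => by
    have : XS s e a b U (insert j S) ≤ pull φ (XS s e a b U (insert j S)) := adjoin_le_iff.2 (by
      rintro _ ⟨i, hi, rfl⟩
      by_cases c : i = inr j
      · subst c
        simpa [gam] using mem_pull.2 ⟨mg, φg ▸ sub_mem (neg_mem mg) (le ma)⟩
      · obtain ⟨m, f⟩ := mem_fixF.1 (f1 i hi c)
        exact mem_pull.2 ⟨m, f.symm ▸ m⟩)
    exact (mem_pull.1 (this x.2)).2
  let c : XS s e a b U (insert j S) →ₐ[k] XS s e a b U (insert j S) :=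
    φ.codRestrict (XS s e a b U (insert j S)).toSubalgebra im
  have hc : ∀ x : XS s e a b U (insert j S), (x : Ω) ∈ XS s e a b U S → c x = x := fun x hx =>
    Subtype.ext (mem_fixF.1 (fx hx)).2
  have cg : c ⟨_, mg⟩ = -⟨_, mg⟩ - ⟨_, le ma⟩ := Subtype.ext φg
  have hg : (⟨_, mg⟩ * (⟨_, mg⟩ + ⟨_, le ma⟩) : XS s e a b U (insert j S)) = ⟨_, le mβ⟩ :=
    Subtype.ext (H.tau_mul jU)
  refine ⟨le, c, ⟨_, mg⟩, ⟨_, le ma⟩, ⟨_, le mβ⟩, rfl, ma, rfl, mβ, hc, hg, cg, fun h => ?_, ?_⟩
  · have h : -e (inr j) - chi s e (a j) = e (inr j) := φg.symm.trans (congrArg Subtype.val h)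
    exact H.two_g jU (by linear_combination -h)
  · rintro ⟨x, hx⟩
    induction hx using adjoin_induction with
    | mem x hx =>
      obtain ⟨i, hi, rfl⟩ := hx
      by_cases c : i = inr j
      · subst c
        exact ⟨0, 1, zero_mem _, one_mem _, Subtype.ext (by simp [gam])⟩
      · refine ⟨⟨_, gen_mem _ hi⟩, 0, ?_, zero_mem _, by simp⟩
        have := gen_mem (s := s) (e := e) (a := a) (b := b) S hi
        rcases i with c | l
        · exact this
        · have c : l ≠ j := by simpa using c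
          by_cases d : l ∈ S <;> simpa [gam, c, d] using this
    | algebraMap x => exact ⟨algebraMap k _ x, 0, IntermediateField.algebraMap_mem _ x, zero_mem _,
        Subtype.ext (by simp)⟩
    | add x y hx hy h1 h2 =>
      obtain ⟨p, q, p1, q1, e1⟩ := h1
      obtain ⟨p', q', p2, q2, e2⟩ := h2
      refine ⟨p + p', q + q', add_mem p1 p2, add_mem q1 q2, ?_⟩
      rw [show (⟨x + y, _⟩ : XS s e a b U (insert j S)) = ⟨x, hx⟩ + ⟨y, hy⟩ from rfl, e1, e2]
      ring
    | mul x y hx hy h1 h2 =>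
      obtain ⟨p, q, p1, q1, e1⟩ := h1
      obtain ⟨p', q', p2, q2, e2⟩ := h2
      refine ⟨p * p' + q * q' * ⟨_, le mβ⟩, p * q' + q * p' - q * q' * ⟨_, le ma⟩,
        add_mem (mul_mem p1 p2) (mul_mem (mul_mem q1 q2) mβ),
        sub_mem (add_mem (mul_mem p1 q2) (mul_mem q1 p2)) (mul_mem (mul_mem q1 q2) ma), ?_⟩
      rw [show (⟨x * y, _⟩ : XS s e a b U (insert j S)) = ⟨x, hx⟩ * ⟨y, hy⟩ from rfl, e1, e2, ← hg]
      ring
    | inv x hx h1 =>
      obtain ⟨p, q, p1, q1, e1⟩ := h1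
      rw [show (⟨x⁻¹, _⟩ : XS s e a b U (insert j S)) = (⟨x, hx⟩ : XS s e a b U (insert j S))⁻¹
        from rfl]
      generalize (⟨x, hx⟩ : XS s e a b U (insert j S)) = z at e1
      by_cases z0 : z = 0
      · exact ⟨0, 0, zero_mem _, zero_mem _, by simp [z0]⟩
      have n : z * c z = p ^ 2 - p * q * ⟨_, le ma⟩ - q ^ 2 * ⟨_, le mβ⟩ := by
        rw [e1, map_add, map_mul, hc p p1, hc q q1, cg, ← hg]
        ring
      have n1 : ((z * c z : XS s e a b U (insert j S)) : Ω) ∈ XS s e a b U S := n ▸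
        sub_mem (sub_mem (pow_mem p1 2) (mul_mem (mul_mem p1 q1) ma)) (mul_mem (pow_mem q1 2) mβ)
      refine ⟨(p - q * ⟨_, le ma⟩) / (z * c z), -q / (z * c z),
        div_mem (sub_mem p1 (mul_mem q1 ma)) n1, div_mem (neg_mem q1) n1, ?_⟩
      have c0 : c z ≠ 0 := (map_ne_zero c).2 z0
      have : c z = p - q * ⟨_, le ma⟩ + -q * ⟨_, mg⟩ := by
        rw [e1, map_add, map_mul, hc p p1, hc q q1, cg]
        ring
      rw [div_mul_eq_mul_div, ← add_div, ← this, mul_comm, div_mul_cancel_left₀ c0]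

end Pool.Agent.MP_2023ef_al.H5
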