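import Pool.Agent.MP_2023ef_al.h5.Gal

/-! A finite `2`-group that preserves a valuation: integrality of determinants of values. -/

namespace Pool.Agent.MP_2023ef_al.H5

open Finset Function

variable {Γ : Type*} [LinearOrderedCommGroupWithZero Γ] {M : Type*} [Field M] (v : Valuation M Γ)
  {G : Type*} [Group G] [MulSemiringAction G M] {ι : Type*} [DecidableEq ι] [Fintype ι]

theorem smul_root {θ s : M} (hθ : θ ^ 2 + θ + s = 0) {σ : G} (hs : σ • s = s) :
    σ • θ = θ ∨ σ • θ = -1 - θ := by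
  have : (σ • θ) ^ 2 + σ • θ + s = 0 := by
    simpa [smul_add, smul_pow', hs] using congrArg (σ • ·) hθ
  have h : (σ • θ - θ) * (σ • θ - (-1 - θ)) = 0 := by linear_combination this - hθ
  simpa [sub_eq_zero] using h

theorem fix_root {θ s a : M} (hθ : θ ^ 2 + θ + s = 0) (vd : v (1 - 4 * s) = 1) {σ : G}
    (hs : σ • s = s) (hv : ∀ x, v (σ • x) = v x) (ha : σ • a = a)
    (h : v (a ^ 2 + a + s) < 1) : σ • θ = θ := by
  refine (smul_root hθ hs).resolve_right fun e => ?_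
  have h1 : v (a - θ) = v (a - (-1 - θ)) := by rw [← hv, smul_sub, ha, e]
  rw [show a ^ 2 + a + s = (a - θ) * (a - (-1 - θ)) by linear_combination hθ, map_mul, ← h1] at h
  have h2 : v (a - θ) < 1 := by
    by_contra c
    exact h.not_ge (one_le_mul (not_lt.1 c) (not_lt.1 c))
  have h3 := v.map_sub_lt (h1 ▸ h2) h2
  rw [show 1 - 4 * s = (a - (-1 - θ) - (a - θ)) ^ 2 by linear_combination -4 * hθ, map_pow] at vd
  exact (pow_lt_one₀ zero_le h3 two_ne_zero).ne vd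

open Classical in
theorem two_swap {H K : Subgroup G} (h : H.relIndex K = 2) {ρ : G} (h1 : ρ ∈ K) (h2 : ρ ∉ H)
    {σ : G} (hσ : σ ∈ K) {x : M} (hx : ∀ τ ∈ H, τ • x = x) :
    if σ ∈ H then σ • x = x ∧ σ • ρ • x = ρ • x else σ • x = ρ • x ∧ σ • ρ • x = x := by
  have k : ∀ a ∈ K, ∀ b ∈ K, a * b ∈ H ↔ (a ∈ H ↔ b ∈ H) := fun a ha b hb =>
    Subgroup.mul_mem_iff_of_index_two (H := H.subgroupOf K) h (a := ⟨a, ha⟩) (b := ⟨b, hb⟩)
  have h3 : ρ⁻¹ ∉ H := by rwa [inv_mem_iff]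
  split_ifs with c
  · refine ⟨hx σ c, ?_⟩
    have : ρ⁻¹ * (σ * ρ) ∈ H := by
      rw [k _ (K.inv_mem h1) _ (K.mul_mem hσ h1), k _ hσ _ h1]
      tauto
    rw [← inv_smul_eq_iff, ← mul_smul σ, ← mul_smul, hx _ this]
  · constructor
    · rw [← inv_smul_eq_iff, ← mul_smul, hx _ ((k _ (K.inv_mem h1) _ hσ).2 (by tauto))]
    · rw [← mul_smul, hx _ ((k _ hσ _ h1).2 (by tauto))]

theorem two_step (lg : M → ι → ℚ) (hm : ∀ x y, x ≠ 0 → y ≠ 0 → lg (x * y) = lg x + lg y)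
    (hl : ∀ x y, v x = v y → lg x = lg y) (hv : ∀ (σ : G) x, v (σ • x) = v x)
    {H K : Subgroup G} (h : H.relIndex K = 2) {γ : M} (g0 : γ ≠ 0)
    (g1 : ∀ τ ∈ H, τ • γ = γ) (g2 : ∀ c, (∀ τ ∈ K, τ • c = c) → v c ≠ v γ) :
    (∀ x, (∀ τ ∈ H, τ • x = x) → v x = 1 → ∃ a, (∀ τ ∈ K, τ • a = a) ∧ v (a - x) < 1) ∧
    ∀ B : AddSubgroup ℚ, (∀ u : ι → M, (∀ i, u i ≠ 0) → (∀ i, ∀ τ ∈ K, τ • u i = u i) →
      dt (fun i => lg (u i)) ∈ B) → ∀ u : ι → M, (∀ i, u i ≠ 0) → (∀ i, ∀ τ ∈ H, τ • u i = u i) →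
      2 * dt (fun i => lg (u i)) ∈ B := by
  classical
  obtain ⟨ρ, r1, r2⟩ : ∃ ρ ∈ K, ρ ∉ H := by
    by_contra c
    rw [Subgroup.relIndex_eq_one.2 fun ρ r => by_contra fun d => c ⟨ρ, r, d⟩] at h
    omega
  have g3 : γ - ρ • γ ≠ 0 := fun e => g2 γ (fun τ hτ => by
    have := two_swap h r1 r2 hτ g1
    split_ifs at this
    · exact this.1
    · rw [this.1, ← sub_eq_zero.1 e]) rfl
  have dc : ∀ x, (∀ τ ∈ H, τ • x = x) → ∃ a b, (∀ τ ∈ K, τ • a = a) ∧ (∀ τ ∈ K, τ • b = b) ∧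
      x = a + b * γ ∧ (b ≠ 0 → v a ≠ v (b * γ)) := fun x hx => by
    have hb : ∀ τ ∈ K, τ • ((x - ρ • x) / (γ - ρ • γ)) = (x - ρ • x) / (γ - ρ • γ) := fun τ hτ => by
      have a1 := two_swap h r1 r2 hτ g1
      have a2 := two_swap h r1 r2 hτ hx
      rw [smul_div₀', smul_sub, smul_sub]
      split_ifs at a1 a2
      · rw [a1.1, a1.2, a2.1, a2.2]
      · rw [a1.1, a1.2, a2.1, a2.2, ← neg_div_neg_eq, neg_sub, neg_sub]
    have ha : ∀ τ ∈ K, τ • (x - (x - ρ • x) / (γ - ρ • γ) * γ) =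
        x - (x - ρ • x) / (γ - ρ • γ) * γ := fun τ hτ => by
      have a1 := two_swap h r1 r2 hτ g1
      have a2 := two_swap h r1 r2 hτ hx
      rw [smul_sub, smul_mul', hb τ hτ]
      split_ifs at a1 a2
      · rw [a1.1, a2.1]
      · rw [a1.1, a2.1]; field_simp; ring
    refine ⟨_, _, ha, hb, by ring, ?_⟩
    generalize (x - ρ • x) / (γ - ρ • γ) = b at ha hb
    refine fun b0 e => g2 ((x - b * γ) / b) (fun τ hτ => by rw [smul_div₀', ha τ hτ, hb τ hτ]) ?_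
    rw [map_div₀, e, map_mul, mul_div_cancel_left₀ _ (v.ne_zero_iff.2 b0)]
  refine ⟨fun x hx x1 => ?_, fun B hB u u0 hu => ?_⟩
  · obtain ⟨a, b, ha, hb, rfl, e⟩ := dc x hx
    refine ⟨a, ha, ?_⟩
    rw [sub_add_cancel_left, v.map_neg]
    by_cases b0 : b = 0
    · simp [b0]
    rcases (e b0).lt_or_gt with l | l
    · rw [v.map_add_eq_of_lt_right l, map_mul] at x1
      exact absurd (by rw [map_inv₀, inv_eq_of_mul_eq_one_right x1])
        (g2 b⁻¹ fun τ hτ => by rw [smul_inv'', hb τ hτ])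
    · rw [v.map_add_eq_of_lt_left l] at x1
      rwa [x1] at l
  let Λ : (ι → Mˣ) → ℚ := fun u => 2 * dt fun i => lg (u i)
  have up : ∀ (u : ι → Mˣ) j (x : Mˣ), (fun i => lg (update u j x i)) =
      update (fun i => lg (u i)) j (lg x) := fun u j x =>
    funext fun i => apply_update (fun _ (y : Mˣ) => lg y) u j x i
  let C : Set Mˣ := {x | ∃ c, (∀ τ ∈ K, τ • c = c) ∧ v c = v (x : M)}
  have hC : ∀ u : ι → Mˣ, (∀ i, u i ∈ C) → dt (fun i => lg (u i)) ∈ B := fun u hu => by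
    choose c c1 c2 using hu
    rw [← funext fun i => hl _ _ (c2 i)]
    exact hB c (fun i => v.ne_zero_iff.1 (c2 i ▸ v.ne_zero_iff.2 (u i).ne_zero)) c1
  let g := Units.mk0 γ g0
  refine multi_ind Λ B (fun u j x y => ?_) (C ∪ {g}) (bt Λ B C {g} (fun u hu => ?_)
    (fun u j hj hu => ?_) fun u i j hij hi hj => Or.inl ?_) (fun i => Units.mk0 (u i) (u0 i))
    fun i => ?_
  · simp only [Λ, up, Units.val_mul, hm _ _ x.ne_zero y.ne_zero, dt_add, mul_add]
  · simpa [Λ, two_mul] using B.add_mem (hC u hu) (hC u hu)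
  · have := hC (update u j (g * g)) fun i => by
      by_cases e : i = j
      · subst e
        refine ⟨γ * ρ • γ, fun τ hτ => ?_, by simp [g, hv]⟩
        have a1 := two_swap h r1 r2 hτ g1
        rw [smul_mul']
        split_ifs at a1
        · rw [a1.1, a1.2]
        · rw [a1.1, a1.2, mul_comm]
      · rw [update_of_ne e]; exact hu i e
    rw [up, Units.val_mul, hm _ _ g.ne_zero g.ne_zero, dt_add, ← hj, ← up, update_eq_self] at this
    simpa [Λ, two_mul] using this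
  · have : u i = u j := hi.trans hj.symm
    simp [Λ, dt_alt (fun i => lg (u i)) hij (by rw [this])]
  · obtain ⟨a, b, ha, hb, e, e'⟩ := dc (u i) (hu i)
    by_cases c : v a = v (u i)
    · exact Subgroup.subset_closure (Or.inl ⟨a, ha, c⟩)
    have b0 : b ≠ 0 := fun b0 => c (by rw [e, b0, zero_mul, add_zero])
    have l : v (u i) = v b * v γ := by
      rcases (e' b0).lt_or_gt with l | l
      · rw [e, v.map_add_eq_of_lt_right l, map_mul]
      · exact absurd (by rw [e, v.map_add_eq_of_lt_left l]) c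
    rw [← div_mul_cancel (Units.mk0 (u i) (u0 i)) g]
    refine mul_mem (Subgroup.subset_closure (Or.inl ⟨b, hb, ?_⟩))
      (Subgroup.subset_closure (Or.inr rfl))
    simp [g, l, mul_div_cancel_right₀ _ (v.ne_zero_iff.2 g0)]

variable [Finite G]

theorem two_group (hG : IsPGroup 2 G) (lg : M → ι → ℚ)
    (hm : ∀ x y, x ≠ 0 → y ≠ 0 → lg (x * y) = lg x + lg y)
    (hl : ∀ x y, v x = v y → lg x = lg y) (hv : ∀ (σ : G) x, v (σ • x) = v x) {θ s : M}
    (hθ : θ ^ 2 + θ + s = 0) (hs : ∀ σ : G, σ • s = s) (vs : v s = 1) (vd : v (1 - 4 * s) = 1)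
    (h1 : ∀ c : M, c ≠ 0 → (∀ σ : G, σ • c = c) → ∀ i, lg c i ∈ Z2) (h2 : ¬∀ σ : G, σ • θ = θ)
    (H : Subgroup G) (u : ι → M) (u0 : ∀ i, u i ≠ 0) (hu : ∀ i, ∀ τ ∈ H, τ • u i = u i) :
    H.index * dt (fun i => lg (u i)) ∈ Z2 ∧
      ((∀ τ ∈ H, τ • θ = θ) → H.index * dt (fun i => lg (u i)) ∈ E2) := by
  obtain ⟨n, hn⟩ := hG.index H
  induction n generalizing H u with
  | zero =>
    obtain rfl : H = ⊤ := Subgroup.index_eq_one.1 hn
    refine ⟨?_, fun h => absurd (fun σ => h σ trivial) h2⟩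
    simpa using dt_mem _ fun i j => h1 _ (u0 i) (fun σ => hu i σ trivial) j
  | succ n ih =>
    obtain ⟨a, ha⟩ := IsPGroup.iff_card.1 (hG.to_subgroup H)
    have e := H.card_mul_index
    obtain ⟨K, hK, hHK⟩ := Sylow.exists_subgroup_card_pow_succ
      (show 2 ^ (a + 1) ∣ Nat.card G from ⟨2 ^ n, by rw [← e, ha, hn]; ring⟩) ha
    have kn : K.index = 2 ^ n := by
      have := K.card_mul_index
      rw [← e, hK, ha, hn] at this
      exact mul_left_cancel₀ (a := 2 ^ (a + 1)) (by positivity) (this.trans (by ring))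
    have hr : H.relIndex K = 2 := by
      have := Subgroup.relIndex_mul_index hHK
      rw [kn, hn, pow_succ'] at this
      exact mul_right_cancel₀ (by positivity) this
    have hi : (H.index : ℚ) = K.index * 2 := by rw [hn, kn]; push_cast; ring
    rw [hi, mul_assoc]
    by_cases c : ∀ x, x ≠ 0 → (∀ τ ∈ H, τ • x = x) → ∃ c, (∀ τ ∈ K, τ • c = c) ∧ v c = v x
    · choose c c1 c2 using fun i => c _ (u0 i) (hu i)
      have := (ih K c (fun i => v.ne_zero_iff.1 (c2 i ▸ v.ne_zero_iff.2 (u0 i))) c1 kn).1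
      rw [funext fun i => hl _ _ (c2 i)] at this
      refine ⟨?_, fun _ => ⟨_, this, by ring⟩⟩
      rw [mul_left_comm]
      exact Z2.mul_mem (ofNat_mem _ 2) this
    push Not at c
    obtain ⟨γ, g0, g1, g2⟩ := c
    obtain ⟨s1, s2⟩ := two_step v lg hm hl hv hr g0 g1 g2
    refine ⟨s2 (Z2.toAddSubgroup.comap (AddMonoidHom.mulLeft (K.index : ℚ)))
      (fun w w0 hw => (ih K w w0 hw kn).1) u u0 hu, fun h => s2
      (E2.comap (AddMonoidHom.mulLeft (K.index : ℚ)))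
      (fun w w0 hw => (ih K w w0 hw kn).2 fun τ hτ => ?_) u u0 hu⟩
    have t1 := root_le v vs.le hθ
    have t2 : v θ = 1 := by
      have : v θ * v (θ + 1) = 1 := by
        rw [← map_mul, show θ * (θ + 1) = -s by linear_combination hθ, v.map_neg, vs]
      exact t1.antisymm (this.ge.trans (mul_le_of_le_one_right' (v.map_add_le t1 v.map_one.le)))
    obtain ⟨a, a1, a2⟩ := s1 θ h t2
    refine fix_root v hθ vd (hs τ) (hv τ) (a1 τ hτ) ?_
    rw [show a ^ 2 + a + s = (a - θ) * ((a - θ) + θ + θ + 1) by linear_combination hθ, map_mul]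
    exact (mul_le_of_le_one_right' (v.map_add_le (v.map_add_le (v.map_add_le a2.le t1) t1)
      v.map_one.le)).trans_lt a2

omit [DecidableEq ι] [Fintype ι] in
theorem lg_prod (lg : M → ι → ℚ) (hm : ∀ x y, x ≠ 0 → y ≠ 0 → lg (x * y) = lg x + lg y)
    {α : Type*} (s : Finset α) (f : α → M) (h : ∀ a ∈ s, f a ≠ 0) :
    lg (∏ a ∈ s, f a) = ∑ a ∈ s, lg (f a) := by
  classical
  induction s using Finset.induction_on with
  | empty => simpa using hm 1 1 one_ne_zero one_ne_zero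
  | insert a s ha ih =>
    have h' : ∀ a ∈ s, f a ≠ 0 := fun b hb => h b (mem_insert_of_mem hb)
    rw [prod_insert ha, sum_insert ha, hm _ _ (h a (mem_insert_self _ _)) (prod_ne_zero_iff.2 h'),
      ih h']

theorem odd_orb (S : Sylow 2 G) {x : M} (hx : ∀ σ ∈ S, σ • x = x) : Odd (orb G x).card := by
  have h1 : (orb G x).card = (MulAction.stabilizer G x).index := by
    rw [MulAction.index_stabilizer]
    exact (Set.ncard_eq_toFinset_card _ (Set.finite_range _)).symm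
  rw [h1, ← Nat.not_even_iff_odd, even_iff_two_dvd]
  exact fun h => S.not_dvd_index (h.trans (Subgroup.index_dvd_of_le fun σ hσ => hx σ hσ))

/-- The integrality theorem for a finite group acting on a valued field. -/
theorem sylow_int (lg : M → ι → ℚ) (hm : ∀ x y, x ≠ 0 → y ≠ 0 → lg (x * y) = lg x + lg y)
    (hl : ∀ x y, v x = v y → lg x = lg y) {θ s : M}
    (hθ : θ ^ 2 + θ + s = 0) (hs : ∀ σ : G, σ • s = s) (vs : v s = 1) (vd : v (1 - 4 * s) = 1)
    (h1 : ∀ c : M, c ≠ 0 → (∀ σ : G, σ • c = c) → ∀ i, lg c i ∈ Z2)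
    (h2 : ∀ c : M, (∀ σ : G, σ • c = c) → v c ≤ 1 → v (c ^ 2 + c + s) = 1)
    (S : Sylow 2 (dec v G)) (H : Subgroup S) (u : ι → M) (u0 : ∀ i, u i ≠ 0)
    (hu : ∀ i, ∀ τ ∈ H, τ • u i = u i) : H.index * dt (fun i => lg (u i)) ∈ Z2 ∧
      ∀ a, (∀ τ ∈ H, τ • a = a) → v (a ^ 2 + a + s) < 1 →
        H.index * dt (fun i => lg (u i)) ∈ E2 := by
  have := two_group v (G := S) S.2 lg hm hl (fun σ x => σ.1.2 x) hθ (fun σ => hs σ.1.1) vs vd
    (fun c c0 hc i => ?_) (fun h => ?_) H u u0 hu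
  · exact ⟨this.1, fun a ha h => this.2 fun τ hτ =>
      fix_root v hθ vd (hs τ.1.1) (τ.1.2) (ha τ hτ) h⟩
  · have o := odd_orb S fun σ hσ => hc ⟨σ, hσ⟩
    have h0 : ∀ y ∈ orb (dec v G) c, y ≠ 0 := fun y hy => by
      obtain ⟨σ, rfl⟩ := mem_orb.1 hy
      exact (smul_ne_zero_iff_ne σ).2 c0
    have e : es (orb (dec v G) c) (orb (dec v G) c).card = ∏ y ∈ orb (dec v G) c, y := by
      simp [es]
    have p0 := prod_ne_zero_iff.2 h0
    obtain ⟨d, d1, d2⟩ := dec_value v (G := G) (fun σ hσ => e ▸ es_fix c _ (⟨σ, hσ⟩ : dec v G)) p0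
    obtain ⟨m, n, hn, e1⟩ := h1 d (v.ne_zero_iff.1 (d2 ▸ v.ne_zero_iff.2 p0)) d1 i
    rw [hl _ _ d2, lg_prod lg hm _ _ h0, sum_congr rfl (g := fun _ => lg c) fun y hy => by
      obtain ⟨σ, rfl⟩ := mem_orb.1 hy
      exact hl _ _ (σ.2 c)] at e1
    refine ⟨m * (orb (dec v G) c).card, n, hn.mul o.natCast, ?_⟩
    simpa [mul_assoc] using e1
  · have o := odd_orb S fun σ hσ => h ⟨σ, hσ⟩
    refine dec_root v hθ hs vs.le h2 fun σ hσ => by_contra fun c => ?_
    classical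
    have a : orb (dec v G) θ ⊆ {θ, σ • θ} := fun y hy => by
      obtain ⟨τ, rfl⟩ := mem_orb.1 hy
      rw [(smul_root hθ (hs σ)).resolve_left c]
      exact mem_insert.2 ((smul_root hθ (hs τ.1)).imp id mem_singleton.2)
    have b : {θ, σ • θ} ⊆ orb (dec v G) θ :=
      insert_subset (self_mem_orb θ) (singleton_subset_iff.2 (mem_orb.2 ⟨⟨σ, hσ⟩, rfl⟩))
    rw [a.antisymm b, card_pair (Ne.symm c)] at o
    exact absurd o (by decide)

end Pool.Agent.MP_2023ef_al.H5
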